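import Pool.Agent.SYL.Defs

set_option autoImplicit false

/-!
LEVB: elementary facts on chains and levels (short). `lev_child`: extend the chain by `y`
(Function.update at j+1). `lev_finite`: induction, a level `j+1` element is a root of the monic
quadratic `X^2 + C j X - C (j+1) x` for one of finitely many `x` (finite union of finite sets).
`lev_ne_zero`: `0` would force the parent to be `0` (`C (j+1)` is not zero), down to `q = 0`.
`lev_isIntegral`: root of a monic quadratic over the integral closure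
(IsIntegral.of_... or isIntegral_trans; e.g. y integral because y^2 + C y = C' x is integral:
use IsIntegral of the polynomial X^2 + C X - C' x over the integral closure subalgebra,
or `IsIntegral.of_mem_of_fg`). `lev_int`: lift the whole chain to the ring of integers.
-/

namespace Pool.Agent.SYL

open NumberField

theorem lev_zero (R : Type*) [CommRing R] (q : ℕ) (C : ℕ → ℕ) : Lev R q C 0 = {(q : R)} := by
  ext z
  constructor
  · rintro ⟨x, hx, rfl⟩
    exact hx.1
  · intro hz
    rw [Set.mem_singleton_iff] at hz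
    subst hz
    exact ⟨fun _ => (q : R), ⟨rfl, fun j hj => absurd hj (Nat.not_lt_zero j)⟩, rfl⟩

/-- A child of a level `j` element has level `j + 1`. -/
theorem lev_child {R : Type*} [CommRing R] {q : ℕ} {C : ℕ → ℕ} {j : ℕ} {x y : R}
    (hx : x ∈ Lev R q C j) (hy : y * (y + (C j : R)) = (C (j + 1) : R) * x) :
    y ∈ Lev R q C (j + 1) := by
  obtain ⟨c, ⟨h0, hc⟩, rfl⟩ := hx
  refine ⟨fun k => if k ≤ j then c k else y, ⟨?_, ?_⟩, ?_⟩
  · change (if 0 ≤ j then c 0 else y) = _
    rw [if_pos (Nat.zero_le j), h0]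
  · intro k hk
    change (if k + 1 ≤ j then c (k + 1) else y) * ((if k + 1 ≤ j then c (k + 1) else y) + _) =
      _ * (if k ≤ j then c k else y)
    by_cases h : k + 1 ≤ j
    · rw [if_pos h, if_pos (by omega : k ≤ j)]
      exact hc k h
    · have hkj : k = j := by omega
      subst hkj
      rw [if_neg h, if_pos le_rfl]
      exact hy
  · change (if j + 1 ≤ j then c (j + 1) else y) = y
    rw [if_neg (by omega)]

/-- Every element of level `j + 1` has a parent. -/
theorem lev_parent {R : Type*} [CommRing R] {q : ℕ} {C : ℕ → ℕ} {j : ℕ} {y : R}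
    (hy : y ∈ Lev R q C (j + 1)) :
    ∃ x ∈ Lev R q C j, y * (y + (C j : R)) = (C (j + 1) : R) * x := by
  obtain ⟨c, ⟨h0, hc⟩, rfl⟩ := hy
  exact ⟨c j, ⟨c, ⟨h0, fun k hk => hc k (by omega)⟩, rfl⟩, hc j (by omega)⟩

theorem lev_map {R S : Type*} [CommRing R] [CommRing S] (f : R →+* S) {q : ℕ} {C : ℕ → ℕ} {M : ℕ}
    {x : R} (hx : x ∈ Lev R q C M) : f x ∈ Lev S q C M := by
  obtain ⟨c, ⟨h0, hc⟩, rfl⟩ := hx
  refine ⟨fun k => f (c k), ⟨?_, ?_⟩, rfl⟩
  · change f (c 0) = _
    rw [h0, map_natCast]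
  · intro k hk
    have h := congrArg f (hc k hk)
    rw [map_mul, map_add, map_natCast, map_mul, map_natCast] at h
    exact h

theorem isChain_congr {R : Type*} [CommRing R] {q : ℕ} {C C' : ℕ → ℕ} {M : ℕ}
    (h : ∀ j, j ≤ M → C j = C' j) {x : ℕ → R} (hx : IsChain q C M x) : IsChain q C' M x := by
  refine ⟨hx.1, fun j hj => ?_⟩
  rw [← h j (by omega), ← h (j + 1) (by omega)]
  exact hx.2 j hj

theorem lev_congr (R : Type*) [CommRing R] {q : ℕ} {C C' : ℕ → ℕ} {M : ℕ}
    (h : ∀ j, j ≤ M → C j = C' j) : Lev R q C M = Lev R q C' M := by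
  ext z
  constructor
  · rintro ⟨x, hx, rfl⟩
    exact ⟨x, isChain_congr h hx, rfl⟩
  · rintro ⟨x, hx, rfl⟩
    exact ⟨x, isChain_congr (fun j hj => (h j hj).symm) hx, rfl⟩

theorem kill_congr {q : ℕ} {C C' : ℕ → ℕ} {M : ℕ}
    (h : ∀ j, j ≤ M → C j = C' j) : Kill q C M = Kill q C' M := by
  ext p
  constructor
  · rintro ⟨hp, hn⟩
    exact ⟨hp, fun ⟨x, hx⟩ => hn ⟨x, isChain_congr (fun j hj => (h j hj).symm) hx⟩⟩
  · rintro ⟨hp, hn⟩
    exact ⟨hp, fun ⟨x, hx⟩ => hn ⟨x, isChain_congr h hx⟩⟩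

theorem sepOK_congr {q : ℕ} {C C' : ℕ → ℕ} {M l : ℕ}
    (h : ∀ j, j ≤ M → C j = C' j) : SepOK q C M l → SepOK q C' M l := by
  intro hs L _ _ P hP hl x y hx hy hxy
  rw [← lev_congr (𝓞 L) h] at hx hy
  exact hs L P hP hl x y hx hy hxy

theorem lev_finite (F : Type*) [Field F] [CharZero F] (q : ℕ) (C : ℕ → ℕ) (M : ℕ)
    (hC : ∀ j, j < M → 0 < C (j + 1)) : (Lev F q C M).Finite := by
  induction M with
  | zero =>
    rw [lev_zero]
    exact Set.finite_singleton _
  | succ M ih =>
    have ih' := ih fun j hj => hC j (by omega)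
    have hq : ∀ a b : F, {y : F | y * (y + a) = b}.Finite := by
      intro a b
      by_cases hne : ({y : F | y * (y + a) = b}).Nonempty
      · obtain ⟨y0, hy0⟩ := hne
        refine (Set.toFinite ({y0, -y0 - a} : Set F)).subset ?_
        intro y hy
        have h1 : y * (y + a) = b := hy
        have h2 : y0 * (y0 + a) = b := hy0
        have h3 : (y - y0) * (y - (-y0 - a)) = 0 := by linear_combination h1 - h2
        rcases mul_eq_zero.1 h3 with h | h
        · exact Or.inl (sub_eq_zero.1 h)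
        · exact Or.inr (sub_eq_zero.1 h)
      · rw [Set.not_nonempty_iff_eq_empty] at hne
        rw [hne]
        exact Set.finite_empty
    refine (ih'.biUnion (t := fun x => {y : F | y * (y + (C M : F)) = (C (M + 1) : F) * x})
      fun x _ => hq _ _).subset ?_
    intro y hy
    obtain ⟨x, hx, hxy⟩ := lev_parent hy
    exact Set.mem_biUnion hx hxy

theorem lev_ne_zero {F : Type*} [Field F] [CharZero F] {q : ℕ} {C : ℕ → ℕ} {M : ℕ} (hq : 0 < q)
    (hC : ∀ j, j < M → 0 < C (j + 1)) {x : F} (hx : x ∈ Lev F q C M) : x ≠ 0 := by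
  induction M generalizing x with
  | zero =>
    rw [lev_zero, Set.mem_singleton_iff] at hx
    rw [hx]
    exact Nat.cast_ne_zero.2 hq.ne'
  | succ M ih =>
    obtain ⟨z, hz, hzx⟩ := lev_parent hx
    have hz0 := ih (fun j hj => hC j (by omega)) hz
    rintro rfl
    rw [zero_mul] at hzx
    exact mul_ne_zero (Nat.cast_ne_zero.2 (hC M (by omega)).ne') hz0 hzx.symm

/-- Level elements are integral. -/
theorem lev_isIntegral_aux {F : Type*} [Field F] {q : ℕ} {C : ℕ → ℕ} {M : ℕ} {x : F}
    (hx : x ∈ Lev F q C M) : IsIntegral ℤ x := by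
  induction M generalizing x with
  | zero =>
    rw [lev_zero, Set.mem_singleton_iff] at hx
    rw [hx]
    have := isIntegral_algebraMap (R := ℤ) (A := F) (x := (q : ℤ))
    rwa [eq_intCast, Int.cast_natCast] at this
  | succ M ih =>
    obtain ⟨z, hz, hzx⟩ := lev_parent hx
    have hzi := ih hz
    have hnat : ∀ n : ℕ, (n : F) ∈ integralClosure ℤ F := fun n => natCast_mem _ n
    let A := integralClosure ℤ F
    have hb : (C (M + 1) : F) * z ∈ A := A.mul_mem (hnat _) hzi
    have hA : IsIntegral A x := by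
      refine ⟨Polynomial.X ^ 2 + Polynomial.C (⟨(C M : F), hnat _⟩ : A) * Polynomial.X -
        Polynomial.C (⟨_, hb⟩ : A), ?_, ?_⟩
      · monicity!
      · simp only [Polynomial.eval₂_sub, Polynomial.eval₂_add, Polynomial.eval₂_mul,
          Polynomial.eval₂_pow, Polynomial.eval₂_X, Polynomial.eval₂_C]
        change x ^ 2 + (C M : F) * x - (C (M + 1) : F) * z = 0
        linear_combination hzx
    exact isIntegral_trans (R := ℤ) (A := A) x hA

/-- Level elements are integral. -/
theorem lev_int {L : Type} [Field L] [NumberField L] {q : ℕ} {C : ℕ → ℕ} {M : ℕ} {x : L}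
    (hx : x ∈ Lev L q C M) : ∃ x' : 𝓞 L, x' ∈ Lev (𝓞 L) q C M ∧ (x' : L) = x := by
  induction M generalizing x with
  | zero =>
    rw [lev_zero, Set.mem_singleton_iff] at hx
    refine ⟨(q : 𝓞 L), ?_, ?_⟩
    · rw [lev_zero]
      exact rfl
    · rw [hx]
      exact map_natCast (algebraMap (𝓞 L) L) q
  | succ M ih =>
    have hxi : IsIntegral ℤ x := lev_isIntegral_aux hx
    obtain ⟨z, hz, hzx⟩ := lev_parent hx
    obtain ⟨z', hz', rfl⟩ := ih hz
    refine ⟨⟨x, hxi⟩, lev_child hz' ?_, rfl⟩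
    apply RingOfIntegers.coe_injective
    rw [map_mul, map_add, map_natCast, map_mul, map_natCast]
    exact hzx

theorem lev_isIntegral {F : Type*} [Field F] [CharZero F] {q : ℕ} {C : ℕ → ℕ} {M : ℕ} {x : F}
    (hx : x ∈ Lev F q C M) : IsIntegral ℤ x := lev_isIntegral_aux hx

end Pool.Agent.SYL
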