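import Pool.Agent.SYL.Defs
import Pool.Agent.SYL.LEVB

set_option autoImplicit false

/-!
LFT: induction on j: there is y_j in Lev (𝓞 L) q C j with y_j - (x j).val in P. Step: Full (through lev_int)
gives a child z of y_j in 𝓞 L, the other one is -C j - z, and (X - z)(X + C j + z) = X^2 + C j X - C (j+1) y_j. Put
k = (x (j+1)).val; k^2 + C j k - C (j+1) (x j).val is divisible by p, so (k - z)(k + C j + z) in P; P prime: one factor is in P.
-/

namespace Pool.Agent.SYL

open NumberField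

private lemma lft_mem {L : Type} [Field L] [NumberField L] (p : ℕ) (P : Ideal (𝓞 L))
    (hpP : ((p : ℕ) : 𝓞 L) ∈ P) (n : ℤ) (hn : ((n : ℤ) : ZMod p) = 0) : ((n : ℤ) : 𝓞 L) ∈ P := by
  obtain ⟨m, rfl⟩ := (ZMod.intCast_zmod_eq_zero_iff_dvd n p).1 hn
  rw [Int.cast_mul, Int.cast_natCast]
  exact P.mul_mem_right _ hpP

/-- Lifting of chains modulo a prime: if there is a chain in `ZMod p` and `P` lies above `p`, there is a
level `M` element of `𝓞 L` congruent to an integer modulo `P`. -/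
theorem exists_lift {q : ℕ} {C : ℕ → ℕ} {M : ℕ} {L : Type} [Field L] [NumberField L]
    (hfull : Full L q C M) (p : ℕ) (hp : p.Prime) (P : Ideal (𝓞 L)) (hP : P.IsPrime)
    (hpP : ((p : ℕ) : 𝓞 L) ∈ P) (x : ℕ → ZMod p) (hx : IsChain q C M x) :
    ∃ (y : 𝓞 L) (k : ℕ), y ∈ Lev (𝓞 L) q C M ∧ y - ((k : ℕ) : 𝓞 L) ∈ P := by
  have : Fact p.Prime := ⟨hp⟩
  have key : ∀ j, j ≤ M → ∃ y : 𝓞 L, y ∈ Lev (𝓞 L) q C j ∧ y - (((x j).val : ℕ) : 𝓞 L) ∈ P := by
    intro j
    induction j with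
    | zero =>
      intro _
      refine ⟨(q : 𝓞 L), by rw [lev_zero]; rfl, ?_⟩
      have h := lft_mem p P hpP ((q : ℤ) - ((x 0).val : ℤ)) (by
        push_cast
        rw [ZMod.natCast_zmod_val, hx.1, sub_self])
      push_cast at h
      exact h
    | succ j ih =>
      intro hj
      obtain ⟨y, hy, hyP⟩ := ih (by omega)
      have hyL : (y : L) ∈ Lev L q C j := lev_map (algebraMap (𝓞 L) L) hy
      obtain ⟨z0, hz0⟩ := hfull j (by omega) _ hyL
      obtain ⟨z, hz, hzz⟩ := lev_int (lev_child hyL hz0)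
      have hze : z * (z + (C j : 𝓞 L)) = (C (j + 1) : 𝓞 L) * y := by
        apply RingOfIntegers.coe_injective
        rw [← hzz] at hz0
        push_cast
        exact hz0
      have hz' : (-(C j : 𝓞 L) - z) ∈ Lev (𝓞 L) q C (j + 1) := by
        refine lev_child hy ?_
        rw [← hze]
        ring
      have hmul : ((((x (j + 1)).val : ℕ) : 𝓞 L) - z) * ((((x (j + 1)).val : ℕ) : 𝓞 L) + (C j : 𝓞 L) + z) ∈ P := by
        have h1 := lft_mem p P hpP (((x (j + 1)).val : ℤ) * (((x (j + 1)).val : ℤ) + (C j : ℤ)) -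
          (C (j + 1) : ℤ) * ((x j).val : ℤ)) (by
            push_cast
            rw [ZMod.natCast_zmod_val, ZMod.natCast_zmod_val, hx.2 j (by omega), sub_self])
        have h2 := P.mul_mem_left ((C (j + 1) : 𝓞 L)) hyP
        have h3 := P.sub_mem h1 h2
        have h4 : ((((x (j + 1)).val : ℕ) : 𝓞 L) - z) * ((((x (j + 1)).val : ℕ) : 𝓞 L) + (C j : 𝓞 L) + z) =
            (((((x (j + 1)).val : ℤ) * (((x (j + 1)).val : ℤ) + (C j : ℤ)) -
          (C (j + 1) : ℤ) * ((x j).val : ℤ) : ℤ)) : 𝓞 L) -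
            (C (j + 1) : 𝓞 L) * (y - (((x j).val : ℕ) : 𝓞 L)) := by
          push_cast
          linear_combination (-1 : 𝓞 L) * hze
        rw [h4]
        exact h3
      rcases hP.mem_or_mem hmul with h | h
      · refine ⟨z, hz, ?_⟩
        rw [← neg_sub]
        exact P.neg_mem h
      · refine ⟨_, hz', ?_⟩
        have : -(C j : 𝓞 L) - z - (((x (j + 1)).val : ℕ) : 𝓞 L) =
          -((((x (j + 1)).val : ℕ) : 𝓞 L) + (C j : 𝓞 L) + z) := by ring
        rw [this]
        exact P.neg_mem h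
  obtain ⟨y, hy, hyP⟩ := key M le_rfl
  exact ⟨y, _, hy, hyP⟩

end Pool.Agent.SYL
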