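import Pool.Agent.SYL.Defs
import Pool.Agent.SYL.LEVB

set_option autoImplicit false

/-!
SEP: for x <> y in the finite set Lev ℂ q C I the number x - y is a nonzero algebraic integer, so
there are R in ℤ[X] and a nonzero integer d with (x - y) R(x - y) = d (constant coefficient of the
minimal polynomial over ℤ). D = sum or max of all |d|. For a number field L take any embedding
φ : L → ℂ (exists); for x, y in Lev (𝓞 L), φ x, φ y in Lev ℂ are different (injectivity), so
(x - y) R(x - y) = d in 𝓞 L. If x - y in P then d in P; together with l in P, l prime, P proper, this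
forces l | d (P ∩ ℤ = l ℤ; or: gcd (d, l) = 1 gives 1 in P), so l <= |d| <= D, contradiction.
-/

namespace Pool.Agent.SYL

open NumberField

theorem sep_poly (z : ℂ) (hz : IsIntegral ℤ z) (h0 : z ≠ 0) :
    ∃ (R : Polynomial ℤ) (d : ℤ), d ≠ 0 ∧ z * Polynomial.aeval z R = (d : ℂ) := by
  refine ⟨(minpoly ℤ z).divX, -(minpoly ℤ z).coeff 0, ?_, ?_⟩
  · have h1 := minpoly.isIntegrallyClosed_eq_field_fractions' ℚ hz
    have h2 : (minpoly ℚ z).coeff 0 ≠ 0 := minpoly.coeff_zero_ne_zero hz.tower_top h0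
    rw [h1, Polynomial.coeff_map] at h2
    intro h3
    apply h2
    rw [neg_eq_zero.1 h3, map_zero]
  · have h1 := minpoly.aeval ℤ z
    have h2 := Polynomial.X_mul_divX_add (minpoly ℤ z)
    rw [← h2] at h1
    rw [map_add, map_mul, Polynomial.aeval_X, Polynomial.aeval_C] at h1
    rw [eq_intCast] at h1
    push_cast
    linear_combination h1

/-- For all large primes `l` the level `I` elements are separated modulo primes above `l`. -/
theorem exists_sep (q : ℕ) (C : ℕ → ℕ) (I : ℕ) (hC : ∀ j, j < I → 0 < C (j + 1)) :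
    ∃ D : ℕ, ∀ l : ℕ, l.Prime → D < l → SepOK q C I l := by
  classical
  have hfin := lev_finite ℂ q C I hC
  have hex : ∀ z : ℂ, ∃ (R : Polynomial ℤ) (d : ℤ), IsIntegral ℤ z → z ≠ 0 →
      (d ≠ 0 ∧ z * Polynomial.aeval z R = (d : ℂ)) := by
    intro z
    by_cases h : IsIntegral ℤ z ∧ z ≠ 0
    · obtain ⟨R, d, h1, h2⟩ := sep_poly z h.1 h.2
      exact ⟨R, d, fun _ _ => ⟨h1, h2⟩⟩
    · exact ⟨0, 0, fun h1 h2 => absurd ⟨h1, h2⟩ h⟩
  choose R d hRd using hex
  refine ⟨∑ p ∈ hfin.toFinset ×ˢ hfin.toFinset, (d (p.1 - p.2)).natAbs, ?_⟩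
  intro l hl hD L _ _ P hP hlP x y hx hy hxy hmem
  obtain ⟨φ⟩ : Nonempty (L →+* ℂ) := inferInstance
  let f : 𝓞 L →+* ℂ := φ.comp (algebraMap (𝓞 L) L)
  have hf : Function.Injective f := by
    intro a b hab
    exact RingOfIntegers.coe_injective (φ.injective hab)
  have hfx : f x ∈ Lev ℂ q C I := lev_map f hx
  have hfy : f y ∈ Lev ℂ q C I := lev_map f hy
  have hne : f x - f y ≠ 0 := sub_ne_zero.2 (fun h => hxy (hf h))
  have hint : IsIntegral ℤ (f x - f y) := (lev_isIntegral hfx).sub (lev_isIntegral hfy)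
  obtain ⟨hd0, hd⟩ := hRd (f x - f y) hint hne
  set D0 := d (f x - f y) with hD0
  set R0 := R (f x - f y) with hR0
  have hle : D0.natAbs ≤ ∑ p ∈ hfin.toFinset ×ˢ hfin.toFinset, (d (p.1 - p.2)).natAbs := by
    have hm : ((f x, f y) : ℂ × ℂ) ∈ hfin.toFinset ×ˢ hfin.toFinset :=
      Finset.mem_product.2 ⟨hfin.mem_toFinset.2 hfx, hfin.mem_toFinset.2 hfy⟩
    exact Finset.single_le_sum (f := fun p : ℂ × ℂ => (d (p.1 - p.2)).natAbs)
      (fun _ _ => Nat.zero_le _) hm
  have heq : (x - y) * Polynomial.aeval (x - y) R0 = ((D0 : ℤ) : 𝓞 L) := by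
    apply hf
    rw [map_mul, map_sub, map_intCast, ← hd]
    congr 1
    rw [← map_sub]
    have := Polynomial.aeval_algHom_apply f.toIntAlgHom (x - y) R0
    exact this.symm
  have hdP : ((D0 : ℤ) : 𝓞 L) ∈ P := by
    rw [← heq]
    exact P.mul_mem_right _ hmem
  have hcop : IsCoprime D0 (l : ℤ) := by
    rw [Int.isCoprime_iff_gcd_eq_one]
    show Nat.gcd D0.natAbs (l : ℤ).natAbs = 1
    rw [Int.natAbs_natCast]
    apply Nat.Coprime.symm
    apply (Nat.Prime.coprime_iff_not_dvd hl).2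
    intro hdvd
    have h1 := Nat.le_of_dvd (Int.natAbs_pos.2 hd0) hdvd
    omega
  obtain ⟨a, b, hab⟩ := hcop
  apply hP.ne_top
  rw [Ideal.eq_top_iff_one]
  have h1 : (1 : 𝓞 L) = (a : 𝓞 L) * ((D0 : ℤ) : 𝓞 L) + (b : 𝓞 L) * ((l : ℕ) : 𝓞 L) := by
    have := congrArg (fun t : ℤ => (t : 𝓞 L)) hab
    push_cast at this
    exact this.symm
  rw [h1]
  exact P.add_mem (P.mul_mem_left _ hdP) (P.mul_mem_left _ hlP)

end Pool.Agent.SYL
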