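import Pool.Agent.SYL.Defs
import Pool.Agent.SYL.LEVB
import Pool.Agent.SYL.LFT
import Pool.Agent.SYL.SEP

set_option autoImplicit false

/-!
FRA: E' = fixed field of g^2. Suppose there is a chain in ZMod p. Choose a prime Q of 𝓞 L above 𝔮 and a
Frobenius element σ in Gal(L/E) at Q: σ α - α^p in Q for all α in 𝓞 L (Mathlib: IsArithFrobAt.exists_of_isInvariant,
card (𝓞 E / 𝔮) = p). By LFT there is y in Lev (𝓞 L) q C M with y - k in Q; σ y = y^p = k^p = k = y mod Q (Fermat for the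
integer k), and σ y in Lev, so σ y = y if p is larger than the D of SEP. σ = g^m. If m is odd then g is a power of σ
(the order of g is a power of 2), so g y = y, contradiction. So m is even and σ fixes E'. Hence α^p = α mod Q' for α in
𝓞 E', Q' = Q ∩ 𝓞 E'; so 𝓞 E' / Q' is a domain in which every element is a root of X^p - X: every element is an
integer mod Q'. Let s = restriction of g to E' (nontrivial; fix once and for all α0 in 𝓞 E' with g α0 <> α0 and let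
D' = |norm of g α0 - α0| or any nonzero integer multiple of it in 𝓞 E'). g Q' = {g α} is also a prime of 𝓞 E' above 𝔮, so by
NonSplit it equals Q'. α0 - k0 in Q' for an integer k0, so g α0 - k0 in g Q' = Q', so g α0 - α0 in Q', so D' in Q', so p | D':
excluded by D >= D'. (g acts on 𝓞 E' because E' / E is normal: g commutes with g^2.)
-/

namespace Pool.Agent.SYL

open NumberField

/-- FRA: an element whose `p`-th power is congruent to it modulo a maximal ideal above `p` is an integer. -/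
theorem fra_int {R : Type} [CommRing R] (Q : Ideal R) [Q.IsMaximal] (p : ℕ) (hp : p.Prime)
    (hpQ : ((p : ℕ) : R) ∈ Q) (α : R) (h : α ^ p - α ∈ Q) : ∃ k : ℤ, α - (k : R) ∈ Q := by
  let _ : Field (R ⧸ Q) := Ideal.Quotient.field Q
  have : Fact p.Prime := ⟨hp⟩
  have hchar : CharP (R ⧸ Q) p := by
    obtain ⟨c, hc⟩ := CharP.exists (R ⧸ Q)
    have h0 : ((p : ℕ) : R ⧸ Q) = 0 := by
      rw [← map_natCast (Ideal.Quotient.mk Q)]
      exact Ideal.Quotient.eq_zero_iff_mem.mpr hpQ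
    have h1 : c ∣ p := (CharP.cast_eq_zero_iff (R ⧸ Q) c p).mp h0
    rcases (Nat.dvd_prime hp).mp h1 with h2 | h2
    · exact absurd h2 (CharP.char_ne_one (R ⧸ Q) c)
    · rw [← h2]; exact hc
  have h1 : (Ideal.Quotient.mk Q α) ^ p = Ideal.Quotient.mk Q α := by
    rw [← map_pow, Ideal.Quotient.eq]
    exact h
  have h2 := (Subfield.mem_bot_iff_pow_eq_self (R ⧸ Q) p).mpr h1
  obtain ⟨k, hk⟩ := (mem_bot_iff_intCast p (R ⧸ Q)).mp h2
  refine ⟨k, ?_⟩
  rw [← Ideal.Quotient.eq, ← hk, map_intCast]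

/-- `g` is not a power of its square when its order is even. -/
theorem fra_notmem {G : Type} [Group G] (g : G) (a : ℕ) (hg : orderOf g = 2 ^ (a + 1)) :
    g ∉ Subgroup.zpowers (g ^ 2) := by
  rintro ⟨k, hk⟩
  have h1 : g ^ (2 * k - 1 : ℤ) = 1 := by
    have h2 : (g ^ 2) ^ k = g ^ (2 * k : ℤ) := by
      rw [zpow_mul, zpow_ofNat]
    rw [zpow_sub, ← h2]
    simp only at hk
    rw [hk, zpow_one, mul_inv_cancel]
  have h3 := orderOf_dvd_iff_zpow_eq_one.mpr h1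
  rw [hg] at h3
  have h4 : (2:ℤ) ∣ 2 * k - 1 := by
    refine dvd_trans ?_ h3
    rw [pow_succ]
    push_cast
    exact Dvd.intro_left _ rfl
  omega

/-- An odd power of an element of 2-power order generates it. -/
theorem fra_odd {G : Type} [Group G] (g : G) (a : ℕ) (hg : orderOf g = 2 ^ (a + 1)) (m : ℤ)
    (hm : ¬ (2:ℤ) ∣ m) : g ∈ Subgroup.zpowers (g ^ m) := by
  have hco : IsCoprime m ((2:ℤ) ^ (a + 1)) := by
    apply IsCoprime.pow_right
    rw [Int.isCoprime_iff_gcd_eq_one]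
    have h1 : Int.gcd m 2 ∣ 2 := by
      have := Int.gcd_dvd_right m 2
      exact_mod_cast this
    rcases (Nat.dvd_prime Nat.prime_two).mp h1 with h2 | h2
    · exact h2
    · exfalso
      apply hm
      have := Int.gcd_dvd_left m 2
      rw [h2] at this
      exact_mod_cast this
  obtain ⟨u, v, huv⟩ := hco
  refine ⟨u, ?_⟩
  have h1 : g ^ ((2:ℤ) ^ (a + 1)) = 1 := by
    apply orderOf_dvd_iff_zpow_eq_one.mp
    rw [hg]
    push_cast
    exact dvd_refl _
  calc (g ^ m) ^ u = g ^ (m * u) := by rw [zpow_mul]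
    _ = g ^ (m * u) * (g ^ ((2:ℤ) ^ (a + 1))) ^ v := by rw [h1, one_zpow, mul_one]
    _ = g ^ (m * u + (2:ℤ) ^ (a + 1) * v) := by rw [← zpow_mul, ← zpow_add]
    _ = g ^ (1:ℤ) := by congr 1; rw [← huv]; ring
    _ = g := zpow_one g

/-- A degree one prime of `E` which is not split in the quadratic subfield lies above a killing
prime. `L / E` is cyclic of 2-power degree with generator `g` without fixed points on level `M`. -/
theorem nonsplit_kill (E L : Type) [Field E] [NumberField E] [Field L] [NumberField L]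
    [Algebra E L] [IsGalois E L] (g : L ≃ₐ[E] L) (a : ℕ) (hg : orderOf g = 2 ^ (a + 1))
    (hgen : ∀ σ : L ≃ₐ[E] L, σ ∈ Subgroup.zpowers g) (q : ℕ) (C : ℕ → ℕ) (M : ℕ)
    (hC : ∀ j, j < M → 0 < C (j + 1)) (hfull : Full L q C M)
    (hfix : ∀ x ∈ Lev L q C M, g x ≠ x) :
    ∃ D : ℕ, ∀ p : ℕ, p.Prime → D < p → ∀ 𝔮 : Ideal (𝓞 E), 𝔮.IsPrime → Ideal.absNorm 𝔮 = p →
      NonSplit E (IntermediateField.fixedField (Subgroup.zpowers (g ^ 2))) 𝔮 →
      p ∈ Kill q C M := by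
  classical
  obtain ⟨D1, hD1⟩ := exists_sep q C M hC
  have hα0 : ∃ α0 : 𝓞 (IntermediateField.fixedField (Subgroup.zpowers (g ^ 2))),
      g • (algebraMap (𝓞 (IntermediateField.fixedField (Subgroup.zpowers (g ^ 2)))) (𝓞 L) α0) ≠
        algebraMap (𝓞 (IntermediateField.fixedField (Subgroup.zpowers (g ^ 2)))) (𝓞 L) α0 := by
    by_contra hcon
    push Not at hcon
    apply fra_notmem g a hg
    rw [← IntermediateField.fixingSubgroup_fixedField (Subgroup.zpowers (g ^ 2)),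
      IntermediateField.mem_fixingSubgroup_iff]
    intro x hx
    obtain ⟨α, β, hβ, hxy⟩ := IsFractionRing.div_surjective
      (A := 𝓞 (IntermediateField.fixedField (Subgroup.zpowers (g ^ 2))))
      (⟨x, hx⟩ : IntermediateField.fixedField (Subgroup.zpowers (g ^ 2)))
    have h1 : x = (algebraMap (𝓞 (IntermediateField.fixedField (Subgroup.zpowers (g ^ 2)))) (𝓞 L) α : L) /
        (algebraMap (𝓞 (IntermediateField.fixedField (Subgroup.zpowers (g ^ 2)))) (𝓞 L) β : L) := by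
      have h2 := congrArg (algebraMap (IntermediateField.fixedField (Subgroup.zpowers (g ^ 2))) L) hxy
      rw [map_div₀] at h2
      exact h2.symm
    have h2 := congrArg (algebraMap (𝓞 L) L) (hcon α)
    have h3 := congrArg (algebraMap (𝓞 L) L) (hcon β)
    rw [h1, map_div₀]
    exact congrArg₂ (· / ·) h2 h3
  obtain ⟨α0, hα0⟩ := hα0
  set δ : 𝓞 L := g • (algebraMap (𝓞 (IntermediateField.fixedField (Subgroup.zpowers (g ^ 2)))) (𝓞 L) α0) -
      algebraMap (𝓞 (IntermediateField.fixedField (Subgroup.zpowers (g ^ 2)))) (𝓞 L) α0 with hδ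
  have hδ0 : δ ≠ 0 := sub_ne_zero.mpr hα0
  set d : ℕ := Ideal.absNorm (Ideal.span {δ}) with hd
  have hd0 : d ≠ 0 := by
    rw [hd, Ne, Ideal.absNorm_eq_zero_iff, Ideal.span_singleton_eq_bot]
    exact hδ0
  have hdδ : ((d : ℕ) : 𝓞 L) ∈ Ideal.span {δ} := Ideal.absNorm_mem _
  refine ⟨max D1 d, fun p hp hDp 𝔮 h𝔮 hN hns => ⟨hp, ?_⟩⟩
  rintro ⟨x, hx⟩
  have hD1p : D1 < p := lt_of_le_of_lt (le_max_left _ _) hDp
  have hdp : d < p := lt_of_le_of_lt (le_max_right _ _) hDp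
  have hp𝔮 : ((p : ℕ) : 𝓞 E) ∈ 𝔮 := by
    rw [← hN]; exact Ideal.absNorm_mem 𝔮
  have h𝔮0 : 𝔮 ≠ ⊥ := by
    intro h
    rw [h, Ideal.mem_bot] at hp𝔮
    exact hp.ne_zero (by exact_mod_cast hp𝔮)
  have h𝔮max : 𝔮.IsMaximal := h𝔮.isMaximal h𝔮0
  obtain ⟨Q, hQmax, hQover⟩ := Ideal.exists_maximal_ideal_liesOver_of_isIntegral (S := 𝓞 L) 𝔮
  have hQcomap : Q.comap (algebraMap (𝓞 E) (𝓞 L)) = 𝔮 := hQover.over.symm
  have hQp : Q.IsPrime := hQmax.isPrime
  have hpQ : ((p : ℕ) : 𝓞 L) ∈ Q := by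
    have : (algebraMap (𝓞 E) (𝓞 L)) ((p : ℕ) : 𝓞 E) ∈ Q := by
      rw [← Ideal.mem_comap, hQcomap]; exact hp𝔮
    rwa [map_natCast] at this
  have hQ0 : Q ≠ ⊥ := by
    intro h
    rw [h, Ideal.mem_bot] at hpQ
    exact hp.ne_zero (by exact_mod_cast hpQ)
  have hfin : Finite (𝓞 L ⧸ Q) := Ring.HasFiniteQuotients.finiteQuotient hQ0
  obtain ⟨σ, hσ⟩ := IsArithFrobAt.exists_of_isInvariant (𝓞 E) (L ≃ₐ[E] L) Q
  have hcard : Nat.card (𝓞 E ⧸ Q.under (𝓞 E)) = p := by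
    have h1 : Q.under (𝓞 E) = 𝔮 := hQcomap
    rw [h1, ← hN, Ideal.absNorm_apply, Submodule.cardQuot_apply]
  have hfrob : ∀ z : 𝓞 L, σ • z - z ^ p ∈ Q := by
    intro z
    have := hσ z
    rw [hcard] at this
    exact this
  obtain ⟨y, k, hy, hyk⟩ := exists_lift hfull p hp Q hQp hpQ x hx
  have hσy : σ • y - y ∈ Q := by
    have h1 := hfrob y
    have h2 : y ^ p - ((k:ℕ) : 𝓞 L) ^ p ∈ Q := Q.mem_of_dvd (sub_dvd_pow_sub_pow _ _ p) hyk
    have h3 : ((k:ℕ) : 𝓞 L) ^ p - ((k:ℕ) : 𝓞 L) ∈ Q := by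
      have h4 : (p:ℤ) ∣ (k:ℤ) ^ p - k := by
        have : Fact p.Prime := ⟨hp⟩
        rw [← ZMod.intCast_zmod_eq_zero_iff_dvd]
        push_cast
        rw [ZMod.pow_card, sub_self]
      obtain ⟨c, hc⟩ := h4
      have h5 : ((k:ℕ) : 𝓞 L) ^ p - ((k:ℕ) : 𝓞 L) = (p : 𝓞 L) * (c : 𝓞 L) := by
        have := congrArg (Int.cast : ℤ → 𝓞 L) hc
        push_cast at this
        exact this
      rw [h5]
      exact Q.mul_mem_right _ hpQ
    have h6 : σ • y - y = (σ • y - y ^ p) + (y ^ p - ((k:ℕ) : 𝓞 L) ^ p) +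
        (((k:ℕ) : 𝓞 L) ^ p - ((k:ℕ) : 𝓞 L)) - (y - ((k:ℕ) : 𝓞 L)) := by ring
    rw [h6]
    exact Q.sub_mem (Q.add_mem (Q.add_mem h1 h2) h3) hyk
  have hσy' : σ • y = y := by
    by_contra hne
    have h1 : σ • y ∈ Lev (𝓞 L) q C M :=
      lev_map (MulSemiringAction.toRingHom (L ≃ₐ[E] L) (𝓞 L) σ) hy
    exact hD1 p hp hD1p L Q hQp hpQ (σ • y) y h1 hy hne hσy
  obtain ⟨m, hm⟩ := hgen σ
  simp only at hm
  have heven : (2:ℤ) ∣ m := by
    by_contra hodd
    have h1 := fra_odd g a hg m hodd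
    rw [hm] at h1
    have h2 : g ∈ MulAction.stabilizer (L ≃ₐ[E] L) y :=
      (Subgroup.zpowers_le.mpr (show σ ∈ MulAction.stabilizer (L ≃ₐ[E] L) y from hσy')) h1
    have h3 : g • y = y := h2
    exact hfix (y : L) (lev_map (algebraMap (𝓞 L) L) hy) (congrArg (algebraMap (𝓞 L) L) h3)
  have hσH : σ ∈ Subgroup.zpowers (g ^ 2) := by
    obtain ⟨m', hm'⟩ := heven
    refine ⟨m', ?_⟩
    show (g ^ 2) ^ m' = σ
    rw [← hm, hm', zpow_mul, zpow_ofNat]
  have hfixE : ∀ α : 𝓞 (IntermediateField.fixedField (Subgroup.zpowers (g ^ 2))),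
      (algebraMap (𝓞 (IntermediateField.fixedField (Subgroup.zpowers (g ^ 2)))) (𝓞 L) α) ^ p -
        algebraMap (𝓞 (IntermediateField.fixedField (Subgroup.zpowers (g ^ 2)))) (𝓞 L) α ∈ Q := by
    intro α
    have h1 : σ • (algebraMap (𝓞 (IntermediateField.fixedField (Subgroup.zpowers (g ^ 2)))) (𝓞 L) α) =
        algebraMap (𝓞 (IntermediateField.fixedField (Subgroup.zpowers (g ^ 2)))) (𝓞 L) α := by
      apply RingOfIntegers.ext
      have h2 := (α : IntermediateField.fixedField (Subgroup.zpowers (g ^ 2))).2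
      rw [IntermediateField.mem_fixedField_iff] at h2
      exact h2 σ hσH
    have h3 := hfrob (algebraMap (𝓞 (IntermediateField.fixedField (Subgroup.zpowers (g ^ 2)))) (𝓞 L) α)
    rw [h1] at h3
    rw [← neg_sub]
    exact Q.neg_mem h3
  obtain ⟨k0, hk0⟩ := fra_int Q p hp hpQ _ (hfixE α0)
  -- the two primes of the quadratic subfield
  set f1 : 𝓞 (IntermediateField.fixedField (Subgroup.zpowers (g ^ 2))) →+* 𝓞 L :=
    algebraMap (𝓞 (IntermediateField.fixedField (Subgroup.zpowers (g ^ 2)))) (𝓞 L) with hf1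
  set gh : 𝓞 L →+* 𝓞 L := MulSemiringAction.toRingHom (L ≃ₐ[E] L) (𝓞 L) g with hgh
  have hcm1 : (Q.comap f1).comap (algebraMap (𝓞 E)
      (𝓞 (IntermediateField.fixedField (Subgroup.zpowers (g ^ 2))))) = 𝔮 := by
    rw [Ideal.comap_comap, hf1, ← IsScalarTower.algebraMap_eq, hQcomap]
  have hcm2 : ((Q.comap gh).comap f1).comap (algebraMap (𝓞 E)
      (𝓞 (IntermediateField.fixedField (Subgroup.zpowers (g ^ 2))))) = 𝔮 := by
    rw [Ideal.comap_comap, hf1, ← IsScalarTower.algebraMap_eq, ← hQcomap]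
    ext z
    rw [Ideal.mem_comap, Ideal.mem_comap, Ideal.mem_comap]
    have : gh (algebraMap (𝓞 E) (𝓞 L) z) = algebraMap (𝓞 E) (𝓞 L) z := by
      apply RingOfIntegers.ext
      exact g.commutes (z : E)
    rw [this]
  have hQg : (Q.comap gh).IsPrime := Ideal.IsPrime.comap gh
  have heq := hns (Q.comap f1) ((Q.comap gh).comap f1) (Ideal.IsPrime.comap f1)
    (Ideal.IsPrime.comap f1) hcm1 hcm2
  have hmem1 : α0 - (k0 : 𝓞 (IntermediateField.fixedField (Subgroup.zpowers (g ^ 2)))) ∈ Q.comap f1 := by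
    rw [Ideal.mem_comap, map_sub, map_intCast]
    exact hk0
  have hmem2 := hmem1
  rw [heq, Ideal.mem_comap, Ideal.mem_comap, map_sub, map_sub, map_intCast, map_intCast] at hmem2
  have hδQ : δ ∈ Q := by
    have h1 : δ = (gh (f1 α0) - (k0 : 𝓞 L)) - (f1 α0 - (k0 : 𝓞 L)) := by
      rw [hδ]
      show gh (f1 α0) - f1 α0 = _
      ring
    rw [h1]
    exact Q.sub_mem hmem2 hk0
  have hdQ : ((d : ℕ) : 𝓞 L) ∈ Q := (Ideal.span_singleton_le_iff_mem Q).mpr hδQ hdδ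
  have hcop : Nat.Coprime d p := ((Nat.Prime.coprime_iff_not_dvd hp).mpr (fun h => absurd (Nat.le_of_dvd (Nat.pos_of_ne_zero hd0) h) (not_le.mpr hdp))).symm
  have hone : (1 : 𝓞 L) ∈ Q := by
    have h1 : IsCoprime (d : ℤ) (p : ℤ) := Nat.isCoprime_iff_coprime.mpr hcop
    obtain ⟨u, v, huv⟩ := h1
    have h2 : (1 : 𝓞 L) = (u : 𝓞 L) * (d : 𝓞 L) + (v : 𝓞 L) * (p : 𝓞 L) := by
      have := congrArg (Int.cast : ℤ → 𝓞 L) huv
      push_cast at this
      exact this.symm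
    rw [h2]
    exact Q.add_mem (Q.mul_mem_left _ hdQ) (Q.mul_mem_left _ hpQ)
  exact hQp.ne_top ((Ideal.eq_top_iff_one Q).mpr hone)

end Pool.Agent.SYL
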