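import Pool.Agent.SYL.Defs

set_option autoImplicit false

/-!
ZTA: zs univ s = dedekindZeta F s for s > 1 (group the ideals by norm: LSeries of the number of ideals of norm n;
the ideal ⊥ has norm 0 and the n = 0 term is 0). Mathlib: NumberField.tendsto_sub_one_mul_dedekindZeta_nhdsGT,
dedekindZeta_residue_pos; summability of the LSeries for s > 1 from
Ideal.tendsto_norm_le_div_atTop₀ (number of ideals of norm <= n is O(n)) e.g. via LSeriesSummable lemmas used in the proof of
the class number formula, then Summable over the sigma type / fibres (finite fibres: Ideal.finite_setOf_absNorm_eq).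
-/

namespace Pool.Agent.SYL

open NumberField

open Filter Topology

/-- The number of ideals of norm `n`. -/
noncomputable def ztaCount (F : Type) [Field F] [NumberField F] (n : ℕ) : ℕ :=
  Nat.card {I : Ideal (𝓞 F) // Ideal.absNorm I = n}

/-- The real terms of the Dedekind zeta series. -/
noncomputable def ztaTerm (F : Type) [Field F] [NumberField F] (s : ℝ) (n : ℕ) : ℝ :=
  if n = 0 then 0 else (ztaCount F n : ℝ) * (n : ℝ) ^ (-s)

theorem zta_tendsto_div (F : Type) [Field F] [NumberField F] :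
    Tendsto (fun n : ℕ => (∑ k ∈ Finset.Icc 1 n, (ztaCount F k : ℝ)) / (n : ℝ)) atTop
      (𝓝 (dedekindZeta_residue F)) := by
  rw [dedekindZeta_residue_def]
  refine ((Ideal.tendsto_norm_le_div_atTop₀ F).comp tendsto_natCast_atTop_atTop).congr fun n ↦ ?_
  simp only [Function.comp_apply, Nat.cast_le, ← Nat.cast_sum, ztaCount]
  congr
  rw [← add_left_inj 1, ← Ideal.card_norm_le_eq_card_norm_le_add_one,
    show Finset.Icc 1 n = Finset.Ioc 0 n from Finset.Icc_succ_left_eq_Ioc _ _,
    show 1 = Nat.card {I : Ideal (𝓞 F) // Ideal.absNorm I = 0} by simp [Ideal.absNorm_eq_zero_iff],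
    Finset.sum_Ioc_add_eq_sum_Icc (n.zero_le),
    ← Finset.card_preimage_eq_sum_card_image_eq (fun k _ ↦ Ideal.finite_setOfPred_absNorm_eq k)]
  simp [Set.coe_eq_subtype]

theorem zta_LSeriesSummable (F : Type) [Field F] [NumberField F] {s : ℝ} (hs : 1 < s) :
    LSeriesSummable (fun n => ((ztaCount F n : ℝ) : ℂ)) (s : ℂ) := by
  refine LSeriesSummable_of_sum_norm_bigO_and_nonneg (f := fun n => (ztaCount F n : ℝ)) (r := 1)
    ?_ (fun n => Nat.cast_nonneg _) zero_le_one (by simpa using hs)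
  have h := zta_tendsto_div F
  have h2 : (fun n : ℕ => (n : ℝ) ^ (1:ℝ)) = fun n : ℕ => (n : ℝ) := by
    funext n
    exact Real.rpow_one _
  rw [h2]
  refine Asymptotics.isBigO_of_div_tendsto_nhds ?_ _ h
  refine Eventually.of_forall fun n hn => ?_
  have : n = 0 := by exact_mod_cast hn
  subst this
  simp

theorem zta_term_eq (F : Type) [Field F] [NumberField F] (s : ℝ) (n : ℕ) :
    LSeries.term (fun n => ((ztaCount F n : ℝ) : ℂ)) (s : ℂ) n = ((ztaTerm F s n : ℝ) : ℂ) := by
  unfold ztaTerm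
  rw [LSeries.term_def]
  split_ifs with h
  · simp
  · rw [Complex.ofReal_mul, Complex.ofReal_cpow (Nat.cast_nonneg n), div_eq_mul_inv]
    congr 1
    push_cast
    rw [Complex.cpow_neg]

theorem zta_summable_term (F : Type) [Field F] [NumberField F] {s : ℝ} (hs : 1 < s) :
    Summable (ztaTerm F s) := by
  have h := zta_LSeriesSummable F hs
  unfold LSeriesSummable at h
  have h2 : LSeries.term (fun n => ((ztaCount F n : ℝ) : ℂ)) (s : ℂ) =
      fun n => ((ztaTerm F s n : ℝ) : ℂ) := funext fun n => zta_term_eq F s n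
  rw [h2] at h
  exact Complex.summable_ofReal.1 h

theorem zta_fib_finite (F : Type) [Field F] [NumberField F] (n : ℕ) :
    Finite {I : Supp (Set.univ : Set (Ideal (𝓞 F))) // Ideal.absNorm I.1 = n} := by
  have h : Finite {I : Ideal (𝓞 F) // Ideal.absNorm I = n} :=
    (Ideal.finite_setOfPred_absNorm_eq n).to_subtype
  refine Finite.of_injective (β := {I : Ideal (𝓞 F) // Ideal.absNorm I = n})
    (fun I => ⟨I.1.1, I.2⟩) ?_
  rintro ⟨⟨I, hI⟩, hI2⟩ ⟨⟨J, hJ⟩, hJ2⟩ h
  simpa using h

theorem zta_fib (F : Type) [Field F] [NumberField F] (s : ℝ) (n : ℕ) :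
    ∑' I : {I : Supp (Set.univ : Set (Ideal (𝓞 F))) // Ideal.absNorm I.1 = n},
      ((Ideal.absNorm I.1.1 : ℕ) : ℝ) ^ (-s) = ztaTerm F s n := by
  have h1 : ∀ I : {I : Supp (Set.univ : Set (Ideal (𝓞 F))) // Ideal.absNorm I.1 = n},
      ((Ideal.absNorm I.1.1 : ℕ) : ℝ) ^ (-s) = (n : ℝ) ^ (-s) := fun I => by rw [I.2]
  rw [tsum_congr h1, tsum_const, nsmul_eq_mul]
  unfold ztaTerm
  split_ifs with h
  · have : IsEmpty {I : Supp (Set.univ : Set (Ideal (𝓞 F))) // Ideal.absNorm I.1 = n} := by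
      refine ⟨fun I => I.1.2.1 ?_⟩
      exact Ideal.absNorm_eq_zero_iff.1 (I.2.trans h)
    rw [Nat.card_of_isEmpty]
    simp
  · congr 2
    unfold ztaCount
    refine Nat.card_congr ⟨fun I => ⟨I.1.1, I.2⟩, fun I => ⟨⟨I.1, ?_, fun _ _ _ => trivial⟩, I.2⟩,
      fun I => rfl, fun I => rfl⟩
    intro hI
    apply h
    rw [← I.2, hI]
    exact Ideal.absNorm_bot

theorem zta_sigma_summable (F : Type) [Field F] [NumberField F] {s : ℝ} (hs : 1 < s) :
    Summable (fun p : (Σ n : ℕ, {I : Supp (Set.univ : Set (Ideal (𝓞 F))) // Ideal.absNorm I.1 = n}) =>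
      ((Ideal.absNorm p.2.1.1 : ℕ) : ℝ) ^ (-s)) := by
  rw [summable_sigma_of_nonneg fun p => Real.rpow_nonneg (Nat.cast_nonneg _) _]
  refine ⟨fun n => ?_, ?_⟩
  · have := zta_fib_finite F n
    exact Summable.of_finite
  · refine (zta_summable_term F hs).congr fun n => ?_
    exact (zta_fib F s n).symm

/-- Summability and the pole of the zeta sum over all nonzero ideals. -/
theorem zs_univ_summable (F : Type) [Field F] [NumberField F] {s : ℝ} (hs : 1 < s) :
    Summable (fun I : Supp (Set.univ : Set (Ideal (𝓞 F))) => ((Ideal.absNorm I.1 : ℕ) : ℝ) ^ (-s)) := by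
  rw [← (Equiv.sigmaFiberEquiv (fun I : Supp (Set.univ : Set (Ideal (𝓞 F))) =>
    Ideal.absNorm I.1)).summable_iff]
  exact zta_sigma_summable F hs

theorem zta_zs_eq (F : Type) [Field F] [NumberField F] {s : ℝ} (hs : 1 < s) :
    zs (Set.univ : Set (Ideal (𝓞 F))) s = ∑' n, ztaTerm F s n := by
  unfold zs
  rw [← (Equiv.sigmaFiberEquiv (fun I : Supp (Set.univ : Set (Ideal (𝓞 F))) =>
    Ideal.absNorm I.1)).tsum_eq]
  have h := (zta_sigma_summable F hs).tsum_sigma' (fun n => by
    have := zta_fib_finite F n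
    exact Summable.of_finite)
  refine Eq.trans h (tsum_congr fun n => ?_)
  exact zta_fib F s n

theorem zs_univ_tendsto (F : Type) [Field F] [NumberField F] :
    ∃ ρ : ℝ, 0 < ρ ∧ Filter.Tendsto (fun s : ℝ => (s - 1) * zs (Set.univ : Set (Ideal (𝓞 F))) s)
      (nhdsWithin 1 (Set.Ioi 1)) (nhds ρ) := by
  refine ⟨dedekindZeta_residue F, dedekindZeta_residue_pos F, ?_⟩
  have h := tendsto_sub_one_mul_dedekindZeta_nhdsGT F
  have h2 : Tendsto (fun s : ℝ => (((s - 1) * zs (Set.univ : Set (Ideal (𝓞 F))) s : ℝ) : ℂ))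
      (𝓝[>] 1) (𝓝 ((dedekindZeta_residue F : ℝ) : ℂ)) := by
    refine h.congr' ?_
    filter_upwards [self_mem_nhdsWithin] with s hs
    have hs' : 1 < s := hs
    rw [zta_zs_eq F hs']
    push_cast
    congr 1
    unfold dedekindZeta LSeries
    refine tsum_congr fun n => ?_
    rw [← zta_term_eq]
    simp [ztaCount]
  exact Complex.continuous_re.continuousAt.tendsto.comp h2

end Pool.Agent.SYL
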