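import Pool.Agent.SYL.Defs

set_option autoImplicit false

/-!
ZTB: enough: every finite set of ideals in Supp W has sum of N^(-s) <= sum of N^(-1) <= B := exp (2 sum_W 1/N).
A finite set of ideals of Supp W involves a finite set U of primes of W and exponents <= e, so its sum is at most the product over
𝔮 in U of (1 + 1/N + ... + 1/N^e) <= prod (1 - 1/N)^(-1) <= prod exp (2/N) (N >= 2). (Unique factorisation: the map from
exponent functions U -> {0..e} to ideals, 𝔮 -> prod 𝔮^k, covers the set; or induct on the finite set U; norms are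
multiplicative.)
-/

namespace Pool.Agent.SYL

open NumberField

open UniqueFactorizationMonoid in
theorem ztb_prime {F : Type} [Field F] [NumberField F] {W : Set (Ideal (𝓞 F))} {I : Ideal (𝓞 F)}
    (hI : I ∈ Supp W) {Q : Ideal (𝓞 F)} (hQ : Q ∈ normalizedFactors I) :
    Q.IsPrime ∧ Q ≠ ⊥ ∧ Q ∈ W := by
  have h1 : Prime Q := prime_of_normalized_factor Q hQ
  have h2 : Q.IsPrime := Ideal.isPrime_of_prime h1
  exact ⟨h2, h1.ne_zero, hI.2 Q h2 (Ideal.le_of_dvd (dvd_of_mem_normalizedFactors hQ))⟩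

open UniqueFactorizationMonoid in
theorem ztb_prod {F : Type} [Field F] [NumberField F] {I : Ideal (𝓞 F)} (hI : I ≠ ⊥)
    (U : Finset (Ideal (𝓞 F))) (hU : (normalizedFactors I).toFinset ⊆ U) :
    ∏ Q ∈ U, Q ^ (Multiset.count Q (normalizedFactors I)) = I := by
  rw [← Finset.prod_subset hU, ← Finset.prod_multiset_count, Ideal.prod_normalizedFactors_eq_self hI]
  intro Q _ hQ
  rw [Multiset.mem_toFinset] at hQ
  rw [Multiset.count_eq_zero_of_notMem hQ, pow_zero]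

theorem ztb_geom (x : ℝ) (h0 : 0 ≤ x) (h1 : x ≤ 1 / 2) (n : ℕ) :
    ∑ k ∈ Finset.range n, x ^ k ≤ Real.exp (2 * x) := by
  have h2 : ∑ k ∈ Finset.range n, x ^ k ≤ (1 - x)⁻¹ := by
    have hx : x < 1 := by linarith
    have h3 := (summable_geometric_of_lt_one h0 hx).sum_le_tsum (Finset.range n)
      (fun k _ => pow_nonneg h0 k)
    rwa [tsum_geometric_of_lt_one h0 hx] at h3
  have h3 : (1 - x)⁻¹ ≤ 2 * x + 1 := by
    rw [inv_le_iff_one_le_mul₀ (by linarith)]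
    nlinarith
  exact h2.trans (h3.trans (Real.add_one_le_exp _))

open UniqueFactorizationMonoid in
theorem ztb_finset {F : Type} [Field F] [NumberField F] (W : Set (Ideal (𝓞 F)))
    (hW : Summable (fun 𝔮 : {𝔮 : Ideal (𝓞 F) // 𝔮.IsPrime ∧ 𝔮 ≠ ⊥ ∧ 𝔮 ∈ W} =>
      (1 : ℝ) / (Ideal.absNorm 𝔮.1 : ℕ))) (T : Finset (Supp W)) :
    ∑ I ∈ T, ((Ideal.absNorm I.1 : ℕ) : ℝ)⁻¹ ≤
      Real.exp (2 * ∑' 𝔮 : {𝔮 : Ideal (𝓞 F) // 𝔮.IsPrime ∧ 𝔮 ≠ ⊥ ∧ 𝔮 ∈ W},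
        (1 : ℝ) / (Ideal.absNorm 𝔮.1 : ℕ)) := by
  classical
  set U : Finset (Ideal (𝓞 F)) := T.biUnion fun I => (normalizedFactors I.1).toFinset with hU
  have hUp : ∀ Q ∈ U, Q.IsPrime ∧ Q ≠ ⊥ ∧ Q ∈ W := by
    intro Q hQ
    obtain ⟨I, hI, hQI⟩ := Finset.mem_biUnion.1 hQ
    exact ztb_prime I.2 (Multiset.mem_toFinset.1 hQI)
  have hsub : ∀ I ∈ T, (normalizedFactors I.1).toFinset ⊆ U := fun I hI =>
    Finset.subset_biUnion_of_mem (fun I : Supp W => (normalizedFactors I.1).toFinset) hI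
  let Φ : Supp W → (U → ℕ) := fun I Q => Multiset.count Q.1 (normalizedFactors I.1)
  let e : ℕ := T.sup fun I => Multiset.card (normalizedFactors I.1)
  let g : (U → ℕ) → ℝ := fun x => ∏ Q : U, ((((Ideal.absNorm Q.1 : ℕ) : ℝ)⁻¹) ^ (x Q))
  have hgΦ : ∀ I ∈ T, ((Ideal.absNorm I.1 : ℕ) : ℝ)⁻¹ = g (Φ I) := by
    intro I hI
    have h1 := ztb_prod I.2.1 U (hsub I hI)
    have h2 : Ideal.absNorm I.1 =
        ∏ Q ∈ U, (Ideal.absNorm Q) ^ (Multiset.count Q (normalizedFactors I.1)) := by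
      conv_lhs => rw [← h1]
      rw [map_prod]
      exact Finset.prod_congr rfl fun Q _ => map_pow _ _ _
    simp only [g, Φ]
    rw [Finset.prod_coe_sort U (fun Q => (((Ideal.absNorm Q : ℕ) : ℝ)⁻¹) ^
      (Multiset.count Q (normalizedFactors I.1))), h2]
    push_cast
    rw [← Finset.prod_inv_distrib]
    exact Finset.prod_congr rfl fun Q _ => (inv_pow _ _).symm
  have hinj : Set.InjOn Φ T := by
    intro I hI J hJ hIJ
    apply Subtype.ext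
    rw [← ztb_prod I.2.1 U (hsub I hI), ← ztb_prod J.2.1 U (hsub J hJ)]
    refine Finset.prod_congr rfl fun Q hQ => ?_
    have := congrFun hIJ ⟨Q, hQ⟩
    simp only [Φ] at this
    rw [this]
  have himg : T.image Φ ⊆ Fintype.piFinset fun _ : U => Finset.range (e + 1) := by
    intro x hx
    obtain ⟨I, hI, rfl⟩ := Finset.mem_image.1 hx
    rw [Fintype.mem_piFinset]
    intro Q
    rw [Finset.mem_range, Nat.lt_succ_iff]
    exact (Multiset.count_le_card _ _).trans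
      (Finset.le_sup (f := fun I : Supp W => Multiset.card (normalizedFactors I.1)) hI)
  have hg0 : ∀ x, 0 ≤ g x := fun x => Finset.prod_nonneg fun Q _ => by positivity
  calc ∑ I ∈ T, ((Ideal.absNorm I.1 : ℕ) : ℝ)⁻¹ = ∑ I ∈ T, g (Φ I) := Finset.sum_congr rfl hgΦ
    _ = ∑ x ∈ T.image Φ, g x := (Finset.sum_image hinj).symm
    _ ≤ ∑ x ∈ Fintype.piFinset fun _ : U => Finset.range (e + 1), g x :=
        Finset.sum_le_sum_of_subset_of_nonneg himg fun x _ _ => hg0 x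
    _ = ∏ Q : U, ∑ k ∈ Finset.range (e + 1), (((Ideal.absNorm Q.1 : ℕ) : ℝ)⁻¹) ^ k :=
        (Finset.prod_univ_sum (fun _ : U => Finset.range (e + 1))
          (fun (Q : U) (k : ℕ) => (((Ideal.absNorm Q.1 : ℕ) : ℝ)⁻¹) ^ k)).symm
    _ ≤ ∏ Q : U, Real.exp (2 * ((Ideal.absNorm Q.1 : ℕ) : ℝ)⁻¹) := by
        refine Finset.prod_le_prod (fun Q _ => Finset.sum_nonneg fun k _ => by positivity)
          fun Q _ => ztb_geom _ (by positivity) ?_ _
        obtain ⟨h1, h2, -⟩ := hUp Q.1 Q.2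
        have h3 : Ideal.absNorm Q.1 ≠ 0 := fun h => h2 (Ideal.absNorm_eq_zero_iff.1 h)
        have h4 : Ideal.absNorm Q.1 ≠ 1 := fun h => h1.ne_top (Ideal.absNorm_eq_one_iff.1 h)
        have h5 : 2 ≤ Ideal.absNorm Q.1 := by omega
        rw [one_div]
        exact inv_anti₀ (by norm_num) (by exact_mod_cast h5)
    _ = Real.exp (2 * ∑ Q ∈ U, (1 : ℝ) / (Ideal.absNorm Q : ℕ)) := by
        rw [← Real.exp_sum, Finset.mul_sum]
        congr 1
        rw [Finset.sum_coe_sort U (fun Q => 2 * ((Ideal.absNorm Q : ℕ) : ℝ)⁻¹)]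
        exact Finset.sum_congr rfl fun Q _ => by rw [one_div]
    _ ≤ _ := by
        refine Real.exp_le_exp.2 (mul_le_mul_of_nonneg_left ?_ (by norm_num))
        rw [← Finset.sum_subtype_of_mem (p := fun 𝔮 : Ideal (𝓞 F) => 𝔮.IsPrime ∧ 𝔮 ≠ ⊥ ∧ 𝔮 ∈ W)
          (fun Q => (1 : ℝ) / (Ideal.absNorm Q : ℕ)) hUp]
        exact hW.sum_le_tsum _ fun Q _ => by positivity

/-- If the reciprocals of the norms of the primes in `W` are summable, the zeta sum over the ideals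
supported in `W` is bounded for `s ≥ 1`. -/
theorem zs_bounded (F : Type) [Field F] [NumberField F] (W : Set (Ideal (𝓞 F)))
    (hW : Summable (fun 𝔮 : {𝔮 : Ideal (𝓞 F) // 𝔮.IsPrime ∧ 𝔮 ≠ ⊥ ∧ 𝔮 ∈ W} =>
      (1 : ℝ) / (Ideal.absNorm 𝔮.1 : ℕ))) :
    ∃ B : ℝ, 0 < B ∧ ∀ s : ℝ, 1 ≤ s →
      Summable (fun I : Supp W => ((Ideal.absNorm I.1 : ℕ) : ℝ) ^ (-s)) ∧ zs W s ≤ B := by
  refine ⟨Real.exp (2 * ∑' 𝔮 : {𝔮 : Ideal (𝓞 F) // 𝔮.IsPrime ∧ 𝔮 ≠ ⊥ ∧ 𝔮 ∈ W},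
    (1 : ℝ) / (Ideal.absNorm 𝔮.1 : ℕ)), Real.exp_pos _, fun s hs => ?_⟩
  have h0 : ∀ I : Supp W, 0 ≤ ((Ideal.absNorm I.1 : ℕ) : ℝ) ^ (-s) := fun I =>
    Real.rpow_nonneg (Nat.cast_nonneg _) _
  have h1 : ∀ T : Finset (Supp W), ∑ I ∈ T, ((Ideal.absNorm I.1 : ℕ) : ℝ) ^ (-s) ≤
      Real.exp (2 * ∑' 𝔮 : {𝔮 : Ideal (𝓞 F) // 𝔮.IsPrime ∧ 𝔮 ≠ ⊥ ∧ 𝔮 ∈ W},
        (1 : ℝ) / (Ideal.absNorm 𝔮.1 : ℕ)) := fun T => by
    refine le_trans (Finset.sum_le_sum fun I _ => ?_) (ztb_finset W hW T)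
    have h3 : Ideal.absNorm I.1 ≠ 0 := fun h => I.2.1 (Ideal.absNorm_eq_zero_iff.1 h)
    have h4 : (1:ℝ) ≤ ((Ideal.absNorm I.1 : ℕ) : ℝ) := by
      exact_mod_cast Nat.one_le_iff_ne_zero.2 h3
    rw [← Real.rpow_neg_one]
    exact Real.rpow_le_rpow_of_exponent_le h4 (by linarith)
  exact ⟨summable_of_sum_le h0 h1, Real.tsum_le_of_sum_le h0 h1⟩

end Pool.Agent.SYL
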