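import Pool.Agent.SYL.Defs

set_option autoImplicit false

/-!
ZTC: every nonzero ideal I is A * B with A in Supp W and B in Supp Wᶜ (product over the normalized factors in W and
not in W), N I = N A N B. So I -> (A, B) is injective and the sum over I of N^(-s) is <= sum over pairs = product
(summability of the two factors from h1, Summable.subtype type arguments; tsum_mul_tsum_of_summable_norm or
Summable.tsum_mul_tsum).
-/

namespace Pool.Agent.SYL

open NumberField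

open UniqueFactorizationMonoid in
/-- A product of normalized factors of `I` lying in `W` is supported in `W`. -/
theorem ztc_supp {F : Type} [Field F] [NumberField F] (W : Set (Ideal (𝓞 F))) {I : Ideal (𝓞 F)}
    (M : Multiset (Ideal (𝓞 F))) (hM : ∀ Q ∈ M, Q ∈ normalizedFactors I ∧ Q ∈ W) :
    M.prod ∈ Supp W := by
  refine ⟨?_, fun Q hQ hle => ?_⟩
  · intro h
    have h0 : (0 : Ideal (𝓞 F)) ∈ M := Multiset.prod_eq_zero_iff.1 h
    exact (prime_of_normalized_factor _ (hM _ h0).1).ne_zero rfl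
  · obtain ⟨q, hq, hqQ⟩ := (Ideal.IsPrime.multiset_prod_le hQ).1 hle
    have hqp : Prime q := prime_of_normalized_factor q (hM q hq).1
    have hq1 : q.IsPrime := Ideal.isPrime_of_prime hqp
    have hq2 : q.IsMaximal := hq1.isMaximal hqp.ne_zero
    have : q = Q := hq2.eq_of_le hQ.ne_top hqQ
    rw [← this]
    exact (hM q hq).2

/-- Splitting an ideal into its `W` part and its part outside `W`. -/
theorem zs_le_mul (F : Type) [Field F] [NumberField F] (W : Set (Ideal (𝓞 F))) {s : ℝ} (hs : 1 < s)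
    (h1 : Summable (fun I : Supp (Set.univ : Set (Ideal (𝓞 F))) => ((Ideal.absNorm I.1 : ℕ) : ℝ) ^ (-s))) :
    zs (Set.univ : Set (Ideal (𝓞 F))) s ≤ zs W s * zs Wᶜ s := by
  classical
  have hsum : ∀ V : Set (Ideal (𝓞 F)),
      Summable (fun I : Supp V => ((Ideal.absNorm I.1 : ℕ) : ℝ) ^ (-s)) := fun V => by
    refine h1.comp_injective (i := fun I : Supp V =>
      (⟨I.1, I.2.1, fun _ _ _ => trivial⟩ : Supp (Set.univ : Set (Ideal (𝓞 F))))) ?_
    rintro ⟨I, hI⟩ ⟨J, hJ⟩ h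
    simpa using h
  have hnn : ∀ V : Set (Ideal (𝓞 F)), ∀ I : Supp V, 0 ≤ ((Ideal.absNorm I.1 : ℕ) : ℝ) ^ (-s) :=
    fun V I => Real.rpow_nonneg (Nat.cast_nonneg _) _
  let Φ : Supp (Set.univ : Set (Ideal (𝓞 F))) → Supp W × Supp Wᶜ := fun I =>
    (⟨((UniqueFactorizationMonoid.normalizedFactors I.1).filter (fun Q => Q ∈ W)).prod,
      ztc_supp W (I := I.1) _ fun Q hQ => ⟨(Multiset.mem_filter.1 hQ).1, (Multiset.mem_filter.1 hQ).2⟩⟩,
     ⟨((UniqueFactorizationMonoid.normalizedFactors I.1).filter (fun Q => ¬ Q ∈ W)).prod,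
      ztc_supp Wᶜ (I := I.1) _ fun Q hQ =>
        ⟨(Multiset.mem_filter.1 hQ).1, (Multiset.mem_filter.1 hQ).2⟩⟩)
  have hΦ : ∀ I : Supp (Set.univ : Set (Ideal (𝓞 F))), (Φ I).1.1 * (Φ I).2.1 = I.1 := fun I => by
    simp only [Φ]
    rw [← Multiset.prod_add, Multiset.filter_add_not, Ideal.prod_normalizedFactors_eq_self I.2.1]
  have hinj : Function.Injective Φ := fun I J h => by
    apply Subtype.ext
    rw [← hΦ I, ← hΦ J, h]
  let f : Supp W × Supp Wᶜ → ℝ := fun p =>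
    ((Ideal.absNorm p.1.1 : ℕ) : ℝ) ^ (-s) * ((Ideal.absNorm p.2.1 : ℕ) : ℝ) ^ (-s)
  have hf : Summable f := (hsum W).mul_of_nonneg (hsum Wᶜ) (hnn W) (hnn Wᶜ)
  have hfΦ : ∀ I : Supp (Set.univ : Set (Ideal (𝓞 F))),
      ((Ideal.absNorm I.1 : ℕ) : ℝ) ^ (-s) = (f ∘ Φ) I := fun I => by
    simp only [f, Function.comp]
    rw [← Real.mul_rpow (Nat.cast_nonneg _) (Nat.cast_nonneg _), ← Nat.cast_mul, ← map_mul, hΦ I]
  unfold zs
  calc ∑' I : Supp (Set.univ : Set (Ideal (𝓞 F))), ((Ideal.absNorm I.1 : ℕ) : ℝ) ^ (-s)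
      = tsum (f ∘ Φ) := tsum_congr hfΦ
    _ ≤ tsum f := tsum_comp_le_tsum_of_inj hf
        (fun p => mul_nonneg (hnn W p.1) (hnn Wᶜ p.2)) hinj
    _ = _ := (Summable.tsum_mul_tsum (hsum W) (hsum Wᶜ) hf).symm

end Pool.Agent.SYL
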