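import Pool.Agent.SYL.Defs

set_option autoImplicit false

/-!
ZTD: for a prime 𝔮 (nonzero) of F which is not NonSplit choose two different primes Q, Q' of E above it. From
sum e f = 2 (Ideal.sum_ramification_inertia) they are the only ones, e = f = 1 and N Q = N Q' = N 𝔮. The map
(A, B) -> prod Q_𝔮^(v_𝔮 A) * prod Q'_𝔮^(v_𝔮 B) from pairs of ideals supported on split primes to ideals of E is injective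
(unique factorisation; the primes Q_𝔮, Q'_𝔮 are pairwise different) and N(image) = N A N B. Hence
(sum)^2 = sum over pairs <= zs univ (injective reindexing, nonnegative terms, h1). Note ⊥: NonSplit F E ⊥ holds or not does
not matter since ideals in Supp are nonzero and only prime divisors (nonzero) count.
-/

namespace Pool.Agent.SYL

open NumberField

open UniqueFactorizationMonoid in
/-- a split prime has two primes of the same norm above it -/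
theorem ztd_choose (F E : Type) [Field F] [NumberField F] [Field E] [NumberField E] [Algebra F E]
    (hFE : Module.finrank F E = 2) (𝔮 : Ideal (𝓞 F)) (h𝔮 : 𝔮.IsPrime) (h0 : 𝔮 ≠ ⊥)
    (hns : ¬ NonSplit F E 𝔮) : ∃ Q1 Q2 : Ideal (𝓞 E), Q1.IsPrime ∧ Q2.IsPrime ∧ Q1 ≠ Q2 ∧
      Q1.comap (algebraMap (𝓞 F) (𝓞 E)) = 𝔮 ∧ Q2.comap (algebraMap (𝓞 F) (𝓞 E)) = 𝔮 ∧
      Ideal.absNorm Q1 = Ideal.absNorm 𝔮 ∧ Ideal.absNorm Q2 = Ideal.absNorm 𝔮 := by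
  classical
  unfold NonSplit at hns
  push Not at hns
  obtain ⟨Q1, Q2, hQ1, hQ2, hc1, hc2, hne⟩ := hns
  have hmax : 𝔮.IsMaximal := h𝔮.isMaximal h0
  have hl1 : Q1.LiesOver 𝔮 := ⟨hc1.symm⟩
  have hl2 : Q2.LiesOver 𝔮 := ⟨hc2.symm⟩
  have hm1 : Q1 ∈ IsDedekindDomain.primesOverFinset 𝔮 (𝓞 E) :=
    (IsDedekindDomain.mem_primesOverFinset_iff h0 _).mpr ⟨hQ1, hl1⟩
  have hm2 : Q2 ∈ IsDedekindDomain.primesOverFinset 𝔮 (𝓞 E) :=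
    (IsDedekindDomain.mem_primesOverFinset_iff h0 _).mpr ⟨hQ2, hl2⟩
  have hsum := Ideal.sum_ramification_inertia (𝓞 E) F E (p := 𝔮) h0
  rw [hFE] at hsum
  have hsub : ({Q1, Q2} : Finset (Ideal (𝓞 E))) ⊆ IsDedekindDomain.primesOverFinset 𝔮 (𝓞 E) := by
    intro Q hQ
    rcases Finset.mem_insert.mp hQ with h | h
    · rw [h]; exact hm1
    · rw [Finset.mem_singleton.mp h]; exact hm2
  have hle := Finset.sum_le_sum_of_subset (f := fun Q : Ideal (𝓞 E) =>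
    Ideal.ramificationIdx' 𝔮 Q * Ideal.inertiaDeg' 𝔮 Q) hsub
  rw [hsum, Finset.sum_pair hne] at hle
  have he1 : 0 < Ideal.ramificationIdx' 𝔮 Q1 := Nat.pos_iff_ne_zero.mpr <|
    Ideal.IsDedekindDomain.ramificationIdx'_ne_zero_of_liesOver _ h0
  have he2 : 0 < Ideal.ramificationIdx' 𝔮 Q2 := Nat.pos_iff_ne_zero.mpr <|
    Ideal.IsDedekindDomain.ramificationIdx'_ne_zero_of_liesOver _ h0
  have hf1 : 0 < Ideal.inertiaDeg' 𝔮 Q1 := Ideal.inertiaDeg'_pos 𝔮 Q1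
  have hf2 : 0 < Ideal.inertiaDeg' 𝔮 Q2 := Ideal.inertiaDeg'_pos 𝔮 Q2
  have hf1' : Ideal.inertiaDeg' 𝔮 Q1 = 1 := by nlinarith
  have hf2' : Ideal.inertiaDeg' 𝔮 Q2 = 1 := by nlinarith
  refine ⟨Q1, Q2, hQ1, hQ2, hne, hc1, hc2, ?_, ?_⟩
  · rw [Ideal.absNorm_eq_pow_inertiaDeg'_of_liesOver Q1 𝔮 h𝔮 h0, hf1', pow_one]
  · rw [Ideal.absNorm_eq_pow_inertiaDeg'_of_liesOver Q2 𝔮 h𝔮 h0, hf2', pow_one]

open UniqueFactorizationMonoid in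
/-- the product of the primes chosen above the prime factors -/
noncomputable def ztdMap {F E : Type} [Field F] [NumberField F] [Field E] [NumberField E]
    (q : Ideal (𝓞 F) → Ideal (𝓞 E)) (A : Ideal (𝓞 F)) : Ideal (𝓞 E) :=
  ((normalizedFactors A).map q).prod

open UniqueFactorizationMonoid in
theorem ztd_mem {F : Type} [Field F] [NumberField F] {W : Set (Ideal (𝓞 F))} {A : Ideal (𝓞 F)}
    (hA : A ∈ Supp W) {𝔮 : Ideal (𝓞 F)} (h : 𝔮 ∈ normalizedFactors A) :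
    𝔮.IsPrime ∧ 𝔮 ≠ ⊥ ∧ 𝔮 ∈ W := by
  have h1 := prime_of_normalized_factor 𝔮 h
  have h2 := Ideal.isPrime_of_prime h1
  exact ⟨h2, h1.ne_zero, hA.2 𝔮 h2 (Ideal.dvd_iff_le.mp (dvd_of_mem_normalizedFactors h))⟩

open UniqueFactorizationMonoid in
theorem ztd_norm {F E : Type} [Field F] [NumberField F] [Field E] [NumberField E]
    (q : Ideal (𝓞 F) → Ideal (𝓞 E)) {W : Set (Ideal (𝓞 F))}
    (hq : ∀ 𝔮 : Ideal (𝓞 F), 𝔮.IsPrime → 𝔮 ≠ ⊥ → 𝔮 ∈ W → Ideal.absNorm (q 𝔮) = Ideal.absNorm 𝔮)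
    {A : Ideal (𝓞 F)} (hA : A ∈ Supp W) : Ideal.absNorm (ztdMap q A) = Ideal.absNorm A := by
  unfold ztdMap
  rw [map_multiset_prod, Multiset.map_map]
  have h1 : (normalizedFactors A).map (⇑Ideal.absNorm ∘ q) = (normalizedFactors A).map (⇑Ideal.absNorm) := by
    apply Multiset.map_congr rfl
    intro 𝔮 h𝔮
    obtain ⟨h2, h3, h4⟩ := ztd_mem hA h𝔮
    exact hq 𝔮 h2 h3 h4
  rw [h1, ← map_multiset_prod]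
  congr 1
  have h5 := prod_normalizedFactors hA.1
  exact associated_iff_eq.mp h5

open UniqueFactorizationMonoid in
theorem ztd_factors {F E : Type} [Field F] [NumberField F] [Field E] [NumberField E]
    (q1 q2 : Ideal (𝓞 F) → Ideal (𝓞 E)) {W : Set (Ideal (𝓞 F))}
    (hq1 : ∀ 𝔮 : Ideal (𝓞 F), 𝔮.IsPrime → 𝔮 ≠ ⊥ → 𝔮 ∈ W → Prime (q1 𝔮))
    (hq2 : ∀ 𝔮 : Ideal (𝓞 F), 𝔮.IsPrime → 𝔮 ≠ ⊥ → 𝔮 ∈ W → Prime (q2 𝔮))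
    {A B : Ideal (𝓞 F)} (hA : A ∈ Supp W) (hB : B ∈ Supp W) :
    normalizedFactors (ztdMap q1 A * ztdMap q2 B) =
      (normalizedFactors A).map q1 + (normalizedFactors B).map q2 := by
  unfold ztdMap
  rw [← Multiset.prod_add]
  apply normalizedFactors_prod_of_prime
  intro Q hQ
  rcases Multiset.mem_add.mp hQ with h | h
  · obtain ⟨𝔮, h1, rfl⟩ := Multiset.mem_map.mp h
    obtain ⟨h2, h3, h4⟩ := ztd_mem hA h1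
    exact hq1 𝔮 h2 h3 h4
  · obtain ⟨𝔮, h1, rfl⟩ := Multiset.mem_map.mp h
    obtain ⟨h2, h3, h4⟩ := ztd_mem hB h1
    exact hq2 𝔮 h2 h3 h4

open UniqueFactorizationMonoid in
theorem ztd_ne {F E : Type} [Field F] [NumberField F] [Field E] [NumberField E]
    (q1 q2 : Ideal (𝓞 F) → Ideal (𝓞 E)) {W : Set (Ideal (𝓞 F))}
    (hq1 : ∀ 𝔮 : Ideal (𝓞 F), 𝔮.IsPrime → 𝔮 ≠ ⊥ → 𝔮 ∈ W → Prime (q1 𝔮))
    (hq2 : ∀ 𝔮 : Ideal (𝓞 F), 𝔮.IsPrime → 𝔮 ≠ ⊥ → 𝔮 ∈ W → Prime (q2 𝔮))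
    {A B : Ideal (𝓞 F)} (hA : A ∈ Supp W) (hB : B ∈ Supp W) : ztdMap q1 A * ztdMap q2 B ≠ ⊥ := by
  rw [← Ideal.zero_eq_bot]
  apply mul_ne_zero
  · unfold ztdMap
    apply Multiset.prod_ne_zero
    intro h
    obtain ⟨𝔮, h1, h5⟩ := Multiset.mem_map.mp h
    obtain ⟨h2, h3, h4⟩ := ztd_mem hA h1
    exact (hq1 𝔮 h2 h3 h4).ne_zero h5
  · unfold ztdMap
    apply Multiset.prod_ne_zero
    intro h
    obtain ⟨𝔮, h1, h5⟩ := Multiset.mem_map.mp h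
    obtain ⟨h2, h3, h4⟩ := ztd_mem hB h1
    exact (hq2 𝔮 h2 h3 h4).ne_zero h5

open UniqueFactorizationMonoid in
/-- counting the chosen primes recovers the multiplicities -/
theorem ztd_count {F E : Type} [Field F] [NumberField F] [Field E] [NumberField E]
    [DecidableEq (Ideal (𝓞 F))] [DecidableEq (Ideal (𝓞 E))]
    [Algebra F E] (q1 q2 : Ideal (𝓞 F) → Ideal (𝓞 E)) {W : Set (Ideal (𝓞 F))}
    (hc1 : ∀ 𝔮 : Ideal (𝓞 F), 𝔮.IsPrime → 𝔮 ≠ ⊥ → 𝔮 ∈ W → (q1 𝔮).comap (algebraMap (𝓞 F) (𝓞 E)) = 𝔮)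
    (hc2 : ∀ 𝔮 : Ideal (𝓞 F), 𝔮.IsPrime → 𝔮 ≠ ⊥ → 𝔮 ∈ W → (q2 𝔮).comap (algebraMap (𝓞 F) (𝓞 E)) = 𝔮)
    (hne : ∀ 𝔮 : Ideal (𝓞 F), 𝔮.IsPrime → 𝔮 ≠ ⊥ → 𝔮 ∈ W → q1 𝔮 ≠ q2 𝔮)
    {A B : Ideal (𝓞 F)} (hA : A ∈ Supp W) (hB : B ∈ Supp W) {𝔮 : Ideal (𝓞 F)} (h1 : 𝔮.IsPrime)
    (h2 : 𝔮 ≠ ⊥) (h3 : 𝔮 ∈ W) :
    ((normalizedFactors A).map q1 + (normalizedFactors B).map q2).count (q1 𝔮) =
      (normalizedFactors A).count 𝔮 := by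
  rw [Multiset.count_add]
  have h4 : ((normalizedFactors B).map q2).count (q1 𝔮) = 0 := by
    rw [Multiset.count_eq_zero]
    intro h
    obtain ⟨𝔮', h5, h6⟩ := Multiset.mem_map.mp h
    obtain ⟨h7, h8, h9⟩ := ztd_mem hB h5
    have h10 : 𝔮' = 𝔮 := by rw [← hc2 𝔮' h7 h8 h9, h6, hc1 𝔮 h1 h2 h3]
    rw [h10] at h6
    exact hne 𝔮 h1 h2 h3 h6.symm
  rw [h4, add_zero]
  by_cases hmem : 𝔮 ∈ normalizedFactors A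
  · apply Multiset.count_map_eq_count q1 _ _ _ hmem
    intro 𝔮1 hm1 𝔮2 hm2 h12
    obtain ⟨h5, h6, h7⟩ := ztd_mem hA hm1
    obtain ⟨h8, h9, h10⟩ := ztd_mem hA hm2
    rw [← hc1 𝔮1 h5 h6 h7, h12, hc1 𝔮2 h8 h9 h10]
  · rw [Multiset.count_eq_zero.mpr hmem, Multiset.count_eq_zero]
    intro h
    obtain ⟨𝔮', h5, h6⟩ := Multiset.mem_map.mp h
    obtain ⟨h7, h8, h9⟩ := ztd_mem hA h5
    have h10 : 𝔮' = 𝔮 := by rw [← hc1 𝔮' h7 h8 h9, h6, hc1 𝔮 h1 h2 h3]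
    rw [h10] at h5
    exact hmem h5

open UniqueFactorizationMonoid in
theorem ztd_inj {F E : Type} [Field F] [NumberField F] [Field E] [NumberField E] [Algebra F E]
    (q1 q2 : Ideal (𝓞 F) → Ideal (𝓞 E)) {W : Set (Ideal (𝓞 F))}
    (hq1 : ∀ 𝔮 : Ideal (𝓞 F), 𝔮.IsPrime → 𝔮 ≠ ⊥ → 𝔮 ∈ W → Prime (q1 𝔮))
    (hq2 : ∀ 𝔮 : Ideal (𝓞 F), 𝔮.IsPrime → 𝔮 ≠ ⊥ → 𝔮 ∈ W → Prime (q2 𝔮))
    (hc1 : ∀ 𝔮 : Ideal (𝓞 F), 𝔮.IsPrime → 𝔮 ≠ ⊥ → 𝔮 ∈ W → (q1 𝔮).comap (algebraMap (𝓞 F) (𝓞 E)) = 𝔮)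
    (hc2 : ∀ 𝔮 : Ideal (𝓞 F), 𝔮.IsPrime → 𝔮 ≠ ⊥ → 𝔮 ∈ W → (q2 𝔮).comap (algebraMap (𝓞 F) (𝓞 E)) = 𝔮)
    (hne : ∀ 𝔮 : Ideal (𝓞 F), 𝔮.IsPrime → 𝔮 ≠ ⊥ → 𝔮 ∈ W → q1 𝔮 ≠ q2 𝔮)
    {A B A' B' : Ideal (𝓞 F)} (hA : A ∈ Supp W) (hB : B ∈ Supp W) (hA' : A' ∈ Supp W)
    (hB' : B' ∈ Supp W) (h : ztdMap q1 A * ztdMap q2 B = ztdMap q1 A' * ztdMap q2 B') : A = A' := by
  classical
  have h1 := congrArg normalizedFactors h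
  rw [ztd_factors q1 q2 hq1 hq2 hA hB, ztd_factors q1 q2 hq1 hq2 hA' hB'] at h1
  have h2 : normalizedFactors A = normalizedFactors A' := by
    ext 𝔮
    by_cases hm : 𝔮 ∈ normalizedFactors A ∨ 𝔮 ∈ normalizedFactors A'
    · have h3 : 𝔮.IsPrime ∧ 𝔮 ≠ ⊥ ∧ 𝔮 ∈ W := by
        rcases hm with hm | hm
        · exact ztd_mem hA hm
        · exact ztd_mem hA' hm
      obtain ⟨h4, h5, h6⟩ := h3
      rw [← ztd_count q1 q2 hc1 hc2 hne hA hB h4 h5 h6, h1,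
        ztd_count q1 q2 hc1 hc2 hne hA' hB' h4 h5 h6]
    · push Not at hm
      rw [Multiset.count_eq_zero.mpr hm.1, Multiset.count_eq_zero.mpr hm.2]
  have h3 := associated_iff_eq.mp (prod_normalizedFactors hA.1)
  have h4 := associated_iff_eq.mp (prod_normalizedFactors hA'.1)
  rw [← h3, ← h4, h2]

/-- Split primes give two independent copies: `zs split ^ 2 ≤ zs_E`. Here `E / F` has degree 2. -/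
theorem zs_split_sq (F E : Type) [Field F] [NumberField F] [Field E] [NumberField E] [Algebra F E]
    (hFE : Module.finrank F E = 2) {s : ℝ} (hs : 1 < s)
    (h1 : Summable (fun I : Supp (Set.univ : Set (Ideal (𝓞 E))) => ((Ideal.absNorm I.1 : ℕ) : ℝ) ^ (-s))) :
    (zs {𝔮 : Ideal (𝓞 F) | ¬ NonSplit F E 𝔮} s) ^ 2 ≤ zs (Set.univ : Set (Ideal (𝓞 E))) s := by
  classical
  set W : Set (Ideal (𝓞 F)) := {𝔮 : Ideal (𝓞 F) | ¬ NonSplit F E 𝔮} with hW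
  have hex : ∀ 𝔮 : Ideal (𝓞 F), ∃ Q : Ideal (𝓞 E) × Ideal (𝓞 E), 𝔮.IsPrime → 𝔮 ≠ ⊥ → 𝔮 ∈ W →
      Q.1.IsPrime ∧ Q.2.IsPrime ∧ Q.1 ≠ Q.2 ∧
      Q.1.comap (algebraMap (𝓞 F) (𝓞 E)) = 𝔮 ∧ Q.2.comap (algebraMap (𝓞 F) (𝓞 E)) = 𝔮 ∧
      Ideal.absNorm Q.1 = Ideal.absNorm 𝔮 ∧ Ideal.absNorm Q.2 = Ideal.absNorm 𝔮 := by
    intro 𝔮
    by_cases h : 𝔮.IsPrime ∧ 𝔮 ≠ ⊥ ∧ 𝔮 ∈ W
    · obtain ⟨Q1, Q2, hQ⟩ := ztd_choose F E hFE 𝔮 h.1 h.2.1 h.2.2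
      exact ⟨(Q1, Q2), fun _ _ _ => hQ⟩
    · exact ⟨(⊥, ⊥), fun h1 h2 h3 => absurd ⟨h1, h2, h3⟩ h⟩
  choose q hq using hex
  set q1 : Ideal (𝓞 F) → Ideal (𝓞 E) := fun 𝔮 => (q 𝔮).1 with hq1
  set q2 : Ideal (𝓞 F) → Ideal (𝓞 E) := fun 𝔮 => (q 𝔮).2 with hq2
  have hc1 : ∀ 𝔮 : Ideal (𝓞 F), 𝔮.IsPrime → 𝔮 ≠ ⊥ → 𝔮 ∈ W →
      (q1 𝔮).comap (algebraMap (𝓞 F) (𝓞 E)) = 𝔮 := fun 𝔮 h1 h2 h3 => (hq 𝔮 h1 h2 h3).2.2.2.1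
  have hc2 : ∀ 𝔮 : Ideal (𝓞 F), 𝔮.IsPrime → 𝔮 ≠ ⊥ → 𝔮 ∈ W →
      (q2 𝔮).comap (algebraMap (𝓞 F) (𝓞 E)) = 𝔮 := fun 𝔮 h1 h2 h3 => (hq 𝔮 h1 h2 h3).2.2.2.2.1
  have hn1 : ∀ 𝔮 : Ideal (𝓞 F), 𝔮.IsPrime → 𝔮 ≠ ⊥ → 𝔮 ∈ W →
      Ideal.absNorm (q1 𝔮) = Ideal.absNorm 𝔮 := fun 𝔮 h1 h2 h3 => (hq 𝔮 h1 h2 h3).2.2.2.2.2.1
  have hn2 : ∀ 𝔮 : Ideal (𝓞 F), 𝔮.IsPrime → 𝔮 ≠ ⊥ → 𝔮 ∈ W →
      Ideal.absNorm (q2 𝔮) = Ideal.absNorm 𝔮 := fun 𝔮 h1 h2 h3 => (hq 𝔮 h1 h2 h3).2.2.2.2.2.2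
  have hne : ∀ 𝔮 : Ideal (𝓞 F), 𝔮.IsPrime → 𝔮 ≠ ⊥ → 𝔮 ∈ W → q1 𝔮 ≠ q2 𝔮 :=
    fun 𝔮 h1 h2 h3 => (hq 𝔮 h1 h2 h3).2.2.1
  have hbot : ∀ (Q : Ideal (𝓞 E)) (𝔮 : Ideal (𝓞 F)), 𝔮 ≠ ⊥ →
      Ideal.absNorm Q = Ideal.absNorm 𝔮 → Q ≠ ⊥ := by
    intro Q 𝔮 h1 h2 h3
    rw [h3, Ideal.absNorm_bot] at h2
    exact h1 (Ideal.absNorm_eq_zero_iff.mp h2.symm)
  have hp1 : ∀ 𝔮 : Ideal (𝓞 F), 𝔮.IsPrime → 𝔮 ≠ ⊥ → 𝔮 ∈ W → Prime (q1 𝔮) := fun 𝔮 h1 h2 h3 =>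
    Ideal.prime_of_isPrime (hbot _ _ h2 (hn1 𝔮 h1 h2 h3)) (hq 𝔮 h1 h2 h3).1
  have hp2 : ∀ 𝔮 : Ideal (𝓞 F), 𝔮.IsPrime → 𝔮 ≠ ⊥ → 𝔮 ∈ W → Prime (q2 𝔮) := fun 𝔮 h1 h2 h3 =>
    Ideal.prime_of_isPrime (hbot _ _ h2 (hn2 𝔮 h1 h2 h3)) (hq 𝔮 h1 h2 h3).2.1
  -- the injection
  let Φ : Supp W × Supp W → Supp (Set.univ : Set (Ideal (𝓞 E))) := fun p =>
    ⟨ztdMap q1 p.1.1 * ztdMap q2 p.2.1, ztd_ne q1 q2 hp1 hp2 p.1.2 p.2.2, fun _ _ _ => Set.mem_univ _⟩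
  have hΦinj : Function.Injective Φ := by
    rintro ⟨⟨A, hA⟩, ⟨B, hB⟩⟩ ⟨⟨A', hA'⟩, ⟨B', hB'⟩⟩ h
    have h1 : ztdMap q1 A * ztdMap q2 B = ztdMap q1 A' * ztdMap q2 B' := congrArg Subtype.val h
    have h2 := ztd_inj q1 q2 hp1 hp2 hc1 hc2 hne hA hB hA' hB' h1
    have h3 : ztdMap q2 B * ztdMap q1 A = ztdMap q2 B' * ztdMap q1 A' := by
      rw [mul_comm, h1, mul_comm]
    have h4 := ztd_inj q2 q1 hp2 hp1 hc2 hc1 (fun 𝔮 h5 h6 h7 => (hne 𝔮 h5 h6 h7).symm) hB hA hB' hA' h3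
    subst h2
    subst h4
    rfl
  have hΦn : ∀ p : Supp W × Supp W, Ideal.absNorm (Φ p).1 = Ideal.absNorm p.1.1 * Ideal.absNorm p.2.1 := by
    intro p
    show Ideal.absNorm (ztdMap q1 p.1.1 * ztdMap q2 p.2.1) = _
    rw [map_mul, ztd_norm q1 hn1 p.1.2, ztd_norm q2 hn2 p.2.2]
  have hsumP : Summable (fun p : Supp W × Supp W =>
      ((Ideal.absNorm p.1.1 : ℕ) : ℝ) ^ (-s) * ((Ideal.absNorm p.2.1 : ℕ) : ℝ) ^ (-s)) := by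
    have h2 := h1.comp_injective hΦinj
    refine h2.congr fun p => ?_
    show ((Ideal.absNorm (Φ p).1 : ℕ) : ℝ) ^ (-s) = _
    rw [hΦn p, Nat.cast_mul, Real.mul_rpow (Nat.cast_nonneg _) (Nat.cast_nonneg _)]
  have htop : (⊤ : Ideal (𝓞 F)) ∈ Supp W := by
    refine ⟨top_ne_bot, fun Q hQ hle => ?_⟩
    exact absurd (top_le_iff.mp hle) hQ.ne_top
  have hsum1 : Summable (fun I : Supp W => ((Ideal.absNorm I.1 : ℕ) : ℝ) ^ (-s)) := by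
    have h2 : Function.Injective (fun I : Supp W => ((I, ⟨⊤, htop⟩) : Supp W × Supp W)) := by
      intro I J h
      exact congrArg Prod.fst h
    refine (hsumP.comp_injective h2).congr fun I => ?_
    show ((Ideal.absNorm I.1 : ℕ) : ℝ) ^ (-s) * ((Ideal.absNorm (⊤ : Ideal (𝓞 F)) : ℕ) : ℝ) ^ (-s) = _
    rw [Ideal.absNorm_top, Nat.cast_one, Real.one_rpow, mul_one]
  have hprod : (zs W s) ^ 2 = ∑' p : Supp W × Supp W,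
      ((Ideal.absNorm p.1.1 : ℕ) : ℝ) ^ (-s) * ((Ideal.absNorm p.2.1 : ℕ) : ℝ) ^ (-s) := by
    rw [pow_two]
    exact hsum1.tsum_mul_tsum hsum1 hsumP
  rw [hprod]
  have hle : ∑' p : Supp W × Supp W, ((Ideal.absNorm (Φ p).1 : ℕ) : ℝ) ^ (-s) ≤
      ∑' I : Supp (Set.univ : Set (Ideal (𝓞 E))), ((Ideal.absNorm I.1 : ℕ) : ℝ) ^ (-s) :=
    (h1.comp_injective hΦinj).tsum_le_tsum_of_inj Φ hΦinj
      (fun _ _ => Real.rpow_nonneg (Nat.cast_nonneg _) _) (fun _ => le_refl _) h1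
  refine le_trans (le_of_eq ?_) hle
  refine tsum_congr fun p => ?_
  rw [hΦn p, Nat.cast_mul, Real.mul_rpow (Nat.cast_nonneg _) (Nat.cast_nonneg _)]

end Pool.Agent.SYL
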