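import Pool.Agent.SYL.Defs
import Pool.Agent.SYL.ZTA
import Pool.Agent.SYL.ZTB
import Pool.Agent.SYL.ZTC
import Pool.Agent.SYL.ZTD

set_option autoImplicit false

/-!
NSP: suppose summable. ZTB with W = nonsplit gives zs W s <= B. ZTC: zs_F <= B * zs Wᶜ, so zs_E >= (zs Wᶜ)^2 >=
(zs_F / B)^2 (ZTD). Multiply by (s-1)^2 and let s -> 1+: left side (s-1) * ((s-1) zs_E) -> 0, right side -> ρ_F^2 / B^2 > 0.
-/

namespace Pool.Agent.SYL

open NumberField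

theorem nsp_zs_nonneg {F : Type} [Field F] [NumberField F] (W : Set (Ideal (𝓞 F))) (s : ℝ) :
    0 ≤ zs W s :=
  tsum_nonneg fun _ => Real.rpow_nonneg (Nat.cast_nonneg _) _

/-- In a quadratic extension the primes which do not split have divergent reciprocal sum. -/
theorem nonsplit_not_summable (F E : Type) [Field F] [NumberField F] [Field E] [NumberField E]
    [Algebra F E] (hFE : Module.finrank F E = 2) :
    ¬ Summable (fun 𝔮 : {𝔮 : Ideal (𝓞 F) // 𝔮.IsPrime ∧ 𝔮 ≠ ⊥ ∧ 𝔮 ∈ {𝔮 | NonSplit F E 𝔮}} =>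
      (1 : ℝ) / (Ideal.absNorm 𝔮.1 : ℕ)) := by
  intro hsum
  obtain ⟨B, hB, hBs⟩ := zs_bounded F {𝔮 | NonSplit F E 𝔮} hsum
  obtain ⟨ρ, hρ, hρt⟩ := zs_univ_tendsto F
  obtain ⟨ρ', -, hρt'⟩ := zs_univ_tendsto E
  have hle : ∀ s : ℝ, 1 < s →
      ((s - 1) * zs (Set.univ : Set (Ideal (𝓞 F))) s) ^ 2 ≤
        B ^ 2 * ((s - 1) * ((s - 1) * zs (Set.univ : Set (Ideal (𝓞 E))) s)) := by
    intro s hs
    have h1 := zs_le_mul F {𝔮 | NonSplit F E 𝔮} hs (zs_univ_summable F hs)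
    have h2 := zs_split_sq F E hFE hs (zs_univ_summable E hs)
    have h3 := (hBs s hs.le).2
    have h4 : ({𝔮 : Ideal (𝓞 F) | NonSplit F E 𝔮})ᶜ = {𝔮 | ¬ NonSplit F E 𝔮} := rfl
    rw [h4] at h1
    have h5 := nsp_zs_nonneg {𝔮 : Ideal (𝓞 F) | ¬ NonSplit F E 𝔮} s
    have h6 := nsp_zs_nonneg (Set.univ : Set (Ideal (𝓞 F))) s
    have h7 : zs (Set.univ : Set (Ideal (𝓞 F))) s ≤
        B * zs {𝔮 : Ideal (𝓞 F) | ¬ NonSplit F E 𝔮} s :=
      h1.trans (mul_le_mul_of_nonneg_right h3 h5)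
    have h8 : zs (Set.univ : Set (Ideal (𝓞 F))) s ^ 2 ≤
        B ^ 2 * zs (Set.univ : Set (Ideal (𝓞 E))) s := by
      calc zs (Set.univ : Set (Ideal (𝓞 F))) s ^ 2
          ≤ (B * zs {𝔮 : Ideal (𝓞 F) | ¬ NonSplit F E 𝔮} s) ^ 2 := by gcongr
        _ = B ^ 2 * zs {𝔮 : Ideal (𝓞 F) | ¬ NonSplit F E 𝔮} s ^ 2 := by ring
        _ ≤ B ^ 2 * zs (Set.univ : Set (Ideal (𝓞 E))) s := by gcongr
    calc ((s - 1) * zs (Set.univ : Set (Ideal (𝓞 F))) s) ^ 2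
        = (s - 1) ^ 2 * zs (Set.univ : Set (Ideal (𝓞 F))) s ^ 2 := by ring
      _ ≤ (s - 1) ^ 2 * (B ^ 2 * zs (Set.univ : Set (Ideal (𝓞 E))) s) := by gcongr
      _ = B ^ 2 * ((s - 1) * ((s - 1) * zs (Set.univ : Set (Ideal (𝓞 E))) s)) := by ring
  have ht0 : Filter.Tendsto (fun s : ℝ => s - 1) (nhdsWithin 1 (Set.Ioi 1)) (nhds 0) := by
    have h1 : Filter.Tendsto (fun s : ℝ => s - 1) (nhds 1) (nhds (1 - 1)) :=
      (continuous_id.sub continuous_const).tendsto 1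
    rw [sub_self] at h1
    exact h1.mono_left nhdsWithin_le_nhds
  have hr : Filter.Tendsto
      (fun s : ℝ => B ^ 2 * ((s - 1) * ((s - 1) * zs (Set.univ : Set (Ideal (𝓞 E))) s)))
      (nhdsWithin 1 (Set.Ioi 1)) (nhds (B ^ 2 * (0 * ρ'))) :=
    (ht0.mul hρt').const_mul _
  rw [zero_mul, mul_zero] at hr
  have hfin : ρ ^ 2 ≤ 0 := by
    refine le_of_tendsto_of_tendsto (hρt.pow 2) hr ?_
    filter_upwards [self_mem_nhdsWithin] with s hs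
    exact hle s hs
  have : 0 < ρ ^ 2 := by positivity
  linarith

end Pool.Agent.SYL
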