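import Pool.Agent.SYL.Defs

set_option autoImplicit false

/-!
BLK: blocks on which `c` is strictly monotone with bounded average step; uniform density zero.
-/

namespace Pool.Agent.SYL

open NumberField

/-- A block `[u, u + N]` on which `c` is strictly monotone, with total variation at most `K N`. -/
def Blk (c : ℕ → ℕ) (K u N : ℕ) : Prop :=
  ((∀ j, j < N → c (u + j) < c (u + j + 1)) ∧ c (u + N) ≤ c u + K * N) ∨
  ((∀ j, j < N → c (u + j + 1) < c (u + j)) ∧ c u ≤ c (u + N) + K * N)

/-- On the block `[u, u + N]` the sequence `c` is `c u + b` or `c u - b`. -/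
def Rel (c b : ℕ → ℕ) (u N : ℕ) : Prop :=
  (∀ j, j ≤ N → c (u + j) = c u + b j) ∨ (∀ j, j ≤ N → c (u + j) + b j = c u)

/-- `S` has uniform density zero. -/
def UDens0 (S : Set ℕ) : Prop :=
  ∀ ε : ℝ, 0 < ε → ∃ X0 : ℕ, ∀ X x : ℕ, X0 ≤ X →
    (({m : ℕ | m ∈ S ∧ x ≤ m ∧ m < x + X}.ncard : ℕ) : ℝ) ≤ ε * X

theorem blk_fn_aux (f : ℕ → ℕ) (N : ℕ) (hf : ∀ j, j < N → f j < f (j + 1)) :
    StrictMono (fun j => if j ≤ N then f j - f 0 else f N - f 0 + (j - N)) := by
  have hmono : ∀ j, j ≤ N → f 0 ≤ f j := by
    intro j
    induction j with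
    | zero => intro _; exact le_rfl
    | succ j ih =>
      intro hj
      exact (ih (by omega)).trans (hf j (by omega)).le
  apply strictMono_nat_of_lt_succ
  intro j
  have h0 := hmono j
  rcases lt_trichotomy j N with h | h | h
  · have h1 := hf j h
    have h2 := h0 h.le
    show (if j ≤ N then f j - f 0 else f N - f 0 + (j - N)) <
      (if j + 1 ≤ N then f (j + 1) - f 0 else f N - f 0 + (j + 1 - N))
    rw [if_pos h.le, if_pos (by omega)]
    omega
  · subst h
    show (if j ≤ j then f j - f 0 else f j - f 0 + (j - j)) <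
      (if j + 1 ≤ j then f (j + 1) - f 0 else f j - f 0 + (j + 1 - j))
    rw [if_pos le_rfl, if_neg (by omega)]
    omega
  · show (if j ≤ N then f j - f 0 else f N - f 0 + (j - N)) <
      (if j + 1 ≤ N then f (j + 1) - f 0 else f N - f 0 + (j + 1 - N))
    rw [if_neg (by omega), if_neg (by omega)]
    omega

/-- The increasing function of a block. -/
theorem blk_fn {c : ℕ → ℕ} {K u N : ℕ} (h : Blk c K u N) :
    ∃ b : ℕ → ℕ, StrictMono b ∧ b 0 = 0 ∧ b N ≤ K * N ∧ Rel c b u N := by
  rcases h with ⟨h1, h2⟩ | ⟨h1, h2⟩
  · have hmono : ∀ j, j ≤ N → c u ≤ c (u + j) := by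
      intro j
      induction j with
      | zero => intro _; exact le_rfl
      | succ j ih =>
        intro hj
        have e : u + (j + 1) = u + j + 1 := by omega
        rw [e]
        exact (ih (by omega)).trans (h1 j (by omega)).le
    refine ⟨_, blk_fn_aux (fun j => c (u + j)) N h1, by simp, ?_, Or.inl ?_⟩
    · have := hmono N le_rfl
      simp only [le_refl, if_true, Nat.add_zero]
      omega
    · intro j hj
      have := hmono j hj
      simp only [Nat.add_zero]
      rw [if_pos hj]
      omega
  · have hmono : ∀ j, j ≤ N → c (u + j) ≤ c u := by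
      intro j
      induction j with
      | zero => intro _; exact le_rfl
      | succ j ih =>
        intro hj
        have e : u + (j + 1) = u + j + 1 := by omega
        rw [e]
        exact (h1 j (by omega)).le.trans (ih (by omega))
    have hf : ∀ j, j < N → c u - c (u + j) < c u - c (u + (j + 1)) := by
      intro j hj
      have a1 := h1 j hj
      have a2 := hmono j (by omega)
      have a3 := hmono (j + 1) (by omega)
      have e : u + (j + 1) = u + j + 1 := by omega
      rw [e] at a3 ⊢
      omega
    refine ⟨_, blk_fn_aux (fun j => c u - c (u + j)) N hf, by simp, ?_, Or.inr ?_⟩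
    · simp only [le_refl, if_true, Nat.add_zero]
      omega
    · intro j hj
      have := hmono j hj
      simp only [Nat.add_zero]
      rw [if_pos hj]
      omega

end Pool.Agent.SYL
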