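import Pool.Agent.SYL.Defs
import Pool.Agent.SYL.BLK

set_option autoImplicit false

/-!
CHB: as CHN, on a block. Increasing block: x j = -(Q (n - j)); decreasing block: x j = Q (n - j).
-/

namespace Pool.Agent.SYL

open NumberField

/-- A prime factor of `c (u + n)` is never a killing prime of the backward pattern in the block. -/
theorem chain_block {c Q a b : ℕ → ℕ} (h : Sys c Q a) (hb : StrictMono b) {u N n M p : ℕ}
    (hrel : Rel c b u N) (hn : n < N) (hM : M ≤ n) (hpn : p ∣ c (u + n))
    (C : ℕ → ℕ) (hC : ∀ j, j ≤ M → C j = b n - b (n - j)) :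
    p ∉ Kill (b (n + 1) - b n) C M := by
  rintro ⟨-, hno⟩
  apply hno
  have h0 : ((c (u + n) : ℕ) : ZMod p) = 0 := (ZMod.natCast_eq_zero_iff _ _).2 hpn
  rcases hrel with hrel | hrel
  · have hcast : ∀ m, m ≤ n → (((b n - b m : ℕ)) : ZMod p) = -(c (u + m) : ZMod p) := by
      intro m hm
      rw [Nat.cast_sub (hb.monotone hm)]
      have e1 := hrel n hn.le
      have e2 := hrel m (by omega)
      have f1 : ((c (u + n) : ℕ) : ZMod p) = ((c u + b n : ℕ) : ZMod p) := by rw [e1]
      have f2 : ((c (u + m) : ℕ) : ZMod p) = ((c u + b m : ℕ) : ZMod p) := by rw [e2]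
      push_cast at f1 f2
      rw [h0] at f1
      linear_combination (-1 : ZMod p) * f1 - (-1 : ZMod p) * f2
    refine ⟨fun j => -(Q (u + (n - j)) : ZMod p), ?_, ?_⟩
    · have h1 : ((a (u + n) * c (u + n) : ℕ) : ZMod p)
          = ((c (u + n + 1) + Q (u + n) : ℕ) : ZMod p) := by rw [h.reca]
      push_cast at h1
      rw [h0, mul_zero] at h1
      show -(Q (u + (n - 0)) : ZMod p) = ((b (n + 1) - b n : ℕ) : ZMod p)
      rw [Nat.cast_sub (hb.monotone (Nat.le_succ n)), Nat.sub_zero]
      have e1 := hrel n hn.le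
      have e2 := hrel (n + 1) hn
      have f1 : ((c (u + n) : ℕ) : ZMod p) = ((c u + b n : ℕ) : ZMod p) := by rw [e1]
      have f2 : ((c (u + n + 1) : ℕ) : ZMod p) = ((c u + b (n + 1) : ℕ) : ZMod p) := by
        rw [← e2]; rfl
      push_cast at f1 f2
      rw [h0] at f1
      linear_combination h1 + f2 - f1
    · intro j hj
      have hm : n - j = (n - (j + 1)) + 1 := by omega
      set m := n - (j + 1) with hmdef
      show -(Q (u + m) : ZMod p) * (-(Q (u + m) : ZMod p) + (C j : ZMod p)) =
        (C (j + 1) : ZMod p) * -(Q (u + (n - j)) : ZMod p)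
      have e3 : u + (m + 1) = u + m + 1 := by omega
      rw [hC j hj.le, hC (j + 1) hj, hcast _ (by omega), hcast _ (by omega), hm, e3, h.recQ,
        ← hmdef]
      have h1 : ((a (u + m) * c (u + m) : ℕ) : ZMod p)
          = ((c (u + m + 1) + Q (u + m) : ℕ) : ZMod p) := by rw [h.reca]
      push_cast at h1 ⊢
      linear_combination (-(Q (u + m) : ZMod p)) * h1
  · have hcast : ∀ m, m ≤ n → (((b n - b m : ℕ)) : ZMod p) = (c (u + m) : ZMod p) := by
      intro m hm
      rw [Nat.cast_sub (hb.monotone hm)]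
      have e1 := hrel n hn.le
      have e2 := hrel m (by omega)
      have f1 : ((c (u + n) + b n : ℕ) : ZMod p) = ((c u : ℕ) : ZMod p) := by rw [e1]
      have f2 : ((c (u + m) + b m : ℕ) : ZMod p) = ((c u : ℕ) : ZMod p) := by rw [e2]
      push_cast at f1 f2
      rw [h0] at f1
      linear_combination f1 - f2
    refine ⟨fun j => (Q (u + (n - j)) : ZMod p), ?_, ?_⟩
    · have h1 : ((a (u + n) * c (u + n) : ℕ) : ZMod p)
          = ((c (u + n + 1) + Q (u + n) : ℕ) : ZMod p) := by rw [h.reca]
      push_cast at h1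
      rw [h0, mul_zero] at h1
      show (Q (u + (n - 0)) : ZMod p) = ((b (n + 1) - b n : ℕ) : ZMod p)
      rw [Nat.cast_sub (hb.monotone (Nat.le_succ n)), Nat.sub_zero]
      have e1 := hrel n hn.le
      have e2 := hrel (n + 1) hn
      have f1 : ((c (u + n) + b n : ℕ) : ZMod p) = ((c u : ℕ) : ZMod p) := by rw [e1]
      have f2 : ((c (u + n + 1) + b (n + 1) : ℕ) : ZMod p) = ((c u : ℕ) : ZMod p) := by
        rw [← e2]; rfl
      push_cast at f1 f2
      rw [h0] at f1
      linear_combination (-1 : ZMod p) * h1 - f2 + f1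
    · intro j hj
      have hm : n - j = (n - (j + 1)) + 1 := by omega
      set m := n - (j + 1) with hmdef
      show (Q (u + m) : ZMod p) * ((Q (u + m) : ZMod p) + (C j : ZMod p)) =
        (C (j + 1) : ZMod p) * (Q (u + (n - j)) : ZMod p)
      have e3 : u + (m + 1) = u + m + 1 := by omega
      rw [hC j hj.le, hC (j + 1) hj, hcast _ (by omega), hcast _ (by omega), hm, e3, h.recQ,
        ← hmdef]
      have h1 : ((a (u + m) * c (u + m) : ℕ) : ZMod p)
          = ((c (u + m + 1) + Q (u + m) : ℕ) : ZMod p) := by rw [h.reca]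
      push_cast at h1 ⊢
      linear_combination (-(Q (u + m) : ZMod p)) * h1

end Pool.Agent.SYL
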