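import Pool.Agent.SYL.Defs
import Pool.Agent.SYL.BLK

set_option autoImplicit false

/-!
GCB: as GCD, for blocks: in a block of length 1 the step is at most K.
-/

namespace Pool.Agent.SYL

open NumberField

/-- Reduction to a coprime system, block version. -/
theorem exists_coprime_block {c Q a : ℕ → ℕ} (h : Sys c Q a) (K : ℕ)
    (hblk : ∀ W n0 : ℕ, ∃ u, n0 ≤ u ∧ Blk c K u W) :
    ∃ (c' Q' a' : ℕ → ℕ), Sys c' Q' a' ∧ (∀ n, Nat.Coprime (c' n) (Q' n)) ∧ 1 ≤ K ∧
      ∀ W n0 : ℕ, ∃ u, n0 ≤ u ∧ Blk c' K u W := by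
  have hK1 : 1 ≤ K := by
    obtain ⟨u, -, hu⟩ := hblk 1 0
    by_contra hcon
    have hK0 : K = 0 := by omega
    subst hK0
    rcases hu with ⟨h1, h2⟩ | ⟨h1, h2⟩
    · have := h1 0 (by omega)
      simp only [Nat.add_zero] at this
      omega
    · have := h1 0 (by omega)
      simp only [Nat.add_zero] at this
      omega
  have hGc : ∀ n, Nat.gcd (c n) (Q n) ∣ c (n + 1) := by
    intro n
    have h1 : Nat.gcd (c n) (Q n) ∣ c (n + 1) + Q n := by
      rw [← h.reca n]
      exact Dvd.dvd.mul_left (Nat.gcd_dvd_left _ _) _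
    exact (Nat.dvd_add_left (Nat.gcd_dvd_right _ _)).mp h1
  have hGQ : ∀ n, Nat.gcd (c n) (Q n) ∣ Q (n + 1) := by
    intro n
    rw [h.recQ n]
    exact Dvd.dvd.mul_left (Nat.gcd_dvd_right _ _) _
  have hGG : ∀ n, Nat.gcd (c n) (Q n) ∣ Nat.gcd (c (n + 1)) (Q (n + 1)) := fun n =>
    Nat.dvd_gcd (hGc n) (hGQ n)
  have hGpos : ∀ n, 0 < Nat.gcd (c n) (Q n) := fun n => Nat.gcd_pos_of_pos_left _ (h.cpos n)
  have hGmono : Monotone (fun n => Nat.gcd (c n) (Q n)) :=
    monotone_nat_of_le_succ fun n => Nat.le_of_dvd (hGpos _) (hGG n)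
  have hGle : ∀ n, Nat.gcd (c n) (Q n) ≤ K := by
    intro n
    obtain ⟨m, hm, hm2⟩ := hblk 1 n
    refine (hGmono hm).trans ?_
    show Nat.gcd (c m) (Q m) ≤ K
    rcases hm2 with ⟨g1, g2⟩ | ⟨g1, g2⟩
    · have h1 : Nat.gcd (c m) (Q m) ∣ c (m + 1) - c m :=
        Nat.dvd_sub (hGc m) (Nat.gcd_dvd_left _ _)
      have h2 := g1 0 (by omega)
      simp only [Nat.add_zero] at h2
      have h3 := Nat.le_of_dvd (by omega) h1
      omega
    · have h1 : Nat.gcd (c m) (Q m) ∣ c m - c (m + 1) :=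
        Nat.dvd_sub (Nat.gcd_dvd_left _ _) (hGc m)
      have h2 := g1 0 (by omega)
      simp only [Nat.add_zero] at h2
      have h3 := Nat.le_of_dvd (by omega) h1
      omega
  have hstab : ∃ n0, ∀ n, n0 ≤ n → Nat.gcd (c n) (Q n) = Nat.gcd (c n0) (Q n0) := by
    by_contra hcon
    push Not at hcon
    have h1 : ∀ k : ℕ, ∃ n, k ≤ Nat.gcd (c n) (Q n) := by
      intro k
      induction k with
      | zero => exact ⟨0, Nat.zero_le _⟩
      | succ k ih =>
        obtain ⟨n, hn⟩ := ih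
        obtain ⟨m, hm, hm2⟩ := hcon n
        have h3 : Nat.gcd (c n) (Q n) ≤ Nat.gcd (c m) (Q m) := hGmono hm
        exact ⟨m, by omega⟩
    obtain ⟨n, hn⟩ := h1 (K + 1)
    have := hGle n
    omega
  obtain ⟨n0, hn0⟩ := hstab
  set g := Nat.gcd (c n0) (Q n0) with hg
  have hgpos : 0 < g := hGpos n0
  have hc' : ∀ n, ∃ x, c (n + n0) = g * x := fun n => by
    have h1 := hn0 (n + n0) (by omega)
    have h2 := Nat.gcd_dvd_left (c (n + n0)) (Q (n + n0))
    rw [h1] at h2
    exact h2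
  have hQ' : ∀ n, ∃ x, Q (n + n0) = g * x := fun n => by
    have h1 := hn0 (n + n0) (by omega)
    have h2 := Nat.gcd_dvd_right (c (n + n0)) (Q (n + n0))
    rw [h1] at h2
    exact h2
  choose c' hc' using hc'
  choose Q' hQ' using hQ'
  refine ⟨c', Q', fun n => a (n + n0), ⟨?_, ?_, ?_, ?_, ?_⟩, ?_, hK1, ?_⟩
  · intro n
    have h1 := h.reca (n + n0)
    have e1 : n + n0 + 1 = n + 1 + n0 := by ring
    rw [e1, hc' n, hc' (n + 1), hQ' n] at h1
    apply Nat.eq_of_mul_eq_mul_left hgpos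
    show g * (a (n + n0) * c' n) = g * (c' (n + 1) + Q' n)
    linarith [h1]
  · intro n
    have h1 := h.recQ (n + n0)
    have e1 : n + n0 + 1 = n + 1 + n0 := by ring
    rw [e1, hQ' n, hQ' (n + 1)] at h1
    apply Nat.eq_of_mul_eq_mul_left hgpos
    show g * Q' (n + 1) = g * (a (n + n0) * Q' n)
    linarith [h1]
  · intro n
    have h1 := h.cpos (n + n0)
    rw [hc' n] at h1
    rcases Nat.eq_zero_or_pos (c' n) with h2 | h2
    · rw [h2] at h1; simp at h1
    · exact h2
  · intro n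
    have h1 := h.Qpos (n + n0)
    rw [hQ' n] at h1
    rcases Nat.eq_zero_or_pos (Q' n) with h2 | h2
    · rw [h2] at h1; simp at h1
    · exact h2
  · intro n
    exact h.apos (n + n0)
  · intro n
    have h1 := hn0 (n + n0) (by omega)
    rw [hc' n, hQ' n, Nat.gcd_mul_left] at h1
    have h2 : g * Nat.gcd (c' n) (Q' n) = g * 1 := by rw [h1, mul_one]
    exact Nat.eq_of_mul_eq_mul_left hgpos h2
  · intro W m0
    obtain ⟨u, hu, hB⟩ := hblk W (m0 + n0)
    obtain ⟨v, rfl⟩ : ∃ v, u = v + n0 := ⟨u - n0, by omega⟩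
    refine ⟨v, by omega, ?_⟩
    have e : ∀ j, v + n0 + j = v + j + n0 := fun j => by omega
    have e' : ∀ j, v + n0 + j + 1 = v + j + 1 + n0 := fun j => by omega
    rcases hB with ⟨g1, g2⟩ | ⟨g1, g2⟩
    · refine Or.inl ⟨fun j hj => ?_, ?_⟩
      · have := g1 j hj
        rw [e', e, hc', hc'] at this
        exact Nat.lt_of_mul_lt_mul_left this
      · rw [e, hc', hc'] at g2
        have h3 : g * c' (v + W) ≤ g * (c' v + K * W) := by
          calc g * c' (v + W) ≤ g * c' v + K * W := g2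
            _ ≤ g * c' v + g * (K * W) := by
              have := Nat.le_mul_of_pos_left (K * W) hgpos
              omega
            _ = g * (c' v + K * W) := by ring
        exact Nat.le_of_mul_le_mul_left h3 hgpos
    · refine Or.inr ⟨fun j hj => ?_, ?_⟩
      · have := g1 j hj
        rw [e', e, hc', hc'] at this
        exact Nat.lt_of_mul_lt_mul_left this
      · rw [e, hc', hc'] at g2
        have h3 : g * c' v ≤ g * (c' (v + W) + K * W) := by
          calc g * c' v ≤ g * c' (v + W) + K * W := g2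
            _ ≤ g * c' (v + W) + g * (K * W) := by
              have := Nat.le_mul_of_pos_left (K * W) hgpos
              omega
            _ = g * (c' (v + W) + K * W) := by ring
        exact Nat.le_of_mul_le_mul_left h3 hgpos

end Pool.Agent.SYL
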