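import Pool.Agent.SYL.Defs

set_option autoImplicit false

/-!
CCJ: short. φ and conj ∘ φ are two ring homs from L to ℂ, both ℚ-algebra homs, L / ℚ is normal:
the images coincide (AlgHom.fieldRange_of_normal, or NumberField.ComplexEmbedding results such as
exists_comp_symm_eq_of_comp_eq / IsConj). Define c as φ⁻¹ ∘ conj ∘ φ.
-/

namespace Pool.Agent.SYL

open NumberField

/-- Complex conjugation on a Galois number field embedded in `ℂ`. -/
theorem exists_conj (L : Type) [Field L] [NumberField L] [IsGalois ℚ L] (φ : L →+* ℂ) :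
    ∃ c : L ≃ₐ[ℚ] L, ∀ x : L, φ (c x) = (starRingEnd ℂ) (φ x) := by
  let _ : Algebra L ℂ := φ.toAlgebra
  have _ : IsScalarTower ℚ L ℂ := IsScalarTower.of_algebraMap_eq' (Subsingleton.elim _ _)
  let σ : ℂ ≃ₐ[ℚ] ℂ := AlgEquiv.restrictScalars ℚ Complex.conjAe
  exact ⟨σ.restrictNormal L, fun x => AlgEquiv.restrictNormal_commutes σ L x⟩

end Pool.Agent.SYL
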