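import Pool.Agent.SYL.Defs

set_option autoImplicit false

/-!
INE: suppose all inertia elements fix z. Let F = L^I be the fixed field of the inertia group I of
P, p = P ∩ 𝓞 F. F contains x, y, z (as integral elements). |I| = e(P / l) (Mathlib:
Ideal.card_inertia_eq_ramificationIdxIn, file NumberTheory/RamificationInertia/Galois, see also
HilbertTheory). The inertia group of P for L / F is all of Gal(L / F) = I, so e(P / p) = |I| as well and
by multiplicativity e(p / l) = 1, i.e. l is not in p^2. Now x in p, x + D not in p (D not in p since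
l does not divide D), y not in p; A = l m with l not dividing m. z (z + A) = B x in p so z in p (A in p),
hence z + A in p, so B x in p^2, B not in p so x in p^2, so A y = x (x + D) in p^2, so l (m y) in p^2 with
m y not in p, so l in p^2: contradiction. (c d in p^2, d not in p, p maximal => c in p^2: Ideal.IsPrime /
primary powers of a maximal ideal, or count multiplicities of p in Dedekind domain.)
The group Inert here is {σ | σ a - a in P for all a in 𝓞 L}: show it equals Ideal.inertia for the action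
of Gal(L/ℚ) on 𝓞 L.
-/

namespace Pool.Agent.SYL

open NumberField

open scoped Pointwise

/-- the inertia field of `P` -/
abbrev ineF (L : Type) [Field L] [NumberField L] (P : Ideal (𝓞 L)) : IntermediateField ℚ L :=
  FixedPoints.intermediateField (Ideal.inertia Gal(L/ℚ) P)

/-- natural numbers not divisible by `l` are outside a prime ideal containing `l` -/
theorem ine_notmem {R : Type} [CommRing R] (P : Ideal R) (hP : P ≠ ⊤) (l : ℕ) (hl : l.Prime)
    (hlP : ((l : ℕ) : R) ∈ P) (m : ℕ) (hm : ¬ l ∣ m) : ((m : ℕ) : R) ∉ P := by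
  intro h
  have hcop : Nat.Coprime l m := (Nat.Prime.coprime_iff_not_dvd hl).mpr hm
  have h1 : IsCoprime (l : ℤ) (m : ℤ) := Nat.isCoprime_iff_coprime.mpr hcop
  obtain ⟨u, v, huv⟩ := h1
  have h2 : (1 : R) = (u : R) * (l : R) + (v : R) * (m : R) := by
    have := congrArg (Int.cast : ℤ → R) huv
    push_cast at this
    exact this.symm
  apply hP
  rw [Ideal.eq_top_iff_one, h2]
  exact P.add_mem (P.mul_mem_left _ hlP) (P.mul_mem_left _ h)

theorem ine_group (L : Type) [Field L] [NumberField L] [IsGalois ℚ L] (P : Ideal (𝓞 L)) :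
    IsGaloisGroup (Ideal.inertia Gal(L/ℚ) P) (𝓞 (ineF L P)) (𝓞 L) :=
  IsGaloisGroup.of_isFractionRing _ _ _ (ineF L P) L

theorem ine_ram (L : Type) [Field L] [NumberField L] [IsGalois ℚ L] (P : Ideal (𝓞 L))
    (hP : P.IsMaximal) (l : ℕ) (hl : l.Prime) (hlP : ((l : ℕ) : 𝓞 L) ∈ P) :
    ((l : ℕ) : 𝓞 (ineF L P)) ∉ (P.under (𝓞 (ineF L P))) ^ 2 := by
  have hG := ine_group L P
  have hPp : P.IsPrime := hP.isPrime
  -- the prime of `ℤ` below
  have hp0 : P.under ℤ ≠ ⊥ := by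
    intro h
    have h1 : (l : ℤ) ∈ P.under ℤ := by
      rw [Ideal.under, Ideal.mem_comap]
      simpa using hlP
    rw [h, Ideal.mem_bot] at h1
    exact hl.ne_zero (by exact_mod_cast h1)
  have hp0max : (P.under ℤ).IsMaximal := Ideal.IsMaximal.under ℤ P
  have hfin0 : Finite (ℤ ⧸ P.under ℤ) := Ring.HasFiniteQuotients.finiteQuotient hp0
  have h1 := Ideal.card_inertia_eq_ramificationIdxIn (G := Gal(L/ℚ)) (P.under ℤ) P
  -- the prime of the inertia field
  have hp1 : P.under (𝓞 (ineF L P)) ≠ ⊥ := by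
    intro h
    have h1 : ((l : ℕ) : 𝓞 (ineF L P)) ∈ P.under (𝓞 (ineF L P)) := by
      rw [Ideal.under, Ideal.mem_comap, map_natCast]
      exact hlP
    rw [h, Ideal.mem_bot] at h1
    exact hl.ne_zero (by exact_mod_cast h1)
  have hp1max : (P.under (𝓞 (ineF L P))).IsMaximal := Ideal.IsMaximal.under _ P
  have hfin1 : Finite (𝓞 (ineF L P) ⧸ P.under (𝓞 (ineF L P))) :=
    Ring.HasFiniteQuotients.finiteQuotient hp1
  have h2 := Ideal.card_inertia_eq_ramificationIdxIn (G := Ideal.inertia Gal(L/ℚ) P)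
    (P.under (𝓞 (ineF L P))) P
  have h3 : Nat.card (P.inertia (Ideal.inertia Gal(L/ℚ) P)) = Nat.card (Ideal.inertia Gal(L/ℚ) P) := by
    have : P.inertia (Ideal.inertia Gal(L/ℚ) P) = ⊤ := by
      rw [eq_top_iff]
      intro σ _
      intro x
      exact σ.2 x
    rw [this]
    exact Subgroup.card_top
  rw [Ideal.ramificationIdxIn_eq_ramificationIdx _ P Gal(L/ℚ)] at h1
  rw [Ideal.ramificationIdxIn_eq_ramificationIdx _ P (Ideal.inertia Gal(L/ℚ) P), h3, h1] at h2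
  have h4 := Ideal.ramificationIdx_tower (R := ℤ) (P.under (𝓞 (ineF L P))) P
  rw [← h2] at h4
  have hpos : 0 < P.ramificationIdx ℤ := Ideal.ramificationIdx_pos P ℤ
  have h5 : (P.under (𝓞 (ineF L P))).ramificationIdx ℤ = 1 := by
    have : 1 * P.ramificationIdx ℤ = (P.under (𝓞 (ineF L P))).ramificationIdx ℤ * P.ramificationIdx ℤ := by
      rw [one_mul]; exact h4
    exact (Nat.eq_of_mul_eq_mul_right hpos this).symm
  have hover : (P.under (𝓞 (ineF L P))).LiesOver (P.under ℤ) := by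
    constructor
    rw [Ideal.under_under]
  have h6 := Ideal.ramificationIdx'_eq_ramificationIdx (P.under ℤ) (P.under (𝓞 (ineF L P))) hp0
  rw [h5] at h6
  have hle : (P.under ℤ).map (algebraMap ℤ (𝓞 (ineF L P))) ≤ P.under (𝓞 (ineF L P)) := by
    rw [Ideal.map_le_iff_le_comap]
    exact hover.over.le
  intro hmem
  have h7 : (P.under ℤ).map (algebraMap ℤ (𝓞 (ineF L P))) ≤ (P.under (𝓞 (ineF L P))) ^ 2 := by
    rw [Ideal.map_le_iff_le_comap]
    intro m hm
    rw [Ideal.mem_comap]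
    have hlm : (l : ℤ) ∣ m := by
      by_contra hnd
      have h8 : ¬ l ∣ m.natAbs := fun h => hnd (Int.natCast_dvd.mpr h)
      have h9 := ine_notmem P hPp.ne_top l hl hlP m.natAbs h8
      apply h9
      have h10 : ((m.natAbs : ℤ) : 𝓞 L) ∈ P := by
        rw [Ideal.under, Ideal.mem_comap] at hm
        have hm' : ((m : ℤ) : 𝓞 L) ∈ P := by simpa using hm
        rcases Int.natAbs_eq m with h | h
        · rw [← h]; exact hm'
        · have : ((m.natAbs : ℤ)) = -m := by omega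
          rw [this, Int.cast_neg]
          exact P.neg_mem hm'
      rw [Int.cast_natCast] at h10
      exact h10
    obtain ⟨c, hc⟩ := hlm
    rw [hc, map_mul]
    apply Ideal.mul_mem_right
    simpa using hmem
  exact (Ideal.ramificationIdx'_ne_one_iff hle).mpr h7 h6

theorem ine_lift (L : Type) [Field L] [NumberField L] [IsGalois ℚ L] (P : Ideal (𝓞 L)) (x : 𝓞 L)
    (hx : InFix P (x : L)) : ∃ x' : 𝓞 (ineF L P), algebraMap (𝓞 (ineF L P)) (𝓞 L) x' = x := by
  have hG := ine_group L P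
  apply Algebra.IsInvariant.isInvariant (G := Ideal.inertia Gal(L/ℚ) P)
  intro σ
  apply RingOfIntegers.ext
  apply hx σ.1
  intro a
  refine ⟨σ.1 • a - a, σ.2 a, ?_⟩
  have : ((σ.1 • a - a : 𝓞 L) : L) = σ.1 (a : L) - (a : L) := rfl
  rw [this]
  ring

/-- Ramification: if the inertia group fixes `x`, `y` and
`x (x + D) = A y`, `z (z + A) = B x` with `l` dividing `A` exactly once, `D`, `B`, `y` prime to `P`
and `x ∈ P`, then some inertia element moves `z`. -/
theorem exists_inertia_moving (L : Type) [Field L] [NumberField L] [IsGalois ℚ L]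
    (P : Ideal (𝓞 L)) (hP : P.IsMaximal) (l : ℕ) (hl : l.Prime) (hlP : ((l : ℕ) : 𝓞 L) ∈ P)
    (A B D : ℕ) (hA : l ∣ A) (hA2 : ¬ l ^ 2 ∣ A) (hB : ¬ l ∣ B) (hD : ¬ l ∣ D)
    (x y z : 𝓞 L) (hyP : y ∉ P) (hxP : x ∈ P)
    (hx : x * (x + (D : 𝓞 L)) = (A : 𝓞 L) * y) (hz : z * (z + (A : 𝓞 L)) = (B : 𝓞 L) * x)
    (hfx : InFix P (x : L)) (hfy : InFix P (y : L)) :
    ∃ σ : L ≃ₐ[ℚ] L, Inert P σ ∧ σ (z : L) ≠ (z : L) := by
  by_contra hcon
  push Not at hcon
  obtain ⟨x', hx'⟩ := ine_lift L P x hfx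
  obtain ⟨y', hy'⟩ := ine_lift L P y hfy
  obtain ⟨z', hz'⟩ := ine_lift L P z hcon
  have hram := ine_ram L P hP l hl hlP
  have hPp : P.IsPrime := hP.isPrime
  have hinj : Function.Injective (algebraMap (𝓞 (ineF L P)) (𝓞 L)) :=
    FaithfulSMul.algebraMap_injective _ _
  have hx2 : x' * (x' + (D : 𝓞 (ineF L P))) = (A : 𝓞 (ineF L P)) * y' := by
    apply hinj
    rw [map_mul, map_add, map_mul, map_natCast, map_natCast, hx', hy']
    exact hx
  have hz2 : z' * (z' + (A : 𝓞 (ineF L P))) = (B : 𝓞 (ineF L P)) * x' := by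
    apply hinj
    rw [map_mul, map_add, map_mul, map_natCast, map_natCast, hx', hz']
    exact hz
  set 𝔭 := P.under (𝓞 (ineF L P)) with h𝔭
  have hmem : ∀ w : 𝓞 (ineF L P), w ∈ 𝔭 ↔ algebraMap (𝓞 (ineF L P)) (𝓞 L) w ∈ P := fun w => Iff.rfl
  have h𝔭p : 𝔭.IsPrime := Ideal.IsPrime.under _ P
  have hl𝔭 : ((l : ℕ) : 𝓞 (ineF L P)) ∈ 𝔭 := by
    rw [hmem, map_natCast]; exact hlP
  have hx𝔭 : x' ∈ 𝔭 := by rw [hmem, hx']; exact hxP
  have hy𝔭 : y' ∉ 𝔭 := by rw [hmem, hy']; exact hyP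
  have hA𝔭 : (A : 𝓞 (ineF L P)) ∈ 𝔭 := by
    obtain ⟨m, hm⟩ := hA
    rw [hm, Nat.cast_mul]
    exact 𝔭.mul_mem_right _ hl𝔭
  have hB𝔭 : (B : 𝓞 (ineF L P)) ∉ 𝔭 := ine_notmem 𝔭 h𝔭p.ne_top l hl hl𝔭 B hB
  have hz𝔭 : z' ∈ 𝔭 := by
    have h1 : z' * (z' + (A : 𝓞 (ineF L P))) ∈ 𝔭 := by
      rw [hz2]; exact 𝔭.mul_mem_left _ hx𝔭
    rcases h𝔭p.mem_or_mem h1 with h | h
    · exact h
    · have := 𝔭.sub_mem h hA𝔭
      rwa [add_sub_cancel_right] at this
  have hx2𝔭 : x' ∈ 𝔭 ^ 2 := by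
    have h1 : (B : 𝓞 (ineF L P)) * x' ∈ 𝔭 ^ 2 := by
      rw [← hz2, pow_two]
      exact Ideal.mul_mem_mul hz𝔭 (𝔭.add_mem hz𝔭 hA𝔭)
    exact (Ideal.IsPrime.mul_mem_pow 𝔭 h1).resolve_left hB𝔭
  obtain ⟨m, hm⟩ := hA
  have hlm : ¬ l ∣ m := by
    rintro ⟨c, hc⟩
    exact hA2 ⟨c, by rw [hm, hc]; ring⟩
  have hm𝔭 : (m : 𝓞 (ineF L P)) ∉ 𝔭 := ine_notmem 𝔭 h𝔭p.ne_top l hl hl𝔭 m hlm
  have h3 : ((m : 𝓞 (ineF L P)) * y') * (l : 𝓞 (ineF L P)) ∈ 𝔭 ^ 2 := by
    have h4 : ((m : 𝓞 (ineF L P)) * y') * (l : 𝓞 (ineF L P)) = x' * (x' + (D : 𝓞 (ineF L P))) := by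
      rw [hx2, hm, Nat.cast_mul]; ring
    rw [h4]
    exact (𝔭 ^ 2).mul_mem_right _ hx2𝔭
  rcases Ideal.IsPrime.mul_mem_pow 𝔭 h3 with h4 | h4
  · rcases h𝔭p.mem_or_mem h4 with h5 | h5
    · exact hm𝔭 h5
    · exact hy𝔭 h5
  · exact hram h4

end Pool.Agent.SYL
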