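import Pool.Agent.SYL.Defs

set_option autoImplicit false

/-!
POSR: the positive real chain. `pos_irr_mono`: if `pos r` is rational so is
`pos (r-1) = pos r (pos r + C (r-1)) / C r`. `pos_int`: rational by the same argument, and integral
over the integers because it is obtained by solving monic quadratics, so an integer
(use IsIntegral and IsIntegrallyClosed ℤ, or directly: a rational root of X^2 + a X - b with
a, b integers is an integer, by induction).
-/

namespace Pool.Agent.SYL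

open NumberField

theorem pos_zero (q : ℕ) (C : ℕ → ℕ) : pos q C 0 = (q : ℝ) := rfl

theorem pos_pos {q : ℕ} {C : ℕ → ℕ} (hq : 0 < q) {M : ℕ} (hC : ∀ j, j < M → 0 < C (j + 1)) :
    ∀ j, j ≤ M → 0 < pos q C j := by
  intro j
  induction j with
  | zero => intro _; rw [pos_zero]; exact_mod_cast hq
  | succ j ih =>
    intro hj
    have h1 := ih (by omega)
    have h2 : (0:ℝ) < (C (j + 1) : ℝ) := by exact_mod_cast hC j (by omega)
    have h3 : (0:ℝ) ≤ (C j : ℝ) := Nat.cast_nonneg _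
    show 0 < (-(C j : ℝ) + Real.sqrt ((C j : ℝ) ^ 2 + 4 * (C (j + 1) : ℝ) * pos q C j)) / 2
    have h4 : (C j : ℝ) < Real.sqrt ((C j : ℝ) ^ 2 + 4 * (C (j + 1) : ℝ) * pos q C j) := by
      rw [Real.lt_sqrt h3]
      have : 0 < 4 * (C (j + 1) : ℝ) * pos q C j := by positivity
      linarith
    linarith

theorem pos_rec {q : ℕ} {C : ℕ → ℕ} (hq : 0 < q) {M : ℕ} (hC : ∀ j, j < M → 0 < C (j + 1)) :
    ∀ j, j < M → pos q C (j + 1) * (pos q C (j + 1) + (C j : ℝ)) =
      (C (j + 1) : ℝ) * pos q C j := by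
  intro j hj
  have h1 := pos_pos hq hC j hj.le
  have h2 : (0:ℝ) < (C (j + 1) : ℝ) := by exact_mod_cast hC j hj
  have h4 : 0 ≤ (C j : ℝ) ^ 2 + 4 * (C (j + 1) : ℝ) * pos q C j := by positivity
  have h5 := Real.sq_sqrt h4
  have h6 : pos q C (j + 1) =
    (-(C j : ℝ) + Real.sqrt ((C j : ℝ) ^ 2 + 4 * (C (j + 1) : ℝ) * pos q C j)) / 2 := rfl
  rw [h6]
  nlinarith

/-- The children of `pos j` in `ℂ`. -/
theorem pos_child {q : ℕ} {C : ℕ → ℕ} (hq : 0 < q) {j : ℕ} (hC : ∀ k, k ≤ j → 0 < C (k + 1))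
    {y : ℂ} (hy : y * (y + (C j : ℂ)) = (C (j + 1) : ℂ) * ((pos q C j : ℝ) : ℂ)) :
    y = ((pos q C (j + 1) : ℝ) : ℂ) ∨ y = -(C j : ℂ) - ((pos q C (j + 1) : ℝ) : ℂ) := by
  have h1 := pos_rec hq (M := j + 1) (fun k hk => hC k (by omega)) j (Nat.lt_succ_self j)
  have h2 : ((pos q C (j + 1) : ℝ) : ℂ) * (((pos q C (j + 1) : ℝ) : ℂ) + (C j : ℂ)) =
      (C (j + 1) : ℂ) * ((pos q C j : ℝ) : ℂ) := by exact_mod_cast h1
  have h3 : (y - ((pos q C (j + 1) : ℝ) : ℂ)) * (y + (C j : ℂ) + ((pos q C (j + 1) : ℝ) : ℂ)) = 0 := by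
    linear_combination hy - h2
  rcases mul_eq_zero.mp h3 with h | h
  · left; linear_combination h
  · right; linear_combination h

lemma pos_irr_step {q : ℕ} {C : ℕ → ℕ} (hq : 0 < q) {M j : ℕ}
    (hC : ∀ j, j < M → 0 < C (j + 1)) (hj : j < M) (hI : Irrational (pos q C j)) :
    Irrational (pos q C (j + 1)) := by
  intro hr
  apply hI
  obtain ⟨x, hx⟩ := hr
  have h1 := pos_rec hq hC j hj
  have h2 : (C (j + 1) : ℝ) ≠ 0 := by
    have := hC j hj
    positivity
  refine ⟨x * (x + (C j : ℚ)) / (C (j + 1) : ℚ), ?_⟩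
  push_cast
  rw [hx, div_eq_iff h2, h1]
  ring

theorem pos_irr_mono {q : ℕ} {C : ℕ → ℕ} (hq : 0 < q) {M I r : ℕ}
    (hC : ∀ j, j < M → 0 < C (j + 1)) (hI : Irrational (pos q C I)) (hIr : I ≤ r) (hr : r ≤ M) :
    Irrational (pos q C r) := by
  induction r, hIr using Nat.le_induction with
  | base => exact hI
  | succ r hIr ih => exact pos_irr_step hq hC (by omega) (ih (by omega))

lemma rat_root_int (x : ℚ) (a b : ℤ) (h : x * (x + (a : ℚ)) = (b : ℚ)) : ∃ y : ℤ, (y : ℚ) = x := by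
  have hint : IsIntegral ℤ x := by
    refine ⟨Polynomial.X ^ 2 + Polynomial.C a * Polynomial.X - Polynomial.C b, ?_, ?_⟩
    · monicity!
    · simp only [Polynomial.eval₂_sub, Polynomial.eval₂_add, Polynomial.eval₂_mul,
        Polynomial.eval₂_pow, Polynomial.eval₂_X, Polynomial.eval₂_C]
      simp only [algebraMap_int_eq, eq_intCast]
      linear_combination h
  obtain ⟨y, hy⟩ := IsIntegrallyClosed.isIntegral_iff.mp hint
  exact ⟨y, by simpa using hy⟩

/-- If `pos M` is rational then all `pos j`, `j ≤ M`, are positive integers. -/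
theorem pos_int {q : ℕ} {C : ℕ → ℕ} (hq : 0 < q) {M : ℕ} (hC : ∀ j, j < M → 0 < C (j + 1))
    (hM : ¬ Irrational (pos q C M)) :
    ∃ f : ℕ → ℕ, ∀ j, j ≤ M → 0 < f j ∧ pos q C j = (f j : ℝ) := by
  have hrat : ∀ j, j ≤ M → ¬ Irrational (pos q C j) := fun j hj hI =>
    hM (pos_irr_mono hq hC hI hj le_rfl)
  have key : ∀ j, j ≤ M → ∃ n : ℕ, 0 < n ∧ pos q C j = (n : ℝ) := by
    intro j
    induction j with
    | zero => intro _; exact ⟨q, hq, pos_zero q C⟩
    | succ j ih =>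
      intro hj
      obtain ⟨n, hn, hn'⟩ := ih (by omega)
      have h1 := pos_rec hq hC j (by omega)
      have h2 := hrat (j + 1) hj
      unfold Irrational at h2
      push Not at h2
      obtain ⟨x, hx⟩ := h2
      have hp := pos_pos hq hC (j + 1) hj
      rw [← hx, hn'] at h1
      have h3 : x * (x + ((C j : ℤ) : ℚ)) = (((C (j + 1) * n : ℕ) : ℤ) : ℚ) := by
        push_cast
        exact_mod_cast h1
      obtain ⟨y, hy⟩ := rat_root_int x _ _ h3
      have hy2 : ((y : ℤ) : ℝ) = pos q C (j + 1) := by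
        rw [← hx, ← hy]; push_cast; rfl
      have hy3 : 0 < y := by
        have : (0:ℝ) < (y : ℝ) := by rw [hy2]; exact hp
        exact_mod_cast this
      refine ⟨y.toNat, by omega, ?_⟩
      rw [← hy2]
      have : ((y.toNat : ℕ) : ℤ) = y := Int.toNat_of_nonneg hy3.le
      exact_mod_cast this.symm
  refine ⟨fun j => ⌊pos q C j⌋₊, fun j hj => ?_⟩
  obtain ⟨n, hn, hn'⟩ := key j hj
  have : ⌊pos q C j⌋₊ = n := by rw [hn']; exact Nat.floor_natCast n
  show 0 < ⌊pos q C j⌋₊ ∧ pos q C j = ((⌊pos q C j⌋₊ : ℕ) : ℝ)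
  rw [this]
  exact ⟨hn, hn'⟩

end Pool.Agent.SYL
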