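import Pool.Agent.SYL.Defs

set_option autoImplicit false

/-!
NEG: with rho k = C k / (-y k): since z = y (k+1) satisfies z (z + C k) = C (k+1) y k < 0 we
have -C k < z < 0, so rho (k+1) = C (k+1) / (-z) > 1, and
rho (k+1) = rho k (1 + z / C k) = rho k - (-z)/(-y k) with (-z)/(-y k) = C (k+1)/(C k + z) > 1.
So rho decreases by more than 1 at each step and rho r > 1.
-/

namespace Pool.Agent.SYL

open NumberField

lemma neg_step (c c' y z : ℝ) (hc : 0 < c) (hcc : c < c') (hy : y < 0)
    (h : z * (z + c) = c' * y) : z < 0 ∧ 1 < c' / (-z) ∧ c' / (-z) + 1 ≤ c / (-y) := by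
  have hneg : z * (z + c) < 0 := by
    rw [h]; exact mul_neg_of_pos_of_neg (hc.trans hcc) hy
  have hz : z < 0 := by
    by_contra hz
    push Not at hz
    have : 0 ≤ z * (z + c) := mul_nonneg hz (by linarith)
    linarith
  have hzc : 0 < z + c := by
    by_contra hzc
    push Not at hzc
    have : 0 ≤ z * (z + c) := mul_nonneg_of_nonpos_of_nonpos hz.le hzc
    linarith
  refine ⟨hz, ?_, ?_⟩
  · rw [lt_div_iff₀ (by linarith)]
    linarith
  · have h1 : c' / (-z) = (z + c) / (-y) := by
      rw [div_eq_div_iff (by linarith) (by linarith)]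
      linarith
    rw [h1]
    have h2 : 1 ≤ (-z) / (-y) := by
      rw [le_div_iff₀ (by linarith)]
      by_contra hcon
      push Not at hcon
      have hA : (-z) * (z + c) < (1 * (-y)) * (z + c) := mul_lt_mul_of_pos_right hcon hzc
      have hB : (-y) * (z + c) < (-y) * c' := mul_lt_mul_of_pos_left (by linarith) (by linarith)
      nlinarith
    have h3 : (z + c) / (-y) + (-z) / (-y) = c / (-y) := by
      rw [← add_div]; ring_nf
    linarith

/-- Negative real chains die quickly: if `y b < 0`, and `y (k+1)` is a (real) child of `y k` for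
`b ≤ k < r`, then `(r - b) + 1 < C b / (-(y b))` when `b < r`. -/
theorem neg_decay (C : ℕ → ℕ) (y : ℕ → ℝ) (b r : ℕ) (hbr : b < r) (hCb : 0 < C b)
    (hmono : ∀ k, b ≤ k → k < r → C k < C (k + 1)) (hneg : y b < 0)
    (hch : ∀ k, b ≤ k → k < r → y (k + 1) * (y (k + 1) + (C k : ℝ)) = (C (k + 1) : ℝ) * y k) :
    ((r : ℝ) - b) + 1 < (C b : ℝ) / (-(y b)) := by
  have key : ∀ d, b + d ≤ r → y (b + d) < 0 ∧ 0 < C (b + d) ∧
      (C (b + d) : ℝ) / (-(y (b + d))) + d ≤ (C b : ℝ) / (-(y b)) ∧
      (0 < d → 1 < (C (b + d) : ℝ) / (-(y (b + d)))) := by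
    intro d
    induction d with
    | zero => intro _; exact ⟨hneg, hCb, by simp, fun h => absurd h (lt_irrefl 0)⟩
    | succ d ih =>
      intro hd
      obtain ⟨h1, h2, h3, _⟩ := ih (by omega)
      have hm := hmono (b + d) (by omega) (by omega)
      have hc := hch (b + d) (by omega) (by omega)
      have hs := neg_step (C (b + d) : ℝ) (C (b + d + 1) : ℝ) (y (b + d)) (y (b + d + 1))
        (by exact_mod_cast h2) (by exact_mod_cast hm) h1 hc
      have e1 : b + (d + 1) = b + d + 1 := by ring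
      rw [e1]
      refine ⟨hs.1, by omega, ?_, fun _ => hs.2.1⟩
      push_cast
      linarith [hs.2.2]
  obtain ⟨d, hd⟩ := Nat.exists_eq_add_of_lt hbr
  have h := key (d + 1) (by omega)
  have e1 : b + (d + 1) = r := by omega
  rw [e1] at h
  have h4 := h.2.2.2 (by omega)
  have h3 := h.2.2.1
  have h5 : ((r : ℕ) : ℝ) = (b : ℝ) + (d + 1 : ℕ) := by rw [← e1]; push_cast; ring
  rw [h5]
  linarith

end Pool.Agent.SYL
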