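import Pool.Agent.SYL.Defs
import Pool.Agent.SYL.POSR
import Pool.Agent.SYL.NEG
import Pool.Agent.SYL.LEVB

set_option autoImplicit false

/-!
RLC: proof of real_lev. Take the chain x_0 = q, ..., x_r = x; all its terms are real (the parent
of a real element is real). Positive terms: a positive child has a positive parent, and by induction
a positive term x_j equals pos j. If x_r > 0 we are done. Otherwise let b be the first index with
x_b < 0 (b >= 1, terms are not 0 by lev_ne_zero); x_(b-1) = pos (b-1), so x_b = -C (b-1) - pos b.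
If b = r done. If b < r: NEG gives (r - b) + 1 < C b / (C (b-1) + pos b). For b >= 2 the right side is
at most C b / C (b-1) <= K b / (b-1) <= 2K (C (b-1) >= b - 1 by strict monotonicity, hlin);
for b = 1: pos 1 = sqrt (C 1 q), so it is C 1 / sqrt (C 1 q) <= sqrt (C 1) <= K (C 1 <= K).
So b > r - 2K >= I0 + 1 and then no jump at b: the discriminant C b^2 + 4 C (b+1) x_b < 0 by
C b <= 4 C (b-1) and C (b+1) > C b, contradiction with the real child x_(b+1).
sib_child_im: y real would make the discriminant C r^2 - 4 C (r+1) (C (r-1) + pos r) nonnegative.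
-/

namespace Pool.Agent.SYL

open NumberField

private lemma rlc_disc {q : ℕ} {C : ℕ → ℕ} {i r : ℕ} (hq : 0 < q)
    (hmono : ∀ j, j ≤ i → C j < C (j + 1)) (hr2 : r ≤ i)
    (hj : C r ≤ 4 * C (r - 1)) {t : ℝ}
    (ht : t * (t + (C r : ℝ)) = (C (r + 1) : ℝ) * (-(C (r - 1) : ℝ) - pos q C r)) : False := by
  have hC : ∀ j, j < i + 1 → 0 < C (j + 1) := fun j hj =>
    lt_of_le_of_lt (Nat.zero_le _) (hmono j (by omega))
  have hp : 0 < pos q C r := pos_pos hq hC r (by omega)
  have h1 : (C r : ℝ) < (C (r + 1) : ℝ) := by exact_mod_cast hmono r hr2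
  have h2 : (C r : ℝ) ≤ 4 * (C (r - 1) : ℝ) := by exact_mod_cast hj
  have h3 : (0 : ℝ) ≤ (C r : ℝ) := Nat.cast_nonneg _
  have h4 : (0 : ℝ) ≤ (C (r - 1) : ℝ) := Nat.cast_nonneg _
  have h5 : (0 : ℝ) < (C (r + 1) : ℝ) := lt_of_le_of_lt h3 h1
  nlinarith [sq_nonneg (2 * t + (C r : ℝ)), mul_pos h5 hp, mul_nonneg h3 (sub_nonneg.2 h2),
    mul_nonneg h4 (sub_nonneg.2 h1.le)]

private lemma rlc_ge {C : ℕ → ℕ} {i : ℕ} (hmono : ∀ j, j ≤ i → C j < C (j + 1)) :
    ∀ j, j ≤ i + 1 → j ≤ C j := by
  intro j
  induction j with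
  | zero => intro _; exact Nat.zero_le _
  | succ j ih =>
    intro hj
    have h1 := ih (by omega)
    have h2 := hmono j (by omega)
    omega

/-- Real elements of level `r` in the jump free zone. -/
theorem real_lev {q : ℕ} {C : ℕ → ℕ} {K I0 i : ℕ} (hq : 0 < q) (hC0 : C 0 = 0) (hK : 1 ≤ K)
    (hI0 : 2 ≤ I0) (hmono : ∀ j, j ≤ i → C j < C (j + 1)) (hlin : ∀ j, j ≤ i + 1 → C j ≤ K * j)
    (hjump : ∀ j, I0 ≤ j → j ≤ i → C j ≤ 4 * C (j - 1)) {r : ℕ} (hr1 : I0 + 2 * K + 1 ≤ r)
    (hr2 : r ≤ i) {x : ℂ} (hx : x ∈ Lev ℂ q C r) (him : x.im = 0) :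
    x = ((pos q C r : ℝ) : ℂ) ∨ x = -(C (r - 1) : ℂ) - ((pos q C r : ℝ) : ℂ) := by
  obtain ⟨X, ⟨hX0, hXs⟩, rfl⟩ := hx
  have hC : ∀ j, j < i + 1 → 0 < C (j + 1) := fun j hj =>
    lt_of_le_of_lt (Nat.zero_le _) (hmono j (by omega))
  have hCr : ∀ j, j < i + 1 → (0 : ℝ) < (C (j + 1) : ℝ) := fun j hj => by exact_mod_cast hC j hj
  -- all the terms are real
  have hre : ∀ k, k ≤ r → (X (r - k)).im = 0 := by
    intro k
    induction k with
    | zero => intro _; exact him
    | succ k ih =>
      intro hk
      have h1 := ih (by omega)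
      have h2 := hXs (r - (k + 1)) (by omega)
      have h3 : r - (k + 1) + 1 = r - k := by omega
      rw [h3] at h2
      have h4 := congrArg Complex.im h2
      simp only [Complex.mul_im, Complex.add_re, Complex.add_im, Complex.natCast_re,
        Complex.natCast_im, h1, mul_zero, zero_mul, add_zero] at h4
      have h5 := hCr (r - (k + 1)) (by omega)
      rw [h3] at h5
      rcases mul_eq_zero.1 h4.symm with h6 | h6
      · exact absurd h6 h5.ne'
      · exact h6
  have hre' : ∀ j, j ≤ r → (X j).im = 0 := by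
    intro j hj
    have := hre (r - j) (by omega)
    rwa [show r - (r - j) = j by omega] at this
  have hXre : ∀ j, j ≤ r → X j = (((X j).re : ℝ) : ℂ) := by
    intro j hj
    apply Complex.ext
    · simp
    · simp [hre' j hj]
  have hrec : ∀ j, j < r → (X (j + 1)).re * ((X (j + 1)).re + (C j : ℝ)) =
      (C (j + 1) : ℝ) * (X j).re := by
    intro j hj
    have h1 := congrArg Complex.re (hXs j hj)
    simp only [Complex.mul_re, Complex.add_re, Complex.add_im, Complex.natCast_re,
      Complex.natCast_im, hre' (j + 1) (by omega), hre' j (by omega), mul_zero, zero_mul,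
      sub_zero] at h1
    exact h1
  have hne : ∀ j, j ≤ r → (X j).re ≠ 0 := by
    intro j hj h0
    have h1 : X j ∈ Lev ℂ q C j := ⟨X, ⟨hX0, fun k hk => hXs k (by omega)⟩, rfl⟩
    have h2 := lev_ne_zero hq (M := j) (fun k hk => hC k (by omega)) h1
    apply h2
    rw [hXre j hj, h0]
    simp
  -- a term all whose predecessors are positive is given by `pos`
  have hposn : ∀ j, j ≤ r → (∀ k, k ≤ j → 0 < (X k).re) → X j = ((pos q C j : ℝ) : ℂ) := by
    intro j
    induction j with
    | zero =>
      intro _ _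
      rw [hX0]
      simp [pos]
    | succ j ih =>
      intro hj hk
      have h1 := ih (by omega) (fun k hk' => hk k (by omega))
      have h2 := hXs j (by omega)
      rw [h1] at h2
      rcases pos_child hq (j := j) (fun k hk' => hC k (by omega)) h2 with h3 | h3
      · exact h3
      · exfalso
        have h4 := congrArg Complex.re h3
        simp only [Complex.sub_re, Complex.neg_re, Complex.natCast_re, Complex.ofReal_re] at h4
        have h5 := hk (j + 1) le_rfl
        have h6 := pos_pos hq hC (j + 1) (by omega)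
        have h7 : (0 : ℝ) ≤ (C j : ℝ) := Nat.cast_nonneg _
        linarith
  by_cases hall : ∀ k, k ≤ r → 0 < (X k).re
  · exact Or.inl (hposn r le_rfl hall)
  · push Not at hall
    classical
    have hex : ∃ k, k ≤ r ∧ (X k).re ≤ 0 := hall
    obtain ⟨hb1, hb2⟩ := Nat.find_spec hex
    have hmin : ∀ k, k < Nat.find hex → 0 < (X k).re := by
      intro k hk
      have h1 := Nat.find_min hex hk
      push Not at h1
      exact h1 (by omega)
    generalize hbdef : Nat.find hex = b at hb1 hb2 hmin
    have hb0 : b ≠ 0 := by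
      rintro rfl
      rw [hX0] at hb2
      simp only [Complex.natCast_re] at hb2
      have : (0 : ℝ) < (q : ℝ) := by exact_mod_cast hq
      linarith
    obtain ⟨a, rfl⟩ : ∃ a, b = a + 1 := ⟨b - 1, by omega⟩
    have hneg : (X (a + 1)).re < 0 := lt_of_le_of_ne hb2 (hne _ hb1)
    have h1 := hposn a (by omega) (fun k hk => hmin k (by omega))
    have h2 := hXs a (by omega)
    rw [h1] at h2
    have hXb : X (a + 1) = -(C a : ℂ) - ((pos q C (a + 1) : ℝ) : ℂ) := by
      rcases pos_child hq (j := a) (fun k hk' => hC k (by omega)) h2 with h3 | h3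
      · exfalso
        have h4 := congrArg Complex.re h3
        simp only [Complex.ofReal_re] at h4
        have h6 := pos_pos hq hC (a + 1) (by omega)
        linarith
      · exact h3
    have hXbr : (X (a + 1)).re = -(C a : ℝ) - pos q C (a + 1) := by
      have h4 := congrArg Complex.re hXb
      simpa only [Complex.sub_re, Complex.neg_re, Complex.natCast_re, Complex.ofReal_re] using h4
    by_cases hbr : a + 1 = r
    · right
      rw [← hbr]
      exact hXb
    · exfalso
      have hbr' : a + 1 < r := by omega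
      have hp1 := pos_pos hq hC (a + 1) (by omega)
      have hdec := neg_decay C (fun j => (X j).re) (a + 1) r hbr' (hC a (by omega))
        (fun k _ hk => hmono k (by omega)) hneg (fun k _ hk => hrec k (by omega))
      have hCa : (0 : ℝ) ≤ (C a : ℝ) := Nat.cast_nonneg _
      have hCa1 : (0 : ℝ) < (C (a + 1) : ℝ) := hCr a (by omega)
      have hdec2 : ((r : ℝ) - ((a + 1 : ℕ) : ℝ) + 1) * ((C a : ℝ) + pos q C (a + 1)) <
          (C (a + 1) : ℝ) := by
        have h5 : -((X (a + 1)).re) = (C a : ℝ) + pos q C (a + 1) := by rw [hXbr]; ring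
        simp only [h5] at hdec
        rwa [lt_div_iff₀ (by linarith)] at hdec
      have hr' : ((I0 : ℝ) + 2 * K + 1) ≤ (r : ℝ) := by exact_mod_cast hr1
      have hbr'' : ((a : ℝ) + 1) < (r : ℝ) := by exact_mod_cast hbr'
      push_cast at hdec2
      have hK' : (1 : ℝ) ≤ (K : ℝ) := by exact_mod_cast hK
      have hI0' : (2 : ℝ) ≤ (I0 : ℝ) := by exact_mod_cast hI0
      rcases Nat.eq_zero_or_pos a with rfl | ha
      · -- the first step is negative
        have h6 := pos_rec hq hC 0 (by omega)
        rw [hC0, pos_zero] at h6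
        simp only [zero_add, Nat.cast_zero, add_zero] at h6
        rw [zero_add] at hdec2 hp1 hCa1
        have hq' : (1 : ℝ) ≤ (q : ℝ) := by exact_mod_cast hq
        have hC1 : (1 : ℝ) ≤ (C 1 : ℝ) := by exact_mod_cast hC 0 (by omega)
        have hC1K : (C 1 : ℝ) ≤ (K : ℝ) := by
          have := hlin 1 (by omega)
          rw [mul_one] at this
          exact_mod_cast this
        have h7 : 1 ≤ pos q C 1 := by
          by_contra hlt
          push Not at hlt
          have h8 : pos q C 1 * pos q C 1 < 1 := by nlinarith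
          nlinarith
        rw [hC0] at hdec2
        simp only [Nat.cast_zero, zero_add] at hdec2
        nlinarith
      · -- a later step
        have ha1 : a ≤ C a := rlc_ge hmono a (by omega)
        have ha' : (1 : ℝ) ≤ (a : ℝ) := by exact_mod_cast ha
        have haC : (a : ℝ) ≤ (C a : ℝ) := by exact_mod_cast ha1
        have hlin' : (C (a + 1) : ℝ) ≤ (K : ℝ) * ((a : ℝ) + 1) := by
          have := hlin (a + 1) (by omega)
          exact_mod_cast this
        have h9 : (r : ℝ) - ((a : ℝ) + 1) + 1 < 2 * K := by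
          by_contra hge
          push Not at hge
          have h10 : (2 * K : ℝ) * (C a : ℝ) ≤
              ((r : ℝ) - ((a : ℝ) + 1) + 1) * ((C a : ℝ) + pos q C (a + 1)) := by
            have h11 : (C a : ℝ) ≤ (C a : ℝ) + pos q C (a + 1) := by linarith
            exact mul_le_mul hge h11 hCa (by linarith)
          nlinarith
        have h10 : (I0 : ℝ) < (a : ℝ) + 1 := by linarith
        have h11 : I0 < a + 1 := by exact_mod_cast h10
        have h12 := hjump (a + 1) h11.le (by omega)
        refine rlc_disc hq hmono (r := a + 1) (by omega) h12 (t := (X (a + 1 + 1)).re) ?_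
        rw [hrec (a + 1) hbr', hXbr]
        simp only [Nat.add_sub_cancel]

/-- The children of the sibling of `pos r` are not real when there is no jump at `r`. -/
theorem sib_child_im {q : ℕ} {C : ℕ → ℕ} {i r : ℕ} (hq : 0 < q)
    (hmono : ∀ j, j ≤ i → C j < C (j + 1)) (hr1 : 2 ≤ r) (hr2 : r ≤ i)
    (hj : C r ≤ 4 * C (r - 1)) {y : ℂ}
    (hy : y * (y + (C r : ℂ)) =
      (C (r + 1) : ℂ) * (-(C (r - 1) : ℂ) - ((pos q C r : ℝ) : ℂ))) : y.im ≠ 0 := by
  intro h0
  refine rlc_disc hq hmono hr2 hj (t := y.re) ?_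
  have h1 := congrArg Complex.re hy
  simp only [Complex.mul_re, Complex.add_re, Complex.add_im, Complex.natCast_re,
    Complex.natCast_im, Complex.sub_re, Complex.neg_re, Complex.ofReal_re, Complex.sub_im,
    Complex.neg_im, Complex.ofReal_im, h0, mul_zero, zero_mul, sub_zero] at h1
  exact h1

end Pool.Agent.SYL
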