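import Pool.Agent.SYL.Defs
import Pool.Agent.SYL.LEVB
import Pool.Agent.SYL.POSR

set_option autoImplicit false

/-!
VCH: recursion: v 0 = q; given v j in Lev L with φ (v j) = pos j, Full gives a child y; by
pos_child φ y is pos (j+1) or -C j - pos (j+1); take v (j+1) = y or -C j - y. (Build v j by strong
recursion or prove by induction on i that such a v exists and extend by Function.update.)
v_rec: apply φ (injective) and pos_rec.
-/

namespace Pool.Agent.SYL

open NumberField

/-- The positive real chain inside `L`. -/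
theorem exists_chain (q : ℕ) (C : ℕ → ℕ) (i : ℕ) (hq : 0 < q) (hC : ∀ j, j ≤ i → 0 < C (j + 1))
    (L : Type) [Field L] [NumberField L] [IsGalois ℚ L] (φ : L →+* ℂ)
    (hfull : Full L q C (i + 1)) :
    ∃ v : ℕ → L, (∀ j, j ≤ i + 1 → v j ∈ Lev L q C j) ∧
      (∀ j, j ≤ i + 1 → φ (v j) = ((pos q C j : ℝ) : ℂ)) := by
  have key : ∀ j, j ≤ i + 1 → ∃ z : L, z ∈ Lev L q C j ∧ φ z = ((pos q C j : ℝ) : ℂ) := by
    intro j
    induction j with
    | zero =>
      intro _
      refine ⟨(q : L), ?_, ?_⟩
      · rw [lev_zero]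
        rfl
      · rw [map_natCast, pos_zero]
        norm_cast
    | succ j ih =>
      intro hj
      obtain ⟨x, hx, hφx⟩ := ih (by omega)
      obtain ⟨y, hy⟩ := hfull j (by omega) x hx
      have h1 : φ y * (φ y + (C j : ℂ)) = (C (j + 1) : ℂ) * ((pos q C j : ℝ) : ℂ) := by
        rw [← hφx, ← map_natCast φ (C j), ← map_natCast φ (C (j + 1)), ← map_add, ← map_mul,
          ← map_mul, hy]
      rcases pos_child hq (fun k hk => hC k (by omega)) h1 with h2 | h2
      · exact ⟨y, lev_child hx hy, h2⟩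
      · refine ⟨-(C j : L) - y, lev_child hx ?_, ?_⟩
        · rw [← hy]
          ring
        · rw [map_sub, map_neg, map_natCast, h2]
          ring
  choose! v hv1 hv2 using key
  exact ⟨v, hv1, hv2⟩

/-- In the Galois setting the positive chain satisfies the recursion. -/
theorem v_rec {q : ℕ} {C : ℕ → ℕ} {i : ℕ} {L : Type} [Field L] [NumberField L] {φ : L →+* ℂ}
    {v : ℕ → L} (hq : 0 < q) (hC : ∀ j, j ≤ i → 0 < C (j + 1))
    (hv : ∀ j, j ≤ i + 1 → φ (v j) = ((pos q C j : ℝ) : ℂ)) :
    ∀ j, j ≤ i → v (j + 1) * (v (j + 1) + (C j : L)) = (C (j + 1) : L) * v j := by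
  intro j hj
  apply φ.injective
  rw [map_mul, map_add, map_mul, map_natCast, map_natCast, hv (j + 1) (by omega),
    hv j (by omega)]
  have h1 := pos_rec hq (M := i + 1) (fun k hk => hC k (by omega)) j (by omega)
  exact_mod_cast h1

end Pool.Agent.SYL
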