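import Pool.Agent.SYL.Defs
import Pool.Agent.SYL.LEVB

set_option autoImplicit false

/-!
STP: children_fixed: let z' = -C j - z be the other child; (z - z')^2 = C j^2 + 4 C (j+1) w =: d is
integral, not in P, so z - z' not in P. For σ in the inertia group σ z is a root of the same quadratic
(σ w = w) so σ z is z or z'; σ z - z in P and z' - z not in P, so σ z = z.
exists_good_child: difference of the two is 4 C (j+2) (z - z'); the integer 4 C (j+2) is prime to l, so
not in P (l in P would give 1 in P).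
-/

namespace Pool.Agent.SYL

open NumberField

/-- Children of an inertia fixed element with discriminant outside `P`. -/
theorem children_fixed {q : ℕ} {C : ℕ → ℕ} {j : ℕ} {L : Type} [Field L] [NumberField L]
    (P : Ideal (𝓞 L)) (hP : P.IsPrime) {w z : L} (hz' : IsIntegral ℤ z)
    (hw : InFix P w) (hz : z * (z + (C j : L)) = (C (j + 1) : L) * w)
    (hd : ∀ d : 𝓞 L, (d : L) = (C j : L) ^ 2 + 4 * (C (j + 1) : L) * w → d ∉ P) :
    InFix P z := by
  intro σ hσ
  have h1 : σ w = w := hw σ hσ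
  have h2 : σ z * (σ z + (C j : L)) = (C (j + 1) : L) * w := by
    have h := congrArg σ hz
    simpa [map_mul, map_add, h1] using h
  obtain ⟨b, hb, hbz⟩ := hσ ⟨z, hz'⟩
  have hbz' : σ z = z + (b : L) := hbz
  have h3 : (σ z - z) * (σ z + z + (C j : L)) = 0 := by
    linear_combination h2 - hz
  rcases mul_eq_zero.mp h3 with h4 | h4
  · exact sub_eq_zero.mp h4
  · exfalso
    refine hd (b ^ 2) ?_ (P.pow_mem_of_mem hb 2 (by norm_num))
    have h5 : (b : L) = - (C j : L) - 2 * z := by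
      linear_combination h4 - hbz'
    have h6 : ((b ^ 2 : 𝓞 L) : L) = (b : L) ^ 2 := by
      rw [RingOfIntegers.coe_eq_algebraMap, RingOfIntegers.coe_eq_algebraMap, map_pow]
    rw [h6, h5]
    linear_combination 4 * hz

/-- If both children of `w` have discriminant in `P` then `4 C (j+2) (z - z') ∈ P`; hence if
`l` is an odd prime not dividing `C (j+2)` one of the two children has discriminant outside `P`. -/
theorem exists_good_child {C : ℕ → ℕ} {j l : ℕ} {L : Type} [Field L] [NumberField L]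
    (P : Ideal (𝓞 L)) (hP : P.IsPrime) (hl : l.Prime) (hl2 : 2 < l)
    (hlP : ((l : ℕ) : 𝓞 L) ∈ P) (hlC : ¬ l ∣ C (j + 2)) (z z' : 𝓞 L) (hzz : z - z' ∉ P) :
    (C (j + 1) : 𝓞 L) ^ 2 + 4 * (C (j + 2) : 𝓞 L) * z ∉ P ∨
      (C (j + 1) : 𝓞 L) ^ 2 + 4 * (C (j + 2) : 𝓞 L) * z' ∉ P := by
  by_contra hcon
  push Not at hcon
  obtain ⟨ha, hb⟩ := hcon
  have h1 : ((4 * C (j + 2) : ℕ) : 𝓞 L) * (z - z') ∈ P := by
    have h := P.sub_mem ha hb
    have he : ((4 * C (j + 2) : ℕ) : 𝓞 L) * (z - z') =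
        ((C (j + 1) : 𝓞 L) ^ 2 + 4 * (C (j + 2) : 𝓞 L) * z) -
        ((C (j + 1) : 𝓞 L) ^ 2 + 4 * (C (j + 2) : 𝓞 L) * z') := by
      push_cast; ring
    rw [he]; exact h
  rcases hP.mem_or_mem h1 with h2 | h2
  · have hcop : Nat.Coprime (4 * C (j + 2)) l := by
      rw [Nat.coprime_mul_iff_left]
      constructor
      · have : Nat.Coprime 2 l := by
          rw [Nat.coprime_primes Nat.prime_two hl]; omega
        exact Nat.Coprime.pow_left 2 this
      · exact ((Nat.Prime.coprime_iff_not_dvd hl).mpr hlC).symm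
    have h3 : (1 : 𝓞 L) ∈ P := by
      have hi : IsCoprime ((4 * C (j + 2) : ℕ) : ℤ) (l : ℤ) := Nat.isCoprime_iff_coprime.mpr hcop
      obtain ⟨u, v, huv⟩ := hi
      have he : (1 : 𝓞 L) = (u : 𝓞 L) * ((4 * C (j + 2) : ℕ) : 𝓞 L) + (v : 𝓞 L) * ((l : ℕ) : 𝓞 L) := by
        have := congrArg (Int.cast : ℤ → 𝓞 L) huv
        push_cast at this
        push_cast
        exact this.symm
      rw [he]
      exact P.add_mem (P.mul_mem_left _ h2) (P.mul_mem_left _ hlP)
    exact hP.ne_top ((Ideal.eq_top_iff_one P).mpr h3)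
  · exact hzz h2

end Pool.Agent.SYL
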