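import Pool.Agent.SYL.Defs
import Pool.Agent.SYL.LEVB
import Pool.Agent.SYL.POSR
import Pool.Agent.SYL.RLC
import Pool.Agent.SYL.VCH
import Pool.Agent.SYL.ORB

set_option autoImplicit false

/-!
TRN: short. g⁻¹ z is a child of v r, so it is v (r+1) or its sibling -C r - v (r+1) (two roots of the
quadratic, v_rec); the sibling is conjugate to v (r+1) by exists_conj_sib at r + 1 <= i.
-/

namespace Pool.Agent.SYL

open NumberField

/-- Both children of an element of the orbit of `v r` lie in the orbit of `v (r+1)`. -/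
theorem child_mem_orbit {q : ℕ} {C : ℕ → ℕ} {K I0 i l : ℕ} (h : Pat q C K I0 i l)
    {L : Type} [Field L] [NumberField L] [IsGalois ℚ L] {φ : L →+* ℂ} {c : L ≃ₐ[ℚ] L}
    {v : ℕ → L} (hG : GalD q C i L φ c v) {r : ℕ} (hr1 : I0 + 2 * K + 1 ≤ r) (hr2 : r < i)
    {g : L ≃ₐ[ℚ] L} {z : L} (hz : z * (z + (C r : L)) = (C (r + 1) : L) * g (v r)) :
    ∃ g' : L ≃ₐ[ℚ] L, g' (v (r + 1)) = z := by
  have hC : ∀ j, j ≤ i → 0 < C (j + 1) := fun j hj => by
    have := h.mono j hj
    omega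
  have hrec := v_rec h.hq hC hG.vpos r hr2.le
  obtain ⟨g1, hg1⟩ := exists_conj_sib h hG (r := r + 1) (by omega) hr2
  rw [Nat.add_sub_cancel] at hg1
  obtain ⟨y, hy⟩ : ∃ y, g y = z := ⟨g.symm z, g.apply_symm_apply z⟩
  have h1 : y * (y + (C r : L)) = (C (r + 1) : L) * v r := by
    apply g.injective
    rw [map_mul, map_add, map_mul, map_natCast, map_natCast, hy, hz]
  have h2 : (y - v (r + 1)) * (y - (-(C r : L) - v (r + 1))) = 0 := by
    have h3 : y * (y + (C r : L)) - v (r + 1) * (v (r + 1) + (C r : L)) = 0 := by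
      rw [h1, hrec, sub_self]
    linear_combination h3
  rcases mul_eq_zero.1 h2 with h3 | h3
  · refine ⟨g, ?_⟩
    rw [← sub_eq_zero.1 h3, hy]
  · refine ⟨g1.trans g, ?_⟩
    rw [AlgEquiv.trans_apply, hg1, ← sub_eq_zero.1 h3, hy]

end Pool.Agent.SYL
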