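import Pool.Agent.SYL.Defs
import Pool.Agent.SYL.LEVB
import Pool.Agent.SYL.POSR
import Pool.Agent.SYL.RLC
import Pool.Agent.SYL.VCH
import Pool.Agent.SYL.ORB
import Pool.Agent.SYL.TRN
import Pool.Agent.SYL.STP

set_option autoImplicit false

namespace Pool.Agent.SYL

open NumberField

/-- An integer in a prime ideal above `l` is divisible by `l`. -/
theorem ptb_nat {R : Type*} [CommRing R] (P : Ideal R) (hP : P.IsPrime) {l n : ℕ} (hl : l.Prime)
    (hlP : ((l : ℕ) : R) ∈ P) (hn : ((n : ℕ) : R) ∈ P) : l ∣ n := by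
  by_contra hcon
  have hcop : IsCoprime (l : ℤ) (n : ℤ) :=
    Nat.isCoprime_iff_coprime.2 ((Nat.Prime.coprime_iff_not_dvd hl).2 hcon)
  obtain ⟨a, b, hab⟩ := hcop
  apply hP.ne_top
  rw [Ideal.eq_top_iff_one]
  have h1 : ((a * (l : ℤ) + b * (n : ℤ) : ℤ) : R) = 1 := by rw [hab, Int.cast_one]
  rw [← h1]
  push_cast
  exact P.add_mem (P.mul_mem_left _ hlP) (P.mul_mem_left _ hn)

theorem ptb_ext {L : Type*} [Field L] {a b : 𝓞 L}
    (h : algebraMap (𝓞 L) L a = algebraMap (𝓞 L) L b) : a = b :=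
  RingOfIntegers.ext h

/-- The discriminant as an integer. -/
theorem ptb_disc {L : Type*} [Field L] {d z : 𝓞 L} {m n : ℕ} {x : L}
    (hd : (d : L) = (m : L) ^ 2 + 4 * (n : L) * x) (hz : (z : L) = x) :
    d = (m : 𝓞 L) ^ 2 + 4 * (n : 𝓞 L) * z := by
  apply ptb_ext
  have hd2 : algebraMap (𝓞 L) L d = (m : L) ^ 2 + 4 * (n : L) * x := hd
  have hz2 : algebraMap (𝓞 L) L z = x := hz
  rw [hd2, ← hz2]
  simp only [map_add, map_mul, map_pow, map_natCast, map_ofNat]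

/-- Elements of the separated level are fixed by inertia. -/
theorem ptb_lev_inFix {q : ℕ} {C : ℕ → ℕ} {I l : ℕ} (hs : SepOK q C I l)
    {L : Type} [Field L] [NumberField L] (P : Ideal (𝓞 L)) (hP : P.IsPrime)
    (hlP : ((l : ℕ) : 𝓞 L) ∈ P) {x : L} (hx : x ∈ Lev L q C I) : InFix P x := by
  intro σ hσ
  obtain ⟨x', hx', rfl⟩ := lev_int hx
  obtain ⟨b, hb, hb'⟩ := hσ x'
  have h1 : σ (x' : L) ∈ Lev L q C I := orb_map σ hx
  obtain ⟨y', hy', hy⟩ := lev_int h1
  have h2 : y' - x' = b := by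
    apply ptb_ext
    have hy2 : algebraMap (𝓞 L) L y' = σ (x' : L) := hy
    rw [map_sub, hy2, hb']
    exact add_sub_cancel_left _ _
  by_contra hne
  have h3 : y' ≠ x' := by
    rintro rfl
    exact hne hy.symm
  exact hs L P hP hlP y' x' hy' hx' h3 (by rw [h2]; exact hb)

section

variable {q : ℕ} {C : ℕ → ℕ} {K I0 i l : ℕ} (h : Pat q C K I0 i l)
    (hs : SepOK q C (I0 + 2 * K + 1) l)
    {L : Type} [Field L] [NumberField L] [IsGalois ℚ L] {φ : L →+* ℂ} {c : L ≃ₐ[ℚ] L}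
    {v : ℕ → L} (hG : GalD q C i L φ c v) (P : Ideal (𝓞 L)) (hP : P.IsPrime)
    (hlP : ((l : ℕ) : 𝓞 L) ∈ P)

include h hP hlP in
/-- Choice between two elements of level `r`, different mod `P`. -/
private theorem ptb_choice {r : ℕ} (hr0 : 1 ≤ r) (hr : r < i) (z z' : 𝓞 L) (hzz : z - z' ∉ P) :
    (C r : 𝓞 L) ^ 2 + 4 * (C (r + 1) : 𝓞 L) * z ∉ P ∨
      (C r : 𝓞 L) ^ 2 + 4 * (C (r + 1) : 𝓞 L) * z' ∉ P := by
  rcases Nat.lt_or_ge (r + 1) i with h1 | h1
  · obtain ⟨j, rfl⟩ : ∃ j, r = j + 1 := ⟨r - 1, by omega⟩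
    exact exists_good_child P hP h.prime h.two hlP (h.first (j + 2) (by omega) h1) z z' hzz
  · have hi : i = r + 1 := by omega
    left
    intro hmem
    have h2 : ((C (r + 1) : ℕ) : 𝓞 L) ∈ P := by
      have h3 := h.hit
      rw [hi] at h3
      obtain ⟨m, hm⟩ := h3
      rw [hm]
      push_cast
      exact P.mul_mem_right _ hlP
    have h3 : (4 : 𝓞 L) * (C (r + 1) : 𝓞 L) * z ∈ P :=
      P.mul_mem_right _ (P.mul_mem_left _ h2)
    have h4 : (C r : 𝓞 L) ^ 2 ∈ P := (P.add_mem_iff_left h3).1 hmem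
    exact h.first r hr0 hr (ptb_nat P hP h.prime hlP (hP.mem_of_pow_mem 2 h4))

/-- The invariant of the path. -/
private def PInv (q : ℕ) (C : ℕ → ℕ) {L : Type} [Field L] [NumberField L] (v : ℕ → L)
    (P : Ideal (𝓞 L)) (r : ℕ) (w : L) : Prop :=
  w ∈ Lev L q C r ∧ (∃ g : L ≃ₐ[ℚ] L, g (v r) = w) ∧ InFix P w ∧
    (∀ d : 𝓞 L, (d : L) = (C r : L) ^ 2 + 4 * (C (r + 1) : L) * w → d ∉ P) ∧
    InFix P (-(C (r - 1) : L) - w)

include hP in
private theorem ptb_children {r : ℕ} {w : L} (hw : PInv q C v P r w) (z : L)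
    (hz : z * (z + (C r : L)) = (C (r + 1) : L) * w) : InFix P z :=
  children_fixed (q := q) P hP (lev_isIntegral (lev_child hw.1 hz)) hw.2.2.1 hz hw.2.2.2.1

include h hs hG hP hlP in
private theorem ptb_start : ∃ w : L, PInv q C v P (I0 + 2 * K + 1) w := by
  set I1 := I0 + 2 * K + 1 with hI1
  have hlt : I1 < i := h.late
  have hv : v I1 ∈ Lev L q C I1 := hG.vlev I1 (by omega)
  obtain ⟨g, hg⟩ := exists_conj_sib h hG (r := I1) le_rfl hlt.le
  have hv' : -(C (I1 - 1) : L) - v I1 ∈ Lev L q C I1 := by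
    rw [← hg]
    exact orb_map g hv
  have hne : v I1 ≠ -(C (I1 - 1) : L) - v I1 := by
    intro he
    have h1 := congrArg φ he
    rw [map_sub, map_neg, map_natCast, hG.vpos I1 (by omega)] at h1
    have h2 : (pos q C I1 : ℝ) = -(C (I1 - 1) : ℝ) - pos q C I1 := by exact_mod_cast h1
    have h3 : 0 < pos q C I1 :=
      pos_pos h.hq (M := i) (fun j hj => orb_Cpos h j hj.le) I1 hlt.le
    have h4 : (0 : ℝ) ≤ (C (I1 - 1) : ℝ) := Nat.cast_nonneg _
    linarith
  obtain ⟨z, hz, hzv⟩ := lev_int hv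
  obtain ⟨z', hz', hzv'⟩ := lev_int hv'
  have hzz : z ≠ z' := by
    rintro rfl
    exact hne (hzv.symm.trans hzv')
  have hsep := hs L P hP hlP z z' hz hz' hzz
  have hcase := ptb_choice h P hP hlP (r := I1) (by omega) hlt z z' hsep
  have hfix : ∀ x ∈ Lev L q C I1, InFix P x := fun x hx => ptb_lev_inFix hs P hP hlP hx
  rcases hcase with h1 | h1
  · refine ⟨v I1, hv, ⟨1, rfl⟩, hfix _ hv, ?_, hfix _ hv'⟩
    intro d hd
    rw [ptb_disc hd hzv]
    exact h1
  · refine ⟨-(C (I1 - 1) : L) - v I1, hv', ⟨g, hg⟩, hfix _ hv', ?_, ?_⟩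
    · intro d hd
      rw [ptb_disc hd hzv']
      exact h1
    · have e : -(C (I1 - 1) : L) - (-(C (I1 - 1) : L) - v I1) = v I1 := by ring
      rw [e]
      exact hfix _ hv

include h hG hP hlP in
private theorem ptb_step {r : ℕ} (hr0 : I0 + 2 * K + 1 ≤ r) (hr : r + 1 < i) {w : L}
    (hw : PInv q C v P r w) :
    ∃ w' : L, PInv q C v P (r + 1) w' ∧ w' * (w' + (C r : L)) = (C (r + 1) : L) * w := by
  obtain ⟨z, hz⟩ := hG.full r (by omega) w hw.1
  have hz2 := orb_other hz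
  have hzl := lev_child hw.1 hz
  have hzl2 := lev_child hw.1 hz2
  obtain ⟨a, ha, haz⟩ := lev_int hzl
  obtain ⟨a', ha', haz'⟩ := lev_int hzl2
  have hfz := ptb_children P hP hw z hz
  have hfz2 := ptb_children P hP hw _ hz2
  have haa : a - a' ∉ P := by
    intro hmem
    have h1 : (a - a') ^ 2 ∉ P := by
      apply hw.2.2.2.1
      have e : (((a - a') ^ 2 : 𝓞 L) : L) = ((a : L) - (a' : L)) ^ 2 := by
        change algebraMap (𝓞 L) L ((a - a') ^ 2) = _
        rw [map_pow, map_sub]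
      rw [e, haz, haz']
      linear_combination 4 * hz
    exact h1 (by rw [pow_two]; exact P.mul_mem_left _ hmem)
  obtain ⟨g, hg⟩ := hw.2.1
  have horb : ∀ y : L, y * (y + (C r : L)) = (C (r + 1) : L) * w →
      ∃ g' : L ≃ₐ[ℚ] L, g' (v (r + 1)) = y := by
    intro y hy
    rw [← hg] at hy
    exact child_mem_orbit h hG hr0 (by omega) hy
  rcases ptb_choice h P hP hlP (r := r + 1) (by omega) hr a a' haa with h1 | h1
  · refine ⟨z, ⟨hzl, horb z hz, hfz, ?_, ?_⟩, hz⟩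
    · intro d hd
      rw [ptb_disc hd haz]
      exact h1
    · exact hfz2
  · refine ⟨-(C r : L) - z, ⟨hzl2, horb _ hz2, hfz2, ?_, ?_⟩, hz2⟩
    · intro d hd
      rw [ptb_disc hd haz']
      exact h1
    · have e : -(C (r + 1 - 1) : L) - (-(C r : L) - z) = z := by
        rw [Nat.add_sub_cancel]
        ring
      rw [e]
      exact hfz

include h hs hG hP hlP in
private theorem ptb_build (m : ℕ) (hm : I0 + 2 * K + 1 + m < i) :
    ∃ w : ℕ → L, (∀ r, I0 + 2 * K + 1 ≤ r → r ≤ I0 + 2 * K + 1 + m → PInv q C v P r (w r)) ∧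
      ∀ r, I0 + 2 * K + 1 ≤ r → r + 1 ≤ I0 + 2 * K + 1 + m →
        w (r + 1) * (w (r + 1) + (C r : L)) = (C (r + 1) : L) * w r := by
  induction m with
  | zero =>
    obtain ⟨w, hw⟩ := ptb_start h hs hG P hP hlP
    refine ⟨fun _ => w, fun r h1 h2 => ?_, fun r h1 h2 => by omega⟩
    have : r = I0 + 2 * K + 1 := by omega
    rw [this]
    exact hw
  | succ m ih =>
    obtain ⟨w, hw1, hw2⟩ := ih (by omega)
    set r0 := I0 + 2 * K + 1 + m with hr0
    obtain ⟨w', hw', hww⟩ := ptb_step h hG P hP hlP (r := r0) (by omega) (by omega)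
      (hw1 r0 (by omega) le_rfl)
    refine ⟨Function.update w (r0 + 1) w', fun r h1 h2 => ?_, fun r h1 h2 => ?_⟩
    · by_cases hr : r = r0 + 1
      · rw [hr, Function.update_self]
        exact hw'
      · rw [Function.update_of_ne hr]
        exact hw1 r h1 (by omega)
    · have hne : r ≠ r0 + 1 := by omega
      rw [Function.update_of_ne hne]
      by_cases hr : r = r0
      · rw [hr, Function.update_self]
        exact hww
      · have hne2 : r + 1 ≠ r0 + 1 := by omega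
        rw [Function.update_of_ne hne2]
        exact hw2 r h1 (by omega)

end

/-- A path of inertia fixed elements of the orbits, with both children different modulo `P`. -/
theorem exists_path {q : ℕ} {C : ℕ → ℕ} {K I0 i l : ℕ} (h : Pat q C K I0 i l)
    (hs : SepOK q C (I0 + 2 * K + 1) l)
    {L : Type} [Field L] [NumberField L] [IsGalois ℚ L] {φ : L →+* ℂ} {c : L ≃ₐ[ℚ] L}
    {v : ℕ → L} (hG : GalD q C i L φ c v) (P : Ideal (𝓞 L)) (hP : P.IsPrime)
    (hlP : ((l : ℕ) : 𝓞 L) ∈ P) :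
    ∃ w : ℕ → L,
      (∀ r, I0 + 2 * K + 1 ≤ r → r < i → w r ∈ Lev L q C r ∧
        (∃ g : L ≃ₐ[ℚ] L, g (v r) = w r) ∧ InFix P (w r) ∧
        (∀ z : L, z * (z + (C r : L)) = (C (r + 1) : L) * w r → InFix P z) ∧
        InFix P (-(C (r - 1) : L) - w r)) ∧
      (∀ r, I0 + 2 * K + 1 ≤ r → r + 1 < i →
        w (r + 1) * (w (r + 1) + (C r : L)) = (C (r + 1) : L) * w r) := by
  have hlate := h.late
  obtain ⟨w, hw1, hw2⟩ := ptb_build h hs hG P hP hlP (i - 1 - (I0 + 2 * K + 1)) (by omega)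
  refine ⟨w, fun r h1 h2 => ?_, fun r h1 h2 => hw2 r h1 (by omega)⟩
  have h3 := hw1 r h1 (by omega)
  exact ⟨h3.1, h3.2.1, h3.2.2.1, fun z hz => ptb_children P hP h3 z hz, h3.2.2.2.2⟩

end Pool.Agent.SYL
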