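import Pool.Agent.SYL.Defs
import Pool.Agent.SYL.LEVB
import Pool.Agent.SYL.POSR
import Pool.Agent.SYL.RLC
import Pool.Agent.SYL.VCH
import Pool.Agent.SYL.ORB
import Pool.Agent.SYL.TRN
import Pool.Agent.SYL.STP
import Pool.Agent.SYL.PTB
import Pool.Agent.SYL.INE

set_option autoImplicit false

namespace Pool.Agent.SYL

open NumberField

/-- There is a maximal ideal above `l`. -/
theorem ptc_maximal (L : Type) [Field L] [NumberField L] (l : ℕ) (hl : l.Prime) :
    ∃ P : Ideal (𝓞 L), P.IsMaximal ∧ ((l : ℕ) : 𝓞 L) ∈ P := by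
  have : Fact l.Prime := ⟨hl⟩
  have hmax : (Ideal.span {(l : ℤ)}).IsMaximal :=
    PrincipalIdealRing.isMaximal_of_irreducible (Nat.prime_iff_prime_int.1 hl).irreducible
  obtain ⟨P, hP, hlo⟩ := Ideal.exists_maximal_ideal_liesOver_of_isIntegral (S := 𝓞 L)
    (Ideal.span {(l : ℤ)})
  refine ⟨P, hP, ?_⟩
  have h1 : (l : ℤ) ∈ Ideal.span {(l : ℤ)} := Ideal.mem_span_singleton_self _
  rw [hlo.over] at h1
  have h2 : algebraMap ℤ (𝓞 L) (l : ℤ) ∈ P := h1
  rwa [map_natCast] at h2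

/-- No term of the chain lies in `P` before the hit. -/
private theorem ptc_notMem {q : ℕ} {C : ℕ → ℕ} {K I0 i l : ℕ} (h : Pat q C K I0 i l)
    {R : Type*} [CommRing R] (P : Ideal R) (hP : P.IsPrime) (hlP : ((l : ℕ) : R) ∈ P) :
    ∀ r, r < i → ∀ u ∈ Lev R q C r, u ∉ P := by
  intro r
  induction r with
  | zero =>
    intro _ u hu hmem
    rw [lev_zero] at hu
    have hu' : u = (q : R) := hu
    rw [hu'] at hmem
    exact h.notq (ptb_nat P hP h.prime hlP hmem)
  | succ r ih =>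
    intro hr u hu hmem
    obtain ⟨x, hx, hxu⟩ := lev_parent hu
    have h1 : (C (r + 1) : R) * x ∈ P := by
      rw [← hxu]
      exact P.mul_mem_right _ hmem
    rcases hP.mem_or_mem h1 with h2 | h2
    · exact h.first (r + 1) (by omega) hr (ptb_nat P hP h.prime hlP h2)
    · exact ih (by omega) x hx h2

private theorem ptc_mem_of_dvd {R : Type*} [CommRing R] {P : Ideal R} {l n : ℕ}
    (hlP : ((l : ℕ) : R) ∈ P) (hn : l ∣ n) : ((n : ℕ) : R) ∈ P := by
  obtain ⟨m, rfl⟩ := hn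
  push_cast
  exact P.mul_mem_right _ hlP

/-- If one child is moved by `σ` (which fixes the parent) then every child is. -/
private theorem ptc_moved {L : Type} [Field L] [NumberField L] (σ : L ≃ₐ[ℚ] L) {w y : L} {m n : ℕ}
    (hw : σ w = w) (hy : y * (y + (m : L)) = (n : L) * w) (hne : σ y ≠ y) (z : L)
    (hz : z * (z + (m : L)) = (n : L) * w) : σ z ≠ z := by
  rcases orb_roots hy hz with h1 | h1
  · rw [h1]
    exact hne
  · intro h2
    rw [h1, map_sub, map_neg, map_natCast] at h2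
    exact hne (sub_right_injective h2)

/-- The core: an inertia element moving the children of one child `x0` of `w (i-1)`, and fixing
those of the other one. -/
private theorem ptc_core {q : ℕ} {C : ℕ → ℕ} {K I0 i l : ℕ} (h : Pat q C K I0 i l)
    {L : Type} [Field L] [NumberField L] [IsGalois ℚ L] {φ : L →+* ℂ} {c : L ≃ₐ[ℚ] L}
    {v : ℕ → L} (hG : GalD q C i L φ c v) (P : Ideal (𝓞 L)) (hPm : P.IsMaximal)
    (hlP : ((l : ℕ) : 𝓞 L) ∈ P) {u : L} (hu : u ∈ Lev L q C (i - 1)) (hfu : InFix P u)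
    (hch : ∀ z : L, z * (z + (C (i - 1) : L)) = (C i : L) * u → InFix P z) :
    ∃ (x0 : L) (σ : L ≃ₐ[ℚ] L), x0 * (x0 + (C (i - 1) : L)) = (C i : L) * u ∧ Inert P σ ∧
      (∀ y : L, y * (y + (C i : L)) = (C (i + 1) : L) * x0 → σ y ≠ y) ∧
      (∀ y : L, y * (y + (C i : L)) = (C (i + 1) : L) * (-(C (i - 1) : L) - x0) → σ y = y) := by
  have hP : P.IsPrime := hPm.isPrime
  have hlate := h.late
  have hI0 := h.hI0
  have hi1 : i - 1 + 1 = i := by omega
  have hfull := hG.full (i - 1) (by omega) u hu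
  rw [hi1] at hfull
  obtain ⟨z0, hz0⟩ := hfull
  obtain ⟨u', hu', hu'u⟩ := lev_int hu
  have hu'P : u' ∉ P := ptc_notMem h P hP hlP (i - 1) (by omega) u' hu'
  have hCiP : ((C i : ℕ) : 𝓞 L) ∈ P := ptc_mem_of_dvd hlP h.hit
  -- the child in `P`
  have hex : ∃ x0 : 𝓞 L, (x0 : L) ∈ Lev L q C i ∧ x0 ∈ P ∧
      x0 * (x0 + (C (i - 1) : 𝓞 L)) = (C i : 𝓞 L) * u' := by
    have hlev : z0 ∈ Lev L q C i := by
      have := lev_child (j := i - 1) hu (y := z0) (by rw [hi1]; exact hz0)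
      rwa [hi1] at this
    have hz0' := orb_other hz0
    have hlev' : -(C (i - 1) : L) - z0 ∈ Lev L q C i := by
      have := lev_child (j := i - 1) hu (y := -(C (i - 1) : L) - z0) (by rw [hi1]; exact hz0')
      rwa [hi1] at this
    obtain ⟨a, ha, haz⟩ := lev_int hlev
    obtain ⟨a', ha', haz'⟩ := lev_int hlev'
    have haz2 : algebraMap (𝓞 L) L a = z0 := haz
    have haz2' : algebraMap (𝓞 L) L a' = -(C (i - 1) : L) - z0 := haz'
    have hu2 : algebraMap (𝓞 L) L u' = u := hu'u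
    have e1 : a * (a + (C (i - 1) : 𝓞 L)) = (C i : 𝓞 L) * u' := by
      apply ptb_ext
      simp only [map_add, map_mul, map_natCast, haz2, hu2]
      exact hz0
    have e1' : a' * (a' + (C (i - 1) : 𝓞 L)) = (C i : 𝓞 L) * u' := by
      apply ptb_ext
      simp only [map_add, map_mul, map_natCast, haz2', hu2]
      exact hz0'
    have e2 : a' = -(a + (C (i - 1) : 𝓞 L)) := by
      apply ptb_ext
      simp only [map_add, map_neg, map_natCast, haz2, haz2']
      ring
    have e3 : a * (a + (C (i - 1) : 𝓞 L)) ∈ P := by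
      rw [e1]
      exact P.mul_mem_right _ hCiP
    rcases hP.mem_or_mem e3 with e4 | e4
    · exact ⟨a, by rw [haz]; exact hlev, e4, e1⟩
    · refine ⟨a', by rw [haz']; exact hlev', ?_, e1'⟩
      rw [e2]
      exact P.neg_mem e4
  obtain ⟨x0, hx0l, hx0P, hx0⟩ := hex
  have hx0L : (x0 : L) * ((x0 : L) + (C (i - 1) : L)) = (C i : L) * u := by
    have := congrArg (algebraMap (𝓞 L) L) hx0
    have hu2 : algebraMap (𝓞 L) L u' = u := hu'u
    simp only [map_add, map_mul, map_natCast, hu2] at this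
    exact this
  have hfx0 : InFix P (x0 : L) := hch _ hx0L
  -- a child of x0
  obtain ⟨z, hz⟩ := hG.full i (by omega) _ hx0l
  have hzl : z ∈ Lev L q C (i + 1) := lev_child hx0l hz
  obtain ⟨z', hz'l, hz'⟩ := lev_int hzl
  have hz'2 : algebraMap (𝓞 L) L z' = z := hz'
  have hzO : z' * (z' + (C i : 𝓞 L)) = (C (i + 1) : 𝓞 L) * x0 := by
    apply ptb_ext
    simp only [map_add, map_mul, map_natCast, hz'2]
    exact hz
  obtain ⟨σ, hσ, hσz⟩ := exists_inertia_moving L P hPm l h.prime hlP (C i) (C (i + 1)) (C (i - 1))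
    h.hit h.hit2 h.next (h.first (i - 1) (by omega) (by omega)) x0 u' z' hu'P hx0P hx0 hzO hfx0
    (by rw [hu'u]; exact hfu)
  rw [hz'] at hσz
  refine ⟨x0, σ, hx0L, hσ, fun y hy => ptc_moved σ (hfx0 σ hσ) hz hσz y hy, fun y hy => ?_⟩
  -- children of x1
  have hx1L : (-(C (i - 1) : L) - (x0 : L)) * ((-(C (i - 1) : L) - (x0 : L)) + (C (i - 1) : L)) =
      (C i : L) * u := orb_other hx0L
  have hfx1 : InFix P (-(C (i - 1) : L) - (x0 : L)) := hch _ hx1L
  have hx1lev : (-(C (i - 1) : L) - (x0 : L)) ∈ Lev L q C i := by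
    have := lev_child (j := i - 1) hu (y := -(C (i - 1) : L) - (x0 : L)) (by rw [hi1]; exact hx1L)
    rwa [hi1] at this
  refine children_fixed (q := q) P hP (lev_isIntegral (lev_child hx1lev hy)) hfx1 hy ?_ σ hσ
  intro d hd hdP
  have hd2 : d = (C i : 𝓞 L) ^ 2 + 4 * (C (i + 1) : 𝓞 L) * (-(C (i - 1) : 𝓞 L) - x0) := by
    apply ptb_ext
    have hd3 : algebraMap (𝓞 L) L d = (C i : L) ^ 2 + 4 * (C (i + 1) : L) *
      (-(C (i - 1) : L) - (x0 : L)) := hd
    rw [hd3]
    simp only [map_add, map_sub, map_neg, map_mul, map_pow, map_natCast, map_ofNat]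
  have h1 : (4 : 𝓞 L) * (C (i + 1) : 𝓞 L) * (-(C (i - 1) : 𝓞 L) - x0) ∈ P := by
    have h2 : (C i : 𝓞 L) ^ 2 ∈ P := by
      rw [pow_two]
      exact P.mul_mem_left _ hCiP
    rw [hd2] at hdP
    exact (P.add_mem_iff_right h2).1 hdP
  have h4 : ((4 : ℕ) : 𝓞 L) ∉ P := by
    intro hmem
    have h5 := ptb_nat P hP h.prime hlP hmem
    have h6 : l ∣ 2 ^ 2 := h5
    have h7 := (Nat.prime_dvd_prime_iff_eq h.prime Nat.prime_two).1 (h.prime.dvd_of_dvd_pow h6)
    have h8 := h.two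
    omega
  rcases hP.mem_or_mem h1 with h2 | h2
  · rcases hP.mem_or_mem h2 with h3 | h3
    · exact h4 (by exact_mod_cast h3)
    · exact h.next (ptb_nat P hP h.prime hlP h3)
  · have h3 : (-(C (i - 1) : 𝓞 L)) ∈ P := (P.sub_mem_iff_left hx0P).1 h2
    have h5 : ((C (i - 1) : ℕ) : 𝓞 L) ∈ P := by
      rw [← P.neg_mem_iff]
      exact h3
    exact h.first (i - 1) (by omega) (by omega) (ptb_nat P hP h.prime hlP h5)

/-- Main local step: an inertia element with an asymmetry, in normalised form. -/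
theorem exists_asym {q : ℕ} {C : ℕ → ℕ} {K I0 i l : ℕ} (h : Pat q C K I0 i l)
    (hs : SepOK q C (I0 + 2 * K + 1) l)
    {L : Type} [Field L] [NumberField L] [IsGalois ℚ L] {φ : L →+* ℂ} {c : L ≃ₐ[ℚ] L}
    {v : ℕ → L} (hG : GalD q C i L φ c v) :
    ∃ (σ : L ≃ₐ[ℚ] L) (t : ℕ) (w : ℕ → L), I0 + 2 * K + 1 ≤ t ∧ t ≤ i ∧
      (∃ g : L ≃ₐ[ℚ] L, g (v t) = w t) ∧
      (∀ r, I0 + 2 * K + 1 ≤ r → r < t →
        w (r + 1) * (w (r + 1) + (C r : L)) = (C (r + 1) : L) * w r) ∧
      (∀ x ∈ Lev L q C (I0 + 2 * K + 1), σ x = x) ∧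
      (∀ r, I0 + 2 * K + 1 ≤ r → r ≤ t → σ (w r) = w r) ∧
      (∀ r, I0 + 2 * K + 1 ≤ r → r ≤ t → ∀ y : L,
        y * (y + (C r : L)) = (C (r + 1) : L) * (-(C (r - 1) : L) - w r) → σ y = y) ∧
      (∀ y : L, y * (y + (C t : L)) = (C (t + 1) : L) * w t → σ y ≠ y) := by
  classical
  obtain ⟨P, hPm, hlP⟩ := ptc_maximal L l h.prime
  have hP : P.IsPrime := hPm.isPrime
  obtain ⟨w, hw1, hw2⟩ := exists_path h hs hG P hP hlP
  have hlate := h.late
  have hi1 : i - 1 + 1 = i := by omega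
  set I1 := I0 + 2 * K + 1 with hI1
  obtain ⟨hwl, ⟨g0, hg0⟩, hwf, hwc, -⟩ := hw1 (i - 1) (by omega) (by omega)
  rw [hi1] at hwc
  obtain ⟨x0, σ, hx0, hσ, hmov, hfix⟩ := ptc_core h hG P hPm hlP hwl hwf hwc
  have hlevfix : ∀ x ∈ Lev L q C I1, σ x = x := fun x hx => ptb_lev_inFix hs P hP hlP hx σ hσ
  by_cases hS : ∃ r, (I1 ≤ r ∧ r < i) ∧ ∃ y : L,
      y * (y + (C r : L)) = (C (r + 1) : L) * (-(C (r - 1) : L) - w r) ∧ σ y ≠ y
  · -- the sibling branch is moved somewhere
    have hspec := Nat.find_spec hS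
    have hmin := fun r hr => Nat.find_min hS (m := r) hr
    set t := Nat.find hS with ht
    obtain ⟨⟨ht1, ht2⟩, y0, hy0, hy0m⟩ := hspec
    obtain ⟨htl, ⟨g, hg⟩, htf, htc, hts⟩ := hw1 t ht1 ht2
    obtain ⟨g1, hg1⟩ := exists_conj_sib h hG (r := t) ht1 ht2.le
    refine ⟨σ, t, fun r => if r = t then -(C (t - 1) : L) - w t else w r, ht1, ht2.le, ?_, ?_,
      hlevfix, ?_, ?_, ?_⟩
    · refine ⟨g * g1, ?_⟩
      beta_reduce
      rw [if_pos rfl, AlgEquiv.mul_apply, hg1, map_sub, map_neg, map_natCast, hg]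
    · intro r hr1 hr2
      beta_reduce
      rw [if_neg (by omega : ¬ r = t)]
      by_cases hrt : r + 1 = t
      · rw [if_pos hrt]
        have h1 := hw2 r hr1 (by omega)
        have h2 := orb_other h1
        have h3 : t - 1 = r := by omega
        rw [h3, ← hrt]
        exact h2
      · rw [if_neg hrt]
        exact hw2 r hr1 (by omega)
    · intro r hr1 hr2
      beta_reduce
      by_cases hrt : r = t
      · rw [if_pos hrt]
        exact hts σ hσ
      · rw [if_neg hrt]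
        exact (hw1 r hr1 (by omega)).2.2.1 σ hσ
    · intro r hr1 hr2 y hy
      beta_reduce at hy
      by_cases hrt : r = t
      · rw [if_pos hrt, hrt] at hy
        have e : -(C (t - 1) : L) - (-(C (t - 1) : L) - w t) = w t := by ring
        rw [e] at hy
        exact htc y hy σ hσ
      · rw [if_neg hrt] at hy
        by_contra hne
        exact hmin r (by omega) ⟨⟨hr1, by omega⟩, y, hy, hne⟩
    · intro y hy
      beta_reduce at hy
      rw [if_pos rfl] at hy
      exact ptc_moved σ (hts σ hσ) hy0 hy0m y hy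
  · -- no sibling branch is moved
    have hS' : ∀ r, I1 ≤ r → r < i → ∀ y : L,
        y * (y + (C r : L)) = (C (r + 1) : L) * (-(C (r - 1) : L) - w r) → σ y = y := by
      intro r hr1 hr2 y hy
      by_contra hne
      exact hS ⟨r, ⟨hr1, hr2⟩, y, hy, hne⟩
    have hx0' : x0 * (x0 + (C (i - 1) : L)) = (C (i - 1 + 1) : L) * g0 (v (i - 1)) := by
      rw [hi1, hg0]
      exact hx0
    obtain ⟨g', hg'⟩ := child_mem_orbit h hG (r := i - 1) (by omega) (by omega) hx0'
    rw [hi1] at hg'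
    refine ⟨σ, i, fun r => if r = i then x0 else w r, by omega, le_rfl, ?_, ?_, hlevfix, ?_, ?_,
      ?_⟩
    · exact ⟨g', by beta_reduce; rw [if_pos rfl]; exact hg'⟩
    · intro r hr1 hr2
      beta_reduce
      rw [if_neg (by omega : ¬ r = i)]
      by_cases hri : r + 1 = i
      · rw [if_pos hri]
        have h3 : r = i - 1 := by omega
        rw [hri, h3]
        exact hx0
      · rw [if_neg hri]
        exact hw2 r hr1 (by omega)
    · intro r hr1 hr2
      beta_reduce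
      by_cases hri : r = i
      · rw [if_pos hri]
        exact hwc x0 hx0 σ hσ
      · rw [if_neg hri]
        exact (hw1 r hr1 (by omega)).2.2.1 σ hσ
    · intro r hr1 hr2 y hy
      beta_reduce at hy
      by_cases hri : r = i
      · rw [if_pos hri, hri] at hy
        exact hfix y hy
      · rw [if_neg hri] at hy
        exact hS' r hr1 (by omega) y hy
    · intro y hy
      beta_reduce at hy
      rw [if_pos rfl] at hy
      exact hmov y hy

end Pool.Agent.SYL
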