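import Pool.Agent.SYL.Defs
import Pool.Agent.SYL.LEVB

set_option autoImplicit false

namespace Pool.Agent.SYL

open NumberField

private theorem fld_child (x b a : ℂ) : ∃ y : ℂ, y * (y + b) = a * x := by
  obtain ⟨s, hs⟩ := IsAlgClosed.exists_eq_mul_self (b ^ 2 + 4 * (a * x))
  refine ⟨(-b + s) / 2, ?_⟩
  have h : s * s = b ^ 2 + 4 * (a * x) := hs.symm
  linear_combination (1 / 4) * h

/-- There is a Galois number field, embedded in `ℂ`, containing the whole tree up to level `M`. -/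
theorem exists_field (q : ℕ) (C : ℕ → ℕ) (M : ℕ) (hC : ∀ j, j < M → 0 < C (j + 1)) :
    ∃ (L : Type) (_ : Field L) (_ : NumberField L) (_ : IsGalois ℚ L) (_φ : L →+* ℂ),
      Full L q C M := by
  classical
  have hfin : ∀ j, j ≤ M → (Lev ℂ q C j).Finite := fun j hj =>
    lev_finite ℂ q C j fun k hk => hC k (hk.trans_le hj)
  let S : Set ℂ := {x | ∃ j, j ≤ M ∧ x ∈ Lev ℂ q C j}
  have hS : S.Finite := by
    have h1 : S = ⋃ j ∈ Finset.range (M + 1), Lev ℂ q C j := by
      ext x
      simp only [S, Set.mem_ofPred_eq, Set.mem_iUnion, Finset.mem_range, exists_prop]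
      constructor
      · rintro ⟨j, hj, hx⟩
        exact ⟨j, by omega, hx⟩
      · rintro ⟨j, hj, hx⟩
        exact ⟨j, by omega, hx⟩
    rw [h1]
    exact Set.Finite.biUnion (Finset.finite_toSet _) fun j hj =>
      hfin j (by simpa [Nat.lt_succ_iff] using hj)
  have hint : ∀ x ∈ S, IsIntegral ℚ x := by
    rintro x ⟨j, _, hx⟩
    exact (lev_isIntegral hx).tower_top
  let p : Polynomial ℚ := ∏ x ∈ hS.toFinset, minpoly ℚ x
  have hp0 : p ≠ 0 := by
    rw [Finset.prod_ne_zero_iff]
    intro x hx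
    exact minpoly.ne_zero (hint x (by simpa using hx))
  let L : IntermediateField ℚ ℂ := IntermediateField.adjoin ℚ (p.rootSet ℂ)
  have hspl : (p.map (algebraMap ℚ ℂ)).Splits := IsAlgClosed.splits _
  have hsf : p.IsSplittingField ℚ L := IntermediateField.adjoin_rootSet_isSplittingField hspl
  have hfd : FiniteDimensional ℚ L := Polynomial.IsSplittingField.finiteDimensional L p
  have hnorm : Normal ℚ L := Normal.of_isSplittingField p
  have hNF : NumberField L := NumberField.mk
  have hgal : IsGalois ℚ L := { }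
  have hSL : ∀ x ∈ S, x ∈ L := by
    intro x hx
    apply IntermediateField.subset_adjoin
    rw [Polynomial.mem_rootSet]
    refine ⟨hp0, ?_⟩
    have h1 : minpoly ℚ x ∣ p := Finset.dvd_prod_of_mem _ (by simpa using hx)
    exact Polynomial.aeval_eq_zero_of_dvd_aeval_eq_zero h1 (minpoly.aeval ℚ x)
  refine ⟨L, inferInstance, hNF, hgal, algebraMap L ℂ, ?_⟩
  intro j hj x hx
  have hx' : ((x : L) : ℂ) ∈ Lev ℂ q C j := lev_map (algebraMap L ℂ) hx
  obtain ⟨y, hy⟩ := fld_child ((x : L) : ℂ) (C j : ℂ) (C (j + 1) : ℂ)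
  have hyL : y ∈ L := hSL y ⟨j + 1, hj, lev_child hx' hy⟩
  refine ⟨⟨y, hyL⟩, ?_⟩
  apply Subtype.ext
  push_cast
  exact hy

end Pool.Agent.SYL
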