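import Pool.Agent.SYL.Defs
import Pool.Agent.SYL.LEVB
import Pool.Agent.SYL.POSR
import Pool.Agent.SYL.FLD
import Pool.Agent.SYL.CCJ
import Pool.Agent.SYL.VCH
import Pool.Agent.SYL.DRG
import Pool.Agent.SYL.FRB

set_option autoImplicit false

/-!
KIL: assemble exists_field (M = i + 1), exists_conj, exists_chain, GalD, exists_derangement, not_summable_kill
(nonempty: v (i+1)).
-/

namespace Pool.Agent.SYL

open NumberField

/-- Main algebraic theorem: the killing primes of an irrational pattern have divergent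
reciprocal sum. -/
theorem kill_main {q : ℕ} {C : ℕ → ℕ} {K I0 i l : ℕ} (h : Pat q C K I0 i l)
    (hs : SepOK q C (I0 + 2 * K + 1) l) :
    ¬ Summable (Set.indicator (Kill q C (i + 1)) (fun p : ℕ => (1 : ℝ) / p)) := by
  have hC : ∀ j, j ≤ i → 0 < C (j + 1) := fun j hj => by
    have := h.mono j hj
    omega
  have hC' : ∀ j, j < i + 1 → 0 < C (j + 1) := fun j hj => hC j (by omega)
  obtain ⟨L, _, _, _, φ, hfull⟩ := exists_field q C (i + 1) hC'
  obtain ⟨c, hc⟩ := exists_conj L φ
  obtain ⟨v, hv1, hv2⟩ := exists_chain q C i h.hq hC L φ hfull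
  have hG : GalD q C i L φ c v := ⟨hfull, hc, hv1, hv2⟩
  obtain ⟨γ, hγ⟩ := exists_derangement h hs hG
  exact not_summable_kill hC' L hfull ⟨v (i + 1), hv1 (i + 1) le_rfl⟩ γ hγ

end Pool.Agent.SYL
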