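import Pool.Agent.SYL.Defs

set_option autoImplicit false

/-!
PGN: short. The intervals [I0 a, T a + 1], a = 0, ..., J, are disjoint and ordered. If each contains a jump index j a,
these J + 1 indices are pairwise different (j a <= T a + 1 < T a + 2 = I0 (a+1) <= j (a+1)) elements of the finite set
{i | Jump c n i} (i <= n), contradicting its cardinality (Set.ncard_le_ncard / Finset.card_le_card_of_injOn).
-/

namespace Pool.Agent.SYL

open NumberField

theorem pgn_mono (I0 T j : ℕ → ℕ) (J : ℕ) (hI : ∀ a, I0 (a + 1) = T a + 2)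
    (hj : ∀ a, a ≤ J → I0 a ≤ j a ∧ j a ≤ T a + 1) :
    ∀ b a, a < b → b ≤ J → j a < j b := by
  intro b
  induction b with
  | zero => intro a ha; omega
  | succ b ih =>
    intro a ha hb
    have h1 := (hj (b + 1) hb).1
    have h2 := (hj b (by omega)).2
    have h3 := hI b
    rcases Nat.lt_succ_iff_lt_or_eq.1 ha with h | h
    · have h4 := ih a h (by omega)
      omega
    · subst h
      omega

/-- One of `J + 1` consecutive scales is free of jumps. -/
theorem exists_no_jump (c : ℕ → ℕ) (n J : ℕ) (I0 T : ℕ → ℕ) (hI : ∀ a, I0 (a + 1) = T a + 2)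
    (hT : ∀ a, I0 a ≤ T a) (hJ : {i : ℕ | Jump c n i}.ncard ≤ J) :
    ∃ a, a ≤ J ∧ ∀ j, I0 a ≤ j → j ≤ T a + 1 → ¬ Jump c n j := by
  by_contra hcon
  push Not at hcon
  choose! j hj1 hj2 hj3 using hcon
  have hfin : {i : ℕ | Jump c n i}.Finite :=
    (Set.finite_Iic n).subset fun i hi => hi.2.1
  have hmono := pgn_mono I0 T j J hI (fun a ha => ⟨hj1 a ha, hj2 a ha⟩)
  have h1 : ((Finset.range (J + 1)).image j).card = J + 1 := by
    rw [Finset.card_image_of_injOn, Finset.card_range]
    intro a ha b hb hab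
    rw [Finset.coe_range, Set.mem_Iio] at ha hb
    by_contra hne
    rcases Nat.lt_or_gt_of_ne hne with h | h
    · have := hmono b a h (by omega)
      omega
    · have := hmono a b h (by omega)
      omega
  have h2 : (((Finset.range (J + 1)).image j : Finset ℕ) : Set ℕ) ⊆ {i : ℕ | Jump c n i} := by
    intro i hi
    rw [Finset.coe_image] at hi
    obtain ⟨a, ha, rfl⟩ := hi
    rw [Finset.coe_range, Set.mem_Iio] at ha
    exact hj3 a (by omega)
  have h3 := Set.ncard_le_ncard h2 hfin
  rw [Set.ncard_coe_finset, h1] at h3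
  omega

end Pool.Agent.SYL
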