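import Pool.Agent.SYL.Defs

set_option autoImplicit false

namespace Pool.Agent.SYL

open NumberField

theorem prb_dvd_later {c Q a : ℕ → ℕ} (h : Sys c Q a) {p m : ℕ} (hp : p ∣ a m) :
    ∀ n, m < n → p ∣ Q n := by
  intro n hn
  induction n, hn using Nat.le_induction with
  | base =>
    rw [Nat.succ_eq_add_one, h.recQ]
    exact Dvd.dvd.mul_right hp _
  | succ n hn ih =>
    rw [h.recQ]
    exact Dvd.dvd.mul_left ih _

/-- In a coprime system arbitrarily large primes divide some `Q m`, and then they never divide the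
later `c n`. -/
theorem exists_prime' {c Q a : ℕ → ℕ} (h : Sys c Q a) (hcop : ∀ n, Nat.Coprime (c n) (Q n))
    (B : ℕ) : ∃ p m : ℕ, p.Prime ∧ B < p ∧ ∀ n, m ≤ n → ¬ p ∣ c n := by
  have hprime : ∀ n, (Nat.minFac (a n)).Prime := fun n =>
    Nat.minFac_prime (by have := h.apos n; omega)
  have hnot : ∀ n p, p.Prime → p ∣ a n → ¬ p ∣ Q n := by
    intro n p hp hpa hpQ
    have h1 : p ∣ c (n + 1) + Q n := by
      rw [← h.reca]
      exact Dvd.dvd.mul_right hpa _
    have h2 : p ∣ c (n + 1) := (Nat.dvd_add_left hpQ).1 h1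
    have h3 : p ∣ Q (n + 1) := by
      rw [h.recQ]
      exact Dvd.dvd.mul_right hpa _
    have h4 := Nat.dvd_gcd h2 h3
    rw [hcop (n + 1)] at h4
    exact hp.one_lt.ne' (Nat.dvd_one.1 h4)
  have hinj : Function.Injective (fun n => Nat.minFac (a n)) := by
    have hlt : ∀ m n, m < n → Nat.minFac (a m) ≠ Nat.minFac (a n) := by
      intro m n hmn he
      apply hnot n (Nat.minFac (a n)) (hprime n) (Nat.minFac_dvd _)
      rw [← he]
      exact prb_dvd_later h (Nat.minFac_dvd _) n hmn
    intro m n he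
    rcases lt_trichotomy m n with h1 | h1 | h1
    · exact absurd he (hlt m n h1)
    · exact h1
    · exact absurd he.symm (hlt n m h1)
  obtain ⟨n, hn⟩ : ∃ n, B < Nat.minFac (a n) := by
    by_contra hcon
    push Not at hcon
    have hfin : (Set.range (fun n => Nat.minFac (a n))).Finite :=
      (Set.finite_le_nat B).subset (by rintro x ⟨n, rfl⟩; exact hcon n)
    exact Set.infinite_range_of_injective hinj hfin
  refine ⟨Nat.minFac (a n), n + 1, hprime n, hn, ?_⟩
  intro k hk hd
  have h1 := prb_dvd_later h (Nat.minFac_dvd (a n)) k (by omega)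
  have h4 := Nat.dvd_gcd hd h1
  rw [hcop k] at h4
  exact (hprime n).one_lt.ne' (Nat.dvd_one.1 h4)

end Pool.Agent.SYL
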