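import Pool.Agent.SYL.Defs
import Pool.Agent.SYL.POSR

set_option autoImplicit false

/-!
RAT: by pos_int all v j := pos j are positive integers. Put s j = C j / v j (j >= 1).
From v j (v j + C (j-1)) = C j v (j-1): s j - s (j-1) = v j / v (j-1) = C j / (v j + C (j-1))
>= C j / (v j + C j) = s j / (1 + s j). So s (j-1) <= s j ^2 / (1 + s j) <= s j ^2 when ..., i.e.
s j >= sqrt (s (j-1)); s 1 = sqrt (C 1 / q) >= 1 / sqrt B. Hence s j >= 1/2 once 2^j >= B (j >= B + 1
is plenty, 2^j > j), then the next one is >= 1, and from then on each step adds at least 1/2: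
s j >= 1 + (j - j1)/2 with j1 = B + 2. So s j >= j/4 and v j = C j / s j <= 4 K for j >= 2 (B + 2).
Next v j (v j - d j) = C j (v (j-1) - v j) with d j = C j - C (j-1). If v j < v (j-1) then the left side
is < v j^2 <= 16 K^2 and the right side >= C j >= j: impossible for j >= 16 K^2. So v is nondecreasing
on the range J1 = 2(B+2) + 16 K^2 + 1 <= j <= T and takes values in [1, 4K]: at most 4K changes.
By pigeonhole there are p + 1 consecutive indices with equal v (a block j0 .. j0 + p), and
v j = v (j-1) gives d j = v j =: s on it.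
-/

namespace Pool.Agent.SYL

open NumberField

/-- If the positive chain is rational up to depth `T`, and `T` is large, the pattern contains `p`
consecutive constant steps `s ≤ 4 K`. -/
theorem rat_run {q : ℕ} {C : ℕ → ℕ} {K B p T : ℕ} (hq : 0 < q) (hqB : q ≤ B) (hC0 : C 0 = 0)
    (hK : 1 ≤ K) (hmono : ∀ j, j < T → C j < C (j + 1)) (hlin : ∀ j, j ≤ T → C j ≤ K * j)
    (hT : 2 * (B + 2) + 16 * K ^ 2 + 2 + (4 * K + 2) * (p + 1) ≤ T)
    (hrat : ¬ Irrational (pos q C T)) :
    ∃ j0 s : ℕ, j0 + p ≤ T ∧ 1 ≤ s ∧ s ≤ 4 * K ∧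
      ∀ j, j0 < j → j ≤ j0 + p → C j = C (j - 1) + s := by
  have hCpos : ∀ j, j < T → 0 < C (j + 1) := fun j hj => lt_of_le_of_lt (Nat.zero_le _) (hmono j hj)
  obtain ⟨f, hf⟩ := pos_int hq hCpos hrat
  have hrec : ∀ j, j < T → f (j + 1) * (f (j + 1) + C j) = C (j + 1) * f j := by
    intro j hj
    have h := pos_rec hq hCpos j hj
    rw [(hf (j + 1) hj).2, (hf j hj.le).2] at h
    exact_mod_cast h
  have hf0 : f 0 = q := by
    have h := (hf 0 (Nat.zero_le _)).2
    rw [pos_zero] at h
    exact_mod_cast h.symm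
  have hfpos : ∀ j, j ≤ T → 0 < f j := fun j hj => (hf j hj).1
  clear hf hrat
  have hCge : ∀ j, j ≤ T → j ≤ C j := by
    intro j
    induction j with
    | zero => intro _; exact Nat.zero_le _
    | succ j ih =>
      intro hj
      have h1 := ih (by omega)
      have h2 := hmono j (by omega)
      omega
  -- the real sequence s
  set s : ℕ → ℝ := fun j => (C j : ℝ) / (f j : ℝ) with hs
  have hstep : ∀ j, j < T → s (j + 1) - s j = (f (j + 1) : ℝ) / f j ∧
      s (j + 1) / (1 + s (j + 1)) ≤ s (j + 1) - s j ∧ 0 < s (j + 1) := by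
    intro j hj
    have hfj : (0 : ℝ) < f j := by exact_mod_cast hfpos j hj.le
    have hfj1 : (0 : ℝ) < f (j + 1) := by exact_mod_cast hfpos (j + 1) hj
    have hCj1 : (0 : ℝ) < C (j + 1) := by exact_mod_cast hCpos j hj
    have hCj : (0 : ℝ) ≤ C j := by positivity
    have hCC : (C j : ℝ) ≤ C (j + 1) := by exact_mod_cast (hmono j hj).le
    have hr : (f (j + 1) : ℝ) * (f (j + 1) + C j) = C (j + 1) * f j := by
      exact_mod_cast hrec j hj
    have h1 : s (j + 1) - s j = (f (j + 1) : ℝ) / f j := by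
      simp only [hs]
      field_simp
      linear_combination -hr
    have hs1 : 0 < s (j + 1) := by simp only [hs]; positivity
    refine ⟨h1, ?_, hs1⟩
    rw [h1]
    have h2 : s (j + 1) / (1 + s (j + 1)) = (C (j + 1) : ℝ) / (f (j + 1) + C (j + 1)) := by
      simp only [hs]
      field_simp
    have h3 : (f (j + 1) : ℝ) / f j = (C (j + 1) : ℝ) / (f (j + 1) + C j) := by
      rw [div_eq_div_iff hfj.ne' (by positivity)]
      exact hr
    rw [h2, h3]
    exact div_le_div_of_nonneg_left hCj1.le (by positivity) (by linarith)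
  have hB1 : 1 ≤ B := by omega
  have hBr : (0 : ℝ) < B := by exact_mod_cast hB1
  have hsq : ∀ j, j < T → s j ≤ s (j + 1) ^ 2 / (1 + s (j + 1)) := by
    intro j hj
    obtain ⟨_, h2, h3⟩ := hstep j hj
    have h4 : s (j + 1) ^ 2 / (1 + s (j + 1)) = s (j + 1) - s (j + 1) / (1 + s (j + 1)) := by
      field_simp
      ring
    rw [h4]
    linarith
  have hmonos : ∀ j, j < T → s j ≤ s (j + 1) := by
    intro j hj
    obtain ⟨_, h2, h3⟩ := hstep j hj
    have : 0 ≤ s (j + 1) / (1 + s (j + 1)) := by positivity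
    linarith
  -- doubling
  have hA : ∀ j, j + 1 ≤ T → 1 / 2 ≤ s (j + 1) ∨ (2 : ℝ) ^ j / B ≤ s (j + 1) := by
    intro j
    induction j with
    | zero =>
      intro h1
      right
      have hT0 : 0 < T := h1
      have hr := hrec 0 hT0
      simp only [hC0, hf0, Nat.add_zero, Nat.zero_add] at hr
      -- f 1 ^ 2 = C 1 * q, s 1 = C 1 / f 1
      have hf1 : (0 : ℝ) < f 1 := by exact_mod_cast hfpos 1 h1
      have hC1 : (1 : ℝ) ≤ C 1 := by exact_mod_cast hCpos 0 hT0
      have hrr : (f 1 : ℝ) * f 1 = C 1 * q := by exact_mod_cast hr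
      have hqr : (q : ℝ) ≤ B := by exact_mod_cast hqB
      simp only [hs, pow_zero, Nat.zero_add]
      rw [div_le_div_iff₀ hBr hf1, one_mul]
      have hB1r : (1 : ℝ) ≤ B := by exact_mod_cast hB1
      by_contra hcon
      push Not at hcon
      have h5 : (C 1 : ℝ) * B * (C 1 * B) < f 1 * f 1 := by
        have h6 : (0 : ℝ) < C 1 * B := by positivity
        exact mul_lt_mul'' hcon hcon h6.le h6.le
      have h7 : (C 1 : ℝ) * q ≤ C 1 * B := by
        exact mul_le_mul_of_nonneg_left hqr (by linarith)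
      have h8 : (C 1 : ℝ) * B ≤ C 1 * B * (C 1 * B) := by
        have h9 : (1 : ℝ) ≤ C 1 * B := by nlinarith
        nlinarith
      linarith
    | succ j ih =>
      intro h1
      have h2 := ih (by omega)
      rcases h2 with h2 | h2
      · left
        exact h2.trans (hmonos (j + 1) h1)
      · by_cases h3 : 1 / 2 ≤ s (j + 1 + 1)
        · left; exact h3
        · right
          push Not at h3
          have h4 := hsq (j + 1) h1
          obtain ⟨_, _, h5⟩ := hstep (j + 1) h1
          have h6 : s (j + 1 + 1) ^ 2 / (1 + s (j + 1 + 1)) ≤ s (j + 1 + 1) / 2 := by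
            rw [div_le_div_iff₀ (by positivity) (by norm_num)]
            nlinarith
          have h7 : (2 : ℝ) ^ (j + 1) / B = 2 * ((2 : ℝ) ^ j / B) := by
            rw [pow_succ]; ring
          rw [h7]
          linarith
  have hhalf : 1 / 2 ≤ s B := by
    obtain ⟨b, rfl⟩ : ∃ b, B = b + 1 := ⟨B - 1, by omega⟩
    rcases hA b (by nlinarith [Nat.zero_le (16 * K ^ 2 + 2 + (4 * K + 2) * (p + 1))]) with h | h
    · exact h
    · refine le_trans ?_ h
      have h2 : b + 1 ≤ 2 ^ b := Nat.lt_two_pow_self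
      have h3 : ((b + 1 : ℕ) : ℝ) ≤ 2 ^ b := by exact_mod_cast h2
      rw [div_le_div_iff₀ (by norm_num) hBr]
      have h4 : (0 : ℝ) < 2 ^ b := by positivity
      linarith
  have hBT : 2 * B + 4 ≤ T := by
    have := Nat.zero_le (16 * K ^ 2 + 2 + (4 * K + 2) * (p + 1))
    omega
  have hone : 1 ≤ s (B + 1) := by
    have h1 := hsq B (by omega)
    obtain ⟨_, _, h3⟩ := hstep B (by omega)
    have h4 : 1 / 2 ≤ s (B + 1) ^ 2 / (1 + s (B + 1)) := hhalf.trans h1
    rw [div_le_div_iff₀ (by norm_num) (by positivity)] at h4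
    nlinarith
  have hlinS : ∀ k, B + 1 + k ≤ T → 1 + (k : ℝ) / 2 ≤ s (B + 1 + k) := by
    intro k
    induction k with
    | zero => intro _; simpa using hone
    | succ k ih =>
      intro hk
      have h1 := ih (by omega)
      obtain ⟨_, h2, h3⟩ := hstep (B + 1 + k) (by omega)
      have h4 : 1 ≤ s (B + 1 + k + 1) := by
        have := hmonos (B + 1 + k) (by omega)
        have h5 : (0 : ℝ) ≤ k := by positivity
        linarith
      have h5 : 1 / 2 ≤ s (B + 1 + k + 1) / (1 + s (B + 1 + k + 1)) := by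
        rw [div_le_div_iff₀ (by norm_num) (by positivity)]
        linarith
      have h6 : B + 1 + (k + 1) = B + 1 + k + 1 := by ring
      rw [h6]
      push_cast
      linarith
  have hf4 : ∀ j, 2 * (B + 2) ≤ j → j ≤ T → f j ≤ 4 * K := by
    intro j hj hjT
    obtain ⟨k, rfl⟩ : ∃ k, j = B + 1 + k := ⟨j - (B + 1), by omega⟩
    have h1 := hlinS k hjT
    have h2 : (0 : ℝ) < f (B + 1 + k) := by exact_mod_cast hfpos _ hjT
    have h3 : s (B + 1 + k) * f (B + 1 + k) = C (B + 1 + k) := by
      simp only [hs]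
      field_simp
    have h4 : (C (B + 1 + k) : ℝ) ≤ K * (B + 1 + k : ℕ) := by exact_mod_cast hlin _ hjT
    have h5 : ((B + 1 + k : ℕ) : ℝ) / 4 ≤ s (B + 1 + k) := by
      refine le_trans ?_ h1
      have h6 : (B : ℝ) + 3 ≤ k := by
        have : B + 3 ≤ k := by omega
        exact_mod_cast this
      push_cast
      linarith
    have h7 : ((B + 1 + k : ℕ) : ℝ) / 4 * f (B + 1 + k) ≤ K * (B + 1 + k : ℕ) := by
      calc ((B + 1 + k : ℕ) : ℝ) / 4 * f (B + 1 + k) ≤ s (B + 1 + k) * f (B + 1 + k) :=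
            mul_le_mul_of_nonneg_right h5 h2.le
        _ = C (B + 1 + k) := h3
        _ ≤ _ := h4
    have h8 : (0 : ℝ) < ((B + 1 + k : ℕ) : ℝ) := by
      have : 0 < B + 1 + k := by omega
      exact_mod_cast this
    have h9 : (f (B + 1 + k) : ℝ) ≤ 4 * K := by
      by_contra hcon
      push Not at hcon
      nlinarith
    exact_mod_cast h9
  -- nondecreasing
  have hfm : ∀ j, 2 * (B + 2) ≤ j → 16 * K ^ 2 ≤ j → j < T → f j ≤ f (j + 1) := by
    intro j hj1 hj2 hjT
    by_contra hcon
    push Not at hcon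
    have h1 := hrec j hjT
    have h2 := hf4 (j + 1) (by omega) hjT
    have h3 := hCge (j + 1) hjT
    have h4 := hmono j hjT
    have h5 : C (j + 1) * (f (j + 1) + 1) ≤ C (j + 1) * f j := Nat.mul_le_mul_left _ hcon
    rw [← h1] at h5
    have h6 : f (j + 1) * f (j + 1) ≤ 16 * K ^ 2 := by
      calc f (j + 1) * f (j + 1) ≤ (4 * K) * (4 * K) := Nat.mul_le_mul h2 h2
        _ = 16 * K ^ 2 := by ring
    have h7 : f (j + 1) * C j ≤ f (j + 1) * C (j + 1) := Nat.mul_le_mul_left _ h4.le
    nlinarith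
  set J1 := 2 * (B + 2) + 16 * K ^ 2 + 1 with hJ1
  have hfm2 : ∀ i j, J1 ≤ i → i ≤ j → j ≤ T → f i ≤ f j := by
    intro i j hi hij
    induction j, hij using Nat.le_induction with
    | base => intro _; exact le_rfl
    | succ j hij ih =>
      intro hj
      exact (ih (by omega)).trans (hfm j (by omega) (by omega) (by omega))
  -- pigeonhole
  have hbT : J1 + (4 * K + 1) * (p + 1) ≤ T := by
    have : (4 * K + 2) * (p + 1) = (4 * K + 1) * (p + 1) + (p + 1) := by ring
    omega
  have hpig : ∃ k, k < 4 * K ∧ f (J1 + k * (p + 1)) = f (J1 + (k + 1) * (p + 1)) := by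
    by_contra hcon
    push Not at hcon
    have hle : ∀ k, k ≤ 4 * K → J1 + k * (p + 1) ≤ T := by
      intro k hk
      have : k * (p + 1) ≤ (4 * K + 1) * (p + 1) := Nat.mul_le_mul_right _ (by omega)
      omega
    have h1 : ∀ k, k ≤ 4 * K → k + 1 ≤ f (J1 + k * (p + 1)) := by
      intro k
      induction k with
      | zero =>
        intro hk
        have := hfpos (J1 + 0 * (p + 1)) (hle 0 hk)
        omega
      | succ k ih =>
        intro hk
        have h2 := ih (by omega)
        have h3 := hcon k (by omega)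
        have h4 : f (J1 + k * (p + 1)) ≤ f (J1 + (k + 1) * (p + 1)) :=
          hfm2 _ _ (by omega) (by
            have : k * (p + 1) ≤ (k + 1) * (p + 1) := Nat.mul_le_mul_right _ (by omega)
            omega) (hle (k + 1) hk)
        omega
    have h2 := h1 (4 * K) le_rfl
    have h3 := hf4 (J1 + 4 * K * (p + 1)) (by omega) (hle (4 * K) le_rfl)
    omega
  obtain ⟨k, hk, hfk⟩ := hpig
  have hend : J1 + (k + 1) * (p + 1) ≤ T := by
    have : (k + 1) * (p + 1) ≤ (4 * K + 1) * (p + 1) := Nat.mul_le_mul_right _ (by omega)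
    omega
  have hkk : J1 + (k + 1) * (p + 1) = J1 + k * (p + 1) + p + 1 := by ring
  have hconst : ∀ j, J1 + k * (p + 1) ≤ j → j ≤ J1 + k * (p + 1) + p →
      f j = f (J1 + k * (p + 1)) := by
    intro j h1 h2
    have h3 := hfm2 _ j (by omega) h1 (by omega)
    have h4 := hfm2 j (J1 + (k + 1) * (p + 1)) (by omega) (by omega) hend
    omega
  refine ⟨J1 + k * (p + 1), f (J1 + k * (p + 1)), by omega, hfpos _ (by omega),
    hf4 _ (by omega) (by omega), ?_⟩
  intro j hj1 hj2
  obtain ⟨i, rfl⟩ : ∃ i, j = i + 1 := ⟨j - 1, by omega⟩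
  have h1 := hrec i (by omega)
  rw [hconst i (by omega) (by omega), hconst (i + 1) (by omega) hj2] at h1
  have h2 := hfpos (J1 + k * (p + 1)) (by omega)
  have h3 : f (J1 + k * (p + 1)) * (f (J1 + k * (p + 1)) + C i) =
      f (J1 + k * (p + 1)) * C (i + 1) := by rw [h1]; ring
  have h4 := Nat.eq_of_mul_eq_mul_left h2 h3
  simp only [Nat.add_sub_cancel]
  omega

end Pool.Agent.SYL
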