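import Pool.Agent.SYL.Defs
import Pool.Agent.SYL.BLK
import Pool.Agent.SYL.RAT

set_option autoImplicit false

/-!
RNB: irrationality of the positive chain, block version.
-/

namespace Pool.Agent.SYL

open NumberField

/-- A run of `p` constant steps meets a multiple of `p` (increasing or decreasing). -/
theorem run_hits_block (f : ℕ → ℕ) (p s : ℕ) (hp : p.Prime) (hs : ¬ p ∣ s)
    (hrun : (∀ j, j < p → f j = f 0 + j * s) ∨ (∀ j, j < p → f j + j * s = f 0)) :
    ∃ j, j < p ∧ p ∣ f j := by
  have : Fact p.Prime := ⟨hp⟩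
  have hs0 : (s : ZMod p) ≠ 0 := by
    rw [Ne, ZMod.natCast_eq_zero_iff]
    exact hs
  rcases hrun with h | h
  · set z : ZMod p := -(f 0 : ZMod p) * (s : ZMod p)⁻¹ with hz
    refine ⟨z.val, ZMod.val_lt z, ?_⟩
    rw [← ZMod.natCast_eq_zero_iff, h _ (ZMod.val_lt z)]
    push_cast
    rw [ZMod.natCast_zmod_val, hz, mul_assoc, inv_mul_cancel₀ hs0]
    ring
  · set z : ZMod p := (f 0 : ZMod p) * (s : ZMod p)⁻¹ with hz
    refine ⟨z.val, ZMod.val_lt z, ?_⟩
    rw [← ZMod.natCast_eq_zero_iff]
    have h1 : ((f z.val + z.val * s : ℕ) : ZMod p) = (f 0 : ZMod p) := by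
      rw [h _ (ZMod.val_lt z)]
    push_cast at h1
    rw [ZMod.natCast_zmod_val] at h1
    have h2 : z * (s : ZMod p) = (f 0 : ZMod p) := by
      rw [hz, mul_assoc, inv_mul_cancel₀ hs0, mul_one]
    rw [h2] at h1
    linear_combination h1

/-- In a coprime system the positive chain is irrational at depth `T`, block version. -/
theorem irr_block {c b : ℕ → ℕ} (hb : StrictMono b) {K B p m1 u N n T : ℕ}
    (hrel : Rel c b u N) (hnN : n ≤ N) (hTn : T ≤ n) (hp : p.Prime)
    (hpK : 4 * K < p) (hK : 1 ≤ K) (hm : ∀ n, m1 ≤ n → ¬ p ∣ c n) (hu : m1 ≤ u)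
    (hq : b (n + 1) - b n ≤ B) (hlin : ∀ i, 1 ≤ i → i ≤ n → b n - b (n - i) ≤ K * i)
    (hT : 2 * (B + 2) + 16 * K ^ 2 + 2 + (4 * K + 2) * (p + 1) ≤ T) :
    Irrational (pos (b (n + 1) - b n) (fun j => b n - b (n - j)) T) := by
  by_contra hrat
  have hq0 : 0 < b (n + 1) - b n := by
    have := hb (Nat.lt_succ_self n)
    simp only [Nat.succ_eq_add_one] at this
    omega
  obtain ⟨j0, s, hj0, hs1, hs2, hst⟩ := rat_run (q := b (n + 1) - b n)
    (C := fun j => b n - b (n - j)) (K := K) (B := B) (p := p) (T := T) hq0 hq (by simp) hK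
    (fun j hj => by
      show b n - b (n - j) < b n - b (n - (j + 1))
      have h1 : b (n - (j + 1)) < b (n - j) := hb (by omega)
      have h2 : b (n - j) ≤ b n := hb.monotone (by omega)
      omega)
    (fun j hj => by
      rcases Nat.eq_zero_or_pos j with h0 | h0
      · subst h0; simp
      · exact hlin j h0 (by omega)) hT hrat
  have hst' : ∀ j, j0 < j → j ≤ j0 + p → b (n - (j - 1)) = b (n - j) + s := by
    intro j h1 h2
    have h3 : b n - b (n - j) = b n - b (n - (j - 1)) + s := hst j h1 h2
    have h4 : b (n - (j - 1)) ≤ b n := hb.monotone (by omega)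
    have h5 : b (n - j) ≤ b (n - (j - 1)) := hb.monotone (by omega)
    omega
  -- ascending form
  set m := n - (j0 + p) with hmdef
  have hasc : ∀ k, k ≤ p → b (m + k) = b m + k * s := by
    intro k
    induction k with
    | zero => intro _; simp
    | succ k ih =>
      intro hk
      have h1 := hst' (j0 + p - k) (by omega) (by omega)
      have e1 : n - (j0 + p - k - 1) = m + (k + 1) := by omega
      have e2 : n - (j0 + p - k) = m + k := by omega
      rw [e1, e2, ih (by omega)] at h1
      rw [h1]
      ring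
  have hps : ¬ p ∣ s := by
    intro hd
    have := Nat.le_of_dvd (by omega) hd
    omega
  have hrun : (∀ j, j < p → c (u + m + j) = c (u + m) + j * s) ∨
      (∀ j, j < p → c (u + m + j) + j * s = c (u + m)) := by
    rcases hrel with hr | hr
    · left
      intro j hj
      have e : u + m + j = u + (m + j) := by omega
      rw [e, hr (m + j) (by omega), hr m (by omega), hasc j hj.le]
      ring
    · right
      intro j hj
      have e : u + m + j = u + (m + j) := by omega
      have h1 := hr (m + j) (by omega)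
      have h2 := hr m (by omega)
      rw [hasc j hj.le] at h1
      rw [e]
      omega
  obtain ⟨j, hj, hd⟩ := run_hits_block (fun j => c (u + m + j)) p s hp hps hrun
  exact hm (u + m + j) (by omega) hd

end Pool.Agent.SYL
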