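import Pool.Agent.SYL.Defs

set_option autoImplicit false

/-!
DEN: choose a finite subset p_1, ..., p_k of S with prod (1 - 1/p_j) < ε/2 (divergence, 1 - x <= exp (-x)). With
N = prod p_j, the number of m in a block of N consecutive integers prime to all p_j is N prod (1 - 1/p_j) (totient, Nat.Coprime m N;
Nat.filter_coprime_Ico_eq_totient, Nat.totient_eq_mul_prod_factors or similar), so the count up to X is <= (X/N + 1) N ε/2 <= ε X for X >= N * something.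
-/

namespace Pool.Agent.SYL

open NumberField

theorem DEN_finite (S : Set ℕ) (X : ℕ) : {m : ℕ | m ∈ S ∧ 1 ≤ m ∧ m ≤ X}.Finite :=
  (Set.finite_Icc 1 X).subset fun _ hm => hm.2

theorem DEN_totient (F : Finset ℕ) (hF : ∀ p ∈ F, p.Prime) :
    ((Nat.totient (∏ p ∈ F, p) : ℕ) : ℝ) = (∏ p ∈ F, (p : ℝ)) * ∏ p ∈ F, (1 - 1 / (p : ℝ)) := by
  classical
  induction F using Finset.induction_on with
  | empty => simp
  | insert q F hq ih =>
    have hqp : q.Prime := hF q (Finset.mem_insert_self _ _)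
    have hF' : ∀ p ∈ F, p.Prime := fun p hp => hF p (Finset.mem_insert_of_mem hp)
    rw [Finset.prod_insert hq, Finset.prod_insert hq, Finset.prod_insert hq]
    have hcop : Nat.Coprime q (∏ p ∈ F, p) := by
      apply Nat.Coprime.prod_right
      intro p hp
      refine (Nat.coprime_primes hqp (hF' p hp)).2 ?_
      rintro rfl
      exact hq hp
    rw [Nat.totient_mul hcop, Nat.cast_mul, ih hF', Nat.totient_prime hqp,
      Nat.cast_sub hqp.one_lt.le]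
    have hq0 : (q : ℝ) ≠ 0 := by exact_mod_cast hqp.pos.ne'
    field_simp
    push_cast
    ring

/-- Integers without prime factor in a set of primes with divergent reciprocal sum have density 0. -/
theorem dens_zero_of_not_summable (S : Set ℕ) (hS : ∀ p ∈ S, p.Prime)
    (hdiv : ¬ Summable (Set.indicator S (fun p : ℕ => (1 : ℝ) / p))) :
    Dens0 {m : ℕ | ∀ p ∈ S, ¬ p ∣ m} := by
  classical
  intro ε hε
  have hnn : ∀ n, 0 ≤ Set.indicator S (fun p : ℕ => (1 : ℝ) / p) n := fun n =>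
    Set.indicator_nonneg (fun p _ => by positivity) n
  have htend := (not_summable_iff_tendsto_nat_atTop_of_nonneg hnn).1 hdiv
  obtain ⟨n, hn⟩ := (htend.eventually_gt_atTop (-Real.log (ε / 2))).exists
  let F : Finset ℕ := (Finset.range n).filter (· ∈ S)
  have hFp : ∀ p ∈ F, p.Prime := fun p hp => hS p (Finset.mem_filter.1 hp).2
  have hsum : ∑ i ∈ Finset.range n, Set.indicator S (fun p : ℕ => (1 : ℝ) / p) i
      = ∑ p ∈ F, (1 : ℝ) / p := by
    simp only [F]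
    rw [Finset.sum_filter]
    exact Finset.sum_congr rfl fun i _ => by rw [Set.indicator_apply]
  rw [hsum] at hn
  have hprod : ∏ p ∈ F, (1 - 1 / (p : ℝ)) ≤ ε / 2 := by
    have h1 : ∏ p ∈ F, (1 - 1 / (p : ℝ)) ≤ ∏ p ∈ F, Real.exp (-(1 / (p : ℝ))) := by
      apply Finset.prod_le_prod
      · intro p hp
        have h2 : (1 : ℝ) ≤ p := by exact_mod_cast (hFp p hp).one_lt.le
        have h3 : 1 / (p : ℝ) ≤ 1 := by rw [div_le_one (by linarith)]; exact h2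
        linarith
      · intro p _
        have := Real.add_one_le_exp (-(1 / (p : ℝ)))
        linarith
    rw [← Real.exp_sum, Finset.sum_neg_distrib] at h1
    refine h1.trans ?_
    have h4 : -∑ p ∈ F, (1 : ℝ) / p ≤ Real.log (ε / 2) := by linarith
    calc Real.exp (-∑ p ∈ F, (1 : ℝ) / p) ≤ Real.exp (Real.log (ε / 2)) := Real.exp_le_exp.2 h4
      _ = ε / 2 := Real.exp_log (by positivity)
  let N : ℕ := ∏ p ∈ F, p
  have hN : 0 < N := Finset.prod_pos fun p hp => (hFp p hp).pos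
  have hφ : ((Nat.totient N : ℕ) : ℝ) ≤ ε / 2 * N := by
    simp only [N]
    rw [DEN_totient F hFp]
    push_cast
    rw [mul_comm]
    exact mul_le_mul_of_nonneg_right hprod (Finset.prod_nonneg fun p _ => by positivity)
  refine ⟨N, fun X hX => ?_⟩
  have hsub : {m : ℕ | m ∈ {m : ℕ | ∀ p ∈ S, ¬ p ∣ m} ∧ 1 ≤ m ∧ m ≤ X}
      ⊆ (((Finset.Ico 1 (1 + X)).filter (fun x => N.Coprime x) : Finset ℕ) : Set ℕ) := by
    rintro m ⟨hm, h1, h2⟩
    rw [Finset.mem_coe, Finset.mem_filter, Finset.mem_Ico]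
    refine ⟨⟨h1, by omega⟩, ?_⟩
    apply Nat.Coprime.prod_left
    intro p hp
    exact (Nat.Prime.coprime_iff_not_dvd (hFp p hp)).2 (hm p (Finset.mem_filter.1 hp).2)
  have hcard : {m : ℕ | m ∈ {m : ℕ | ∀ p ∈ S, ¬ p ∣ m} ∧ 1 ≤ m ∧ m ≤ X}.ncard
      ≤ Nat.totient N * (X / N + 1) := by
    have h1 := Set.ncard_le_ncard hsub (Finset.finite_toSet _)
    rw [Set.ncard_coe_finset] at h1
    exact h1.trans (Nat.Ico_filter_coprime_le 1 X hN.ne')
  have h1 : (((Nat.totient N * (X / N + 1) : ℕ)) : ℝ) ≤ ε * X := by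
    push_cast
    have h2 : ((X / N : ℕ) : ℝ) ≤ X / N := Nat.cast_div_le
    have hN' : (0 : ℝ) < N := by exact_mod_cast hN
    have h3 : (N : ℝ) ≤ X := by exact_mod_cast hX
    have h4 : (1 : ℝ) ≤ X / N := by rw [le_div_iff₀ hN']; linarith
    calc ((Nat.totient N : ℕ) : ℝ) * (((X / N : ℕ) : ℝ) + 1)
        ≤ (ε / 2 * N) * (X / N + X / N) := by
          apply mul_le_mul hφ (by linarith) (by positivity) (by positivity)
      _ = ε * X := by field_simp; ring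
  calc (({m : ℕ | m ∈ {m : ℕ | ∀ p ∈ S, ¬ p ∣ m} ∧ 1 ≤ m ∧ m ≤ X}.ncard : ℕ) : ℝ)
      ≤ (((Nat.totient N * (X / N + 1) : ℕ)) : ℝ) := by exact_mod_cast hcard
    _ ≤ ε * X := h1

theorem dens0_mono {S T : Set ℕ} (h : S ⊆ T) (hT : Dens0 T) : Dens0 S := by
  intro ε hε
  obtain ⟨X0, hX0⟩ := hT ε hε
  refine ⟨X0, fun X hX => le_trans ?_ (hX0 X hX)⟩
  have h1 : {m : ℕ | m ∈ S ∧ 1 ≤ m ∧ m ≤ X}.ncard ≤ {m : ℕ | m ∈ T ∧ 1 ≤ m ∧ m ≤ X}.ncard :=
    Set.ncard_le_ncard (fun m hm => ⟨h hm.1, hm.2⟩) (DEN_finite T X)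
  exact_mod_cast h1

theorem DEN_union2 {S T : Set ℕ} (hS : Dens0 S) (hT : Dens0 T) : Dens0 (S ∪ T) := by
  intro ε hε
  obtain ⟨X0, hX0⟩ := hS (ε / 2) (by positivity)
  obtain ⟨X1, hX1⟩ := hT (ε / 2) (by positivity)
  refine ⟨max X0 X1, fun X hX => ?_⟩
  have h1 := hX0 X (le_trans (le_max_left _ _) hX)
  have h2 := hX1 X (le_trans (le_max_right _ _) hX)
  have h3 : {m : ℕ | m ∈ S ∪ T ∧ 1 ≤ m ∧ m ≤ X}.ncard
      ≤ {m : ℕ | m ∈ S ∧ 1 ≤ m ∧ m ≤ X}.ncard + {m : ℕ | m ∈ T ∧ 1 ≤ m ∧ m ≤ X}.ncard := by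
    refine le_trans (Set.ncard_le_ncard ?_ ((DEN_finite S X).union (DEN_finite T X)))
      (Set.ncard_union_le _ _)
    rintro m ⟨hm | hm, h4⟩
    · exact Or.inl ⟨hm, h4⟩
    · exact Or.inr ⟨hm, h4⟩
  have h4 : (({m : ℕ | m ∈ S ∪ T ∧ 1 ≤ m ∧ m ≤ X}.ncard : ℕ) : ℝ)
      ≤ ({m : ℕ | m ∈ S ∧ 1 ≤ m ∧ m ≤ X}.ncard : ℕ)
        + ({m : ℕ | m ∈ T ∧ 1 ≤ m ∧ m ≤ X}.ncard : ℕ) := by exact_mod_cast h3
  linarith

theorem dens0_union {ι : Type*} (t : Finset ι) (f : ι → Set ℕ) (h : ∀ x ∈ t, Dens0 (f x)) :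
    Dens0 {m : ℕ | ∃ x ∈ t, m ∈ f x} := by
  classical
  induction t using Finset.induction_on with
  | empty =>
    intro ε hε
    refine ⟨0, fun X _ => ?_⟩
    have h1 : {m : ℕ | m ∈ {m : ℕ | ∃ x ∈ (∅ : Finset ι), m ∈ f x} ∧ 1 ≤ m ∧ m ≤ X} = ∅ := by
      ext m
      simp
    rw [h1, Set.ncard_empty]
    simp only [Nat.cast_zero]
    positivity
  | insert x t hx ih =>
    refine dens0_mono ?_ (DEN_union2 (h x (Finset.mem_insert_self _ _))
      (ih fun y hy => h y (Finset.mem_insert_of_mem hy)))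
    rintro m ⟨y, hy, hm⟩
    rcases Finset.mem_insert.1 hy with rfl | hy
    · exact Or.inl hm
    · exact Or.inr ⟨y, hy, hm⟩

end Pool.Agent.SYL
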