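import Pool.Agent.SYL.Defs
import Pool.Agent.SYL.LEVB
import Pool.Agent.SYL.SEP
import Pool.Agent.SYL.DEN

set_option autoImplicit false

/-!
UNI: uniformity over the finitely many patterns. For f : Fin (I+1) -> Fin (K * I + 1) let C_f j = f j for j <= I and
0 for j > I. `sep_uniform`: for every q <= B and every f for which (C_f j) is strictly increasing on [0, I] take D (q, f) from
exists_sep (strict increase gives 0 < C_f (j+1)); D = the sum (or sup) over the finite set of pairs. Given C, put f j = C j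
(C j <= K j <= K I); C = C_f on [0, I]; sepOK_congr transports the conclusion.
`kill_uniform`: S = union over q <= B, M <= M0, f : Fin (M0+1) -> Fin (K * M0 + 1) with non-summable kill set of the set of all m with
no prime factor in Kill q C_f M (dens_zero_of_not_summable, dens0_union over the finite index set; for the triples with summable kill set take
the empty set). Given C and M, put f j = C j for j <= M and 0 for j > M; kill_congr.
-/

namespace Pool.Agent.SYL

open NumberField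

/-- the pattern of a finite function -/
def uniC {m n : ℕ} (f : Fin m → Fin n) (j : ℕ) : ℕ := if h : j < m then (f ⟨j, h⟩ : ℕ) else 0

theorem exists_uniC (K M0 M : ℕ) (hM : M ≤ M0) (C : ℕ → ℕ) (hC : ∀ j, j ≤ M → C j ≤ K * j) :
    ∃ f : Fin (M0 + 1) → Fin (K * M0 + 1), ∀ j, j ≤ M → C j = uniC f j := by
  refine ⟨fun j => ⟨if (j : ℕ) ≤ M then C j else 0, ?_⟩, fun j hj => ?_⟩
  · split_ifs with h
    · have h1 := hC j h
      have h2 : K * (j : ℕ) ≤ K * M0 := Nat.mul_le_mul_left K (h.trans hM)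
      omega
    · omega
  · unfold uniC
    rw [dif_pos (by omega : j < M0 + 1)]
    simp [hj]

/-- A bound for separating primes which is uniform in the pattern. -/
theorem sep_uniform (B K I : ℕ) : ∃ D : ℕ, ∀ q : ℕ, q ≤ B → ∀ C : ℕ → ℕ,
    (∀ j, j < I → C j < C (j + 1)) → (∀ j, j ≤ I → C j ≤ K * j) →
    ∀ l : ℕ, l.Prime → D < l → SepOK q C I l := by
  classical
  have hex : ∀ (q : ℕ) (f : Fin (I + 1) → Fin (K * I + 1)), ∃ D : ℕ,
      (∀ j, j < I → 0 < uniC f (j + 1)) → ∀ l : ℕ, l.Prime → D < l → SepOK q (uniC f) I l := by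
    intro q f
    by_cases h : ∀ j, j < I → 0 < uniC f (j + 1)
    · obtain ⟨D, hD⟩ := exists_sep q (uniC f) I h
      exact ⟨D, fun _ => hD⟩
    · exact ⟨0, fun h' => absurd h' h⟩
  choose D hD using hex
  refine ⟨∑ q ∈ Finset.range (B + 1), ∑ f : Fin (I + 1) → Fin (K * I + 1), D q f, ?_⟩
  intro q hq C hinc hle l hl hlt
  obtain ⟨f, hf⟩ := exists_uniC K I I le_rfl C hle
  have h1 : D q f ≤ ∑ q ∈ Finset.range (B + 1), ∑ f : Fin (I + 1) → Fin (K * I + 1), D q f := by
    calc D q f ≤ ∑ f : Fin (I + 1) → Fin (K * I + 1), D q f :=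
          Finset.single_le_sum (f := fun f => D q f) (fun _ _ => Nat.zero_le _)
            (Finset.mem_univ f)
      _ ≤ _ := Finset.single_le_sum
            (f := fun q => ∑ f : Fin (I + 1) → Fin (K * I + 1), D q f)
            (fun _ _ => Nat.zero_le _) (Finset.mem_range.2 (by omega))
  refine sepOK_congr (C := uniC f) (fun j hj => (hf j hj).symm) ?_
  apply hD q f _ l hl (lt_of_le_of_lt h1 hlt)
  intro j hj
  rw [← hf (j + 1) (by omega)]
  exact lt_of_le_of_lt (Nat.zero_le _) (hinc j hj)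

/-- One exceptional set of density zero for all patterns. -/
theorem kill_uniform (B K M0 : ℕ) : ∃ S : Set ℕ, Dens0 S ∧ ∀ q : ℕ, q ≤ B → ∀ M : ℕ, M ≤ M0 →
    ∀ C : ℕ → ℕ, (∀ j, j ≤ M → C j ≤ K * j) →
    ¬ Summable (Set.indicator (Kill q C M) (fun p : ℕ => (1 : ℝ) / p)) →
    ∀ m : ℕ, (∀ p ∈ Kill q C M, ¬ p ∣ m) → m ∈ S := by
  classical
  let t : Finset ((ℕ × ℕ) × (Fin (M0 + 1) → Fin (K * M0 + 1))) :=
    ((Finset.range (B + 1) ×ˢ Finset.range (M0 + 1)) ×ˢ Finset.univ).filter
      (fun x => ¬ Summable (Set.indicator (Kill x.1.1 (uniC x.2) x.1.2)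
        (fun p : ℕ => (1 : ℝ) / p)))
  let F : ((ℕ × ℕ) × (Fin (M0 + 1) → Fin (K * M0 + 1))) → Set ℕ :=
    fun x => {m : ℕ | ∀ p ∈ Kill x.1.1 (uniC x.2) x.1.2, ¬ p ∣ m}
  refine ⟨{m : ℕ | ∃ x ∈ t, m ∈ F x}, dens0_union t F ?_, ?_⟩
  · intro x hx
    exact dens_zero_of_not_summable _ (fun p hp => hp.1) (Finset.mem_filter.1 hx).2
  · intro q hq M hM C hC hns m hm
    obtain ⟨f, hf⟩ := exists_uniC K M0 M hM C hC
    have hk : Kill q C M = Kill q (uniC f) M := kill_congr hf
    refine ⟨((q, M), f), ?_, ?_⟩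
    · refine Finset.mem_filter.2 ⟨Finset.mem_product.2 ⟨Finset.mem_product.2
        ⟨Finset.mem_range.2 (Nat.lt_succ_of_le hq), Finset.mem_range.2 (Nat.lt_succ_of_le hM)⟩,
        Finset.mem_univ _⟩, ?_⟩
      rw [hk] at hns
      exact hns
    · show ∀ p ∈ Kill q (uniC f) M, ¬ p ∣ m
      rw [← hk]
      exact hm

end Pool.Agent.SYL
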