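import Pool.Agent.SYL.Defs
import Pool.Agent.SYL.UNI

set_option autoImplicit false

/-!
SCA: for every I choose a prime l larger than 2, B, K (I + 2K + 2), 40 (J+1) K and the D of sep_uniform for the
level I + 2K + 1 (Nat.exists_infinite_primes): a function L : ℕ -> ℕ (choose). Define I0 0 = max T0 2,
I0 (a+1) = 40 (J+1) L (I0 a) + 2 (Nat.rec), l a = L (I0 a), T a = 40 (J+1) l a.
-/

namespace Pool.Agent.SYL

open NumberField

/-- The scales. -/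
theorem exists_scales (B K T0 J : ℕ) : ∃ I0 l T : ℕ → ℕ, T0 ≤ I0 0 ∧ (∀ a, 2 ≤ I0 a) ∧
    (∀ a, I0 (a + 1) = T a + 2) ∧
    (∀ a, (l a).Prime ∧ 2 < l a ∧ B < l a ∧ K * (I0 a + 2 * K + 2) < l a ∧
      40 * (J + 1) * K < l a ∧ T a = 40 * (J + 1) * l a ∧ I0 a ≤ l a ∧ l a ≤ T a) ∧
    ∀ a, ∀ q : ℕ, q ≤ B → ∀ C : ℕ → ℕ, (∀ j, j < I0 a + 2 * K + 1 → C j < C (j + 1)) →
      (∀ j, j ≤ I0 a + 2 * K + 1 → C j ≤ K * j) → SepOK q C (I0 a + 2 * K + 1) (l a) := by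
  have hL : ∀ I : ℕ, ∃ p : ℕ, p.Prime ∧ 2 < p ∧ B < p ∧ K * (I + 2 * K + 2) < p ∧
      40 * (J + 1) * K < p ∧ I ≤ p ∧ ∀ q : ℕ, q ≤ B → ∀ C : ℕ → ℕ,
        (∀ j, j < I + 2 * K + 1 → C j < C (j + 1)) →
        (∀ j, j ≤ I + 2 * K + 1 → C j ≤ K * j) → SepOK q C (I + 2 * K + 1) p := by
    intro I
    obtain ⟨D, hD⟩ := sep_uniform B K (I + 2 * K + 1)
    obtain ⟨p, hp1, hp2⟩ := Nat.exists_infinite_primes
      (3 + B + K * (I + 2 * K + 2) + 40 * (J + 1) * K + D + I)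
    refine ⟨p, hp2, by omega, by omega, by omega, by omega, by omega, ?_⟩
    intro q hq C h1 h2
    exact hD q hq C h1 h2 p hp2 (by omega)
  choose L hL1 hL2 hL3 hL4 hL5 hL6 hL7 using hL
  let I0 : ℕ → ℕ := fun a => Nat.rec (max T0 2) (fun _ I => 40 * (J + 1) * L I + 2) a
  have hI00 : I0 0 = max T0 2 := rfl
  have hI0s : ∀ a, I0 (a + 1) = 40 * (J + 1) * L (I0 a) + 2 := fun a => rfl
  refine ⟨I0, fun a => L (I0 a), fun a => 40 * (J + 1) * L (I0 a), ?_, ?_, ?_, ?_, ?_⟩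
  · rw [hI00]; exact le_max_left _ _
  · intro a
    cases a with
    | zero => rw [hI00]; exact le_max_right _ _
    | succ a => rw [hI0s]; omega
  · intro a
    exact hI0s a
  · intro a
    refine ⟨hL1 _, hL2 _, hL3 _, hL4 _, hL5 _, rfl, hL6 _, ?_⟩
    have : 1 * L (I0 a) ≤ 40 * (J + 1) * L (I0 a) := Nat.mul_le_mul_right _ (by omega)
    simpa using this
  · intro a
    exact hL7 (I0 a)

end Pool.Agent.SYL
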