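import Pool.Agent.SYL.Defs

set_option autoImplicit false

/-!
CJP: a jump (n, i) corresponds to the pair (m, n), m = n - i, with m + 2 <= n < N and
4 (c n - c (m+1)) < c n - c m, i.e. 3 (c n - c (m+1)) < c (m+1) - c m. Since c n - c (m+1) >= n - m - 1, for fixed m the number of n is
at most (c (m+1) - c m) / 3 <= c (m+1) - c m; the sum over m < N - 1 telescopes.
-/

namespace Pool.Agent.SYL

open NumberField

/-- The total number of large relative jumps is small. -/
theorem card_jumps (c : ℕ → ℕ) (hc : StrictMono c) (N : ℕ) :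
    ∑ n ∈ Finset.range N, {i : ℕ | Jump c n i}.ncard ≤ c N := by
  classical
  set r : ℕ → ℕ → Prop := fun n m => m + 2 ≤ n ∧ 4 * (c n - c (m + 1)) < c n - c m with hr
  have h1 : ∀ n ∈ Finset.range N, {i : ℕ | Jump c n i}.ncard ≤
      ((Finset.range N).bipartiteAbove r n).card := by
    intro n hn
    rw [Finset.mem_range] at hn
    rw [← Set.ncard_coe_finset]
    refine Set.ncard_le_ncard_of_injOn (fun i => n - i) ?_ ?_ (Finset.finite_toSet _)
    · rintro i ⟨hi1, hi2, hi3⟩
      rw [Finset.mem_coe, Finset.mem_bipartiteAbove, Finset.mem_range]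
      exact ⟨by omega, by omega, hi3⟩
    · rintro i ⟨hi1, hi2, -⟩ j ⟨hj1, hj2, -⟩ hij
      simp only at hij
      omega
  have h2 : ∀ m ∈ Finset.range N, ((Finset.range N).bipartiteBelow r m).card ≤
      c (m + 1) - c m := by
    intro m _
    have hsub : (Finset.range N).bipartiteBelow r m ⊆
        Finset.Ioc (m + 1) (m + 1 + (c (m + 1) - c m)) := by
      intro n hn
      rw [Finset.mem_bipartiteBelow] at hn
      obtain ⟨-, h3, h4⟩ := hn
      have h5 : n - (m + 1) ≤ c n - c (m + 1) := by
        have := hc.add_le_nat (n - (m + 1)) (m + 1)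
        have e : n - (m + 1) + (m + 1) = n := by omega
        rw [e] at this
        omega
      have h6 : c m ≤ c (m + 1) := hc.monotone (Nat.le_succ m)
      have h7 : c (m + 1) ≤ c n := hc.monotone (by omega)
      rw [Finset.mem_Ioc]
      omega
    have := Finset.card_le_card hsub
    rw [Nat.card_Ioc] at this
    omega
  calc ∑ n ∈ Finset.range N, {i : ℕ | Jump c n i}.ncard
      ≤ ∑ n ∈ Finset.range N, ((Finset.range N).bipartiteAbove r n).card :=
        Finset.sum_le_sum h1
    _ = ∑ m ∈ Finset.range N, ((Finset.range N).bipartiteBelow r m).card :=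
        Finset.sum_card_bipartiteAbove_eq_sum_card_bipartiteBelow r
    _ ≤ ∑ m ∈ Finset.range N, (c (m + 1) - c m) := Finset.sum_le_sum h2
    _ = c N - c 0 := Finset.sum_range_tsub hc.monotone N
    _ ≤ c N := Nat.sub_le _ _

theorem card_many_jumps (c : ℕ → ℕ) (hc : StrictMono c) (N J : ℕ) :
    {n : ℕ | n < N ∧ J < {i : ℕ | Jump c n i}.ncard}.ncard * (J + 1) ≤ c N := by
  classical
  have h0 := card_jumps c hc N
  have h1 : {n : ℕ | n < N ∧ J < {i : ℕ | Jump c n i}.ncard} =
      ((Finset.range N).filter (fun n => J < {i : ℕ | Jump c n i}.ncard) : Finset ℕ) := by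
    ext n
    simp
  rw [h1, Set.ncard_coe_finset]
  have h2 := Finset.card_nsmul_le_sum
    ((Finset.range N).filter (fun n => J < {i : ℕ | Jump c n i}.ncard))
    (fun n => {i : ℕ | Jump c n i}.ncard) (J + 1) (fun n hn => (Finset.mem_filter.1 hn).2)
  rw [smul_eq_mul] at h2
  have h3 : ∑ n ∈ (Finset.range N).filter (fun n => J < {i : ℕ | Jump c n i}.ncard),
      {i : ℕ | Jump c n i}.ncard ≤ ∑ n ∈ Finset.range N, {i : ℕ | Jump c n i}.ncard :=
    Finset.sum_le_sum_of_subset (Finset.filter_subset _ _)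
  exact h2.trans (h3.trans h0)

end Pool.Agent.SYL
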