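import Pool.Agent.SYL.Defs

set_option autoImplicit false

/-!
CMX: strong induction on N: claim card {bad n < N} * K <= c (N-1) - c 0 type statement. If N - 1 is not bad use
N - 1. If n = N - 1 is bad with i: the bad elements in (n - i, n] are at most i, and K i < c n - c (n - i); apply induction to the bad
elements <= n - i, i.e. < n - i + 1, bounded by c (n-i) - c 0. (Claim to prove: for all m, card {bad n <= m} * K <= c m - c 0.)
-/

namespace Pool.Agent.SYL

open NumberField

theorem CMX_aux (c : ℕ → ℕ) (hc : StrictMono c) (K m : ℕ) :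
    {n : ℕ | n ≤ m ∧ ∃ i, 1 ≤ i ∧ i ≤ n ∧ K * i < c n - c (n - i)}.ncard * K ≤ c m - c 0 := by
  induction m using Nat.strong_induction_on with
  | _ m ih =>
    have hfin : ∀ k, {n : ℕ | n ≤ k ∧ ∃ i, 1 ≤ i ∧ i ≤ n ∧ K * i < c n - c (n - i)}.Finite :=
      fun k => (Set.finite_Iic k).subset (fun n hn => hn.1)
    by_cases hb : ∃ i, 1 ≤ i ∧ i ≤ m ∧ K * i < c m - c (m - i)
    · obtain ⟨i, hi1, him, hi⟩ := hb
      have h1 := ih (m - i) (by omega)
      have hsub : {n : ℕ | n ≤ m ∧ ∃ i, 1 ≤ i ∧ i ≤ n ∧ K * i < c n - c (n - i)} ⊆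
          {n : ℕ | n ≤ m - i ∧ ∃ i, 1 ≤ i ∧ i ≤ n ∧ K * i < c n - c (n - i)} ∪
            (Finset.Ioc (m - i) m : Finset ℕ) := by
        rintro n ⟨hn, hn2⟩
        by_cases h : n ≤ m - i
        · left
          exact ⟨h, hn2⟩
        · right
          rw [Finset.mem_coe, Finset.mem_Ioc]
          omega
      have h2 := Set.ncard_le_ncard hsub ((hfin _).union (Finset.finite_toSet _))
      have h3 := Set.ncard_union_le
        {n : ℕ | n ≤ m - i ∧ ∃ i, 1 ≤ i ∧ i ≤ n ∧ K * i < c n - c (n - i)}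
        (Finset.Ioc (m - i) m : Finset ℕ)
      rw [Set.ncard_coe_finset, Nat.card_Ioc] at h3
      have h4 : c (m - i) ≤ c m := hc.monotone (Nat.sub_le m i)
      have h5 : c 0 ≤ c (m - i) := hc.monotone (Nat.zero_le _)
      have h6 := Nat.mul_le_mul_right K (h2.trans h3)
      rw [Nat.add_mul, show m - (m - i) = i by omega, Nat.mul_comm i K] at h6
      omega
    · rcases Nat.eq_zero_or_pos m with rfl | hm
      · have : {n : ℕ | n ≤ 0 ∧ ∃ i, 1 ≤ i ∧ i ≤ n ∧ K * i < c n - c (n - i)} = ∅ := by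
          ext n
          simp only [Set.mem_ofPred_eq, Set.mem_empty_iff_false, iff_false]
          rintro ⟨h1, i, h2, h3, -⟩
          omega
        rw [this, Set.ncard_empty]
        omega
      · have h1 := ih (m - 1) (by omega)
        have heq : {n : ℕ | n ≤ m ∧ ∃ i, 1 ≤ i ∧ i ≤ n ∧ K * i < c n - c (n - i)} =
            {n : ℕ | n ≤ m - 1 ∧ ∃ i, 1 ≤ i ∧ i ≤ n ∧ K * i < c n - c (n - i)} := by
          ext n
          simp only [Set.mem_ofPred_eq]
          constructor
          · rintro ⟨h2, h3⟩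
            refine ⟨?_, h3⟩
            rcases Nat.eq_or_lt_of_le h2 with rfl | h4
            · exact absurd h3 hb
            · omega
          · rintro ⟨h2, h3⟩
            exact ⟨by omega, h3⟩
        rw [heq]
        have h4 : c (m - 1) ≤ c m := hc.monotone (Nat.sub_le m 1)
        omega

/-- One sided maximal inequality. -/
theorem card_maximal (c : ℕ → ℕ) (hc : StrictMono c) (K N : ℕ) :
    {n : ℕ | n < N ∧ ∃ i, 1 ≤ i ∧ i ≤ n ∧ K * i < c n - c (n - i)}.ncard * K ≤ c N := by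
  rcases Nat.eq_zero_or_pos N with rfl | hN
  · have : {n : ℕ | n < 0 ∧ ∃ i, 1 ≤ i ∧ i ≤ n ∧ K * i < c n - c (n - i)} = ∅ := by
      ext n
      simp
    rw [this, Set.ncard_empty]
    omega
  · have heq : {n : ℕ | n < N ∧ ∃ i, 1 ≤ i ∧ i ≤ n ∧ K * i < c n - c (n - i)} =
        {n : ℕ | n ≤ N - 1 ∧ ∃ i, 1 ≤ i ∧ i ≤ n ∧ K * i < c n - c (n - i)} := by
      ext n
      simp only [Set.mem_ofPred_eq]
      constructor
      · rintro ⟨h2, h3⟩
        exact ⟨by omega, h3⟩
      · rintro ⟨h2, h3⟩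
        exact ⟨by omega, h3⟩
    rw [heq]
    have h1 := CMX_aux c hc K (N - 1)
    have h4 : c (N - 1) ≤ c N := hc.monotone (Nat.sub_le N 1)
    omega

end Pool.Agent.SYL
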