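import Pool.Agent.SYL.Defs

set_option autoImplicit false

/-!
CRT: card_no_return: in a block of T + 1 consecutive indices two such n cannot have c n congruent mod l, so at
most l per block; N / (T+1) + 1 blocks. card_bad_partner: n -> m = n - i is injective (m is the previous visit of the class of n, n is
the next visit after m), and l | c m - c (m-1) >= l, sum over m of the steps is <= c N. card_large_step: sum of steps telescopes.
card_mem: injectivity of c.
-/

namespace Pool.Agent.SYL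

open NumberField

theorem CRT_markov (c : ℕ → ℕ) (hc : StrictMono c) (B N : ℕ) :
    ((Finset.range N).filter (fun k => B ≤ c (k + 1) - c k)).card * B ≤ c N := by
  have h2 := Finset.card_nsmul_le_sum
    ((Finset.range N).filter (fun k => B ≤ c (k + 1) - c k))
    (fun k => c (k + 1) - c k) B (fun k hk => (Finset.mem_filter.1 hk).2)
  rw [smul_eq_mul] at h2
  have h3 : ∑ k ∈ (Finset.range N).filter (fun k => B ≤ c (k + 1) - c k), (c (k + 1) - c k) ≤
      ∑ k ∈ Finset.range N, (c (k + 1) - c k) :=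
    Finset.sum_le_sum_of_subset (Finset.filter_subset _ _)
  rw [Finset.sum_range_tsub hc.monotone N] at h3
  exact h2.trans (h3.trans (Nat.sub_le _ _))

theorem CRT_dvd {x y z l : ℕ} (hxy : x ≤ y) (hyz : y ≤ z) (h1 : l ∣ z - x) (h2 : l ∣ y - x) :
    l ∣ z - y := by
  have h3 : z - y = (z - x) - (y - x) := by omega
  rw [h3]
  exact Nat.dvd_sub h1 h2

/-- Few `n` have no return modulo `l` within distance `T`. -/
theorem card_no_return (c : ℕ → ℕ) (hc : StrictMono c) (l T N : ℕ) (hl : 0 < l) :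
    {n : ℕ | n < N ∧ ∀ i, 1 ≤ i → i ≤ T → i ≤ n → ¬ l ∣ c n - c (n - i)}.ncard ≤
      l * (N / (T + 1) + 1) := by
  classical
  have hT : 0 < T + 1 := Nat.succ_pos T
  have hinj : ∀ n n' : ℕ, n < n' → (∀ i, 1 ≤ i → i ≤ T → i ≤ n' → ¬ l ∣ c n' - c (n' - i)) →
      n / (T + 1) = n' / (T + 1) → c n % l = c n' % l → False := by
    intro n n' hlt hn' h1 h2
    have h3 : n' - n ≤ T := by
      have a1 := Nat.div_add_mod n (T + 1)
      have a2 := Nat.div_add_mod n' (T + 1)
      have a3 := Nat.mod_lt n' hT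
      rw [h1] at a1
      omega
    apply hn' (n' - n) (by omega) h3 (by omega)
    have h4 : n' - (n' - n) = n := by omega
    rw [h4]
    exact (Nat.modEq_iff_dvd' (hc.monotone hlt.le)).1 h2
  have hle := Set.ncard_le_ncard_of_injOn
    (s := {n : ℕ | n < N ∧ ∀ i, 1 ≤ i → i ≤ T → i ≤ n → ¬ l ∣ c n - c (n - i)})
    (t := ((Finset.range l ×ˢ Finset.range (N / (T + 1) + 1) : Finset (ℕ × ℕ)) : Set (ℕ × ℕ)))
    (fun n => (c n % l, n / (T + 1))) ?_ ?_ (Finset.finite_toSet _)
  · rw [Set.ncard_coe_finset, Finset.card_product, Finset.card_range, Finset.card_range] at hle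
    exact hle
  · rintro n ⟨hn, -⟩
    rw [Finset.mem_coe, Finset.mem_product, Finset.mem_range, Finset.mem_range]
    exact ⟨Nat.mod_lt _ hl, Nat.lt_succ_of_le (Nat.div_le_div_right hn.le)⟩
  · rintro n ⟨-, hn⟩ n' ⟨-, hn'⟩ heq
    simp only [Prod.mk.injEq] at heq
    rcases lt_trichotomy n n' with h | h | h
    · exact (hinj n n' h hn' heq.2 heq.1).elim
    · exact h
    · exact (hinj n' n h hn heq.2.symm heq.1.symm).elim

/-- Few `n` have a first return partner preceded by a step divisible by `l`. -/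
theorem card_bad_partner (c : ℕ → ℕ) (hc : StrictMono c) (l N : ℕ) (hl : 0 < l) :
    {n : ℕ | n < N ∧ ∃ i, FirstRet c l n i ∧ i + 1 ≤ n ∧
      l ∣ c (n - i) - c (n - i - 1)}.ncard * l ≤ c N := by
  classical
  set S : Set ℕ := {n : ℕ | n < N ∧ ∃ i, FirstRet c l n i ∧ i + 1 ≤ n ∧
      l ∣ c (n - i) - c (n - i - 1)} with hS
  have hinj : ∀ n n' i i' : ℕ, n < n' → FirstRet c l n i → FirstRet c l n' i' →
      n - i = n' - i' → False := by
    intro n n' i i' hlt h1 h2 heq
    obtain ⟨a1, a2, a3, -⟩ := h1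
    obtain ⟨b1, b2, b3, b4⟩ := h2
    apply b4 (n' - n) (by omega) (by omega)
    have h4 : n' - (n' - n) = n := by omega
    rw [h4]
    rw [← heq] at b3
    exact CRT_dvd (hc.monotone (Nat.sub_le n i)) (hc.monotone hlt.le) b3 a3
  have hch : ∀ n ∈ S, ∃ i, FirstRet c l n i ∧ i + 1 ≤ n ∧ l ∣ c (n - i) - c (n - i - 1) :=
    fun n hn => hn.2
  choose! f hf using hch
  have hle := Set.ncard_le_ncard_of_injOn (s := S)
    (t := (((Finset.range N).filter (fun k => l ≤ c (k + 1) - c k) : Finset ℕ) : Set ℕ))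
    (fun n => n - f n - 1) ?_ ?_ (Finset.finite_toSet _)
  · rw [Set.ncard_coe_finset] at hle
    exact (Nat.mul_le_mul_right l hle).trans (CRT_markov c hc l N)
  · intro n hn
    obtain ⟨h1, h2, h3⟩ := hf n hn
    have hnN : n < N := hn.1
    have h1' := h1.1
    rw [Finset.mem_coe, Finset.mem_filter, Finset.mem_range]
    refine ⟨by omega, ?_⟩
    have h4 : n - f n - 1 + 1 = n - f n := by omega
    rw [h4]
    apply Nat.le_of_dvd _ h3
    have := hc (show n - f n - 1 < n - f n by omega)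
    omega
  · intro n hn n' hn' heq
    simp only at heq
    obtain ⟨h1, h2, h3⟩ := hf n hn
    obtain ⟨h1', h2', h3'⟩ := hf n' hn'
    have heq' : n - f n = n' - f n' := by omega
    rcases lt_trichotomy n n' with h | h | h
    · exact (hinj n n' _ _ h h1 h1' heq').elim
    · exact h
    · exact (hinj n' n _ _ h h1' h1 heq'.symm).elim

/-- Few steps are large. -/
theorem card_large_step (c : ℕ → ℕ) (hc : StrictMono c) (B N : ℕ) :
    {n : ℕ | n < N ∧ B < c (n + 1) - c n}.ncard * B ≤ c N := by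
  classical
  have h1 : {n : ℕ | n < N ∧ B < c (n + 1) - c n} ⊆
      (((Finset.range N).filter (fun k => B ≤ c (k + 1) - c k) : Finset ℕ) : Set ℕ) := by
    rintro n ⟨h1, h2⟩
    rw [Finset.mem_coe, Finset.mem_filter, Finset.mem_range]
    exact ⟨h1, h2.le⟩
  have h2 := Set.ncard_le_ncard h1 (Finset.finite_toSet _)
  rw [Set.ncard_coe_finset] at h2
  exact (Nat.mul_le_mul_right B h2).trans (CRT_markov c hc B N)

/-- Few `n` have `c n` in a given set. -/
theorem card_mem (c : ℕ → ℕ) (hc : StrictMono c) (hpos : ∀ n, 0 < c n) (S : Set ℕ) (N : ℕ) :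
    {n : ℕ | n < N ∧ c n ∈ S}.ncard ≤ {m : ℕ | m ∈ S ∧ 1 ≤ m ∧ m ≤ c N}.ncard := by
  refine Set.ncard_le_ncard_of_injOn c ?_ (hc.injective.injOn) ?_
  · rintro n ⟨h1, h2⟩
    exact ⟨h2, hpos n, hc.monotone h1.le⟩
  · exact (Set.finite_Iic (c N)).subset (fun m hm => hm.2.2)

end Pool.Agent.SYL
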