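import Pool.Agent.SYL.Defs
import Pool.Agent.SYL.CMX
import Pool.Agent.SYL.CJP
import Pool.Agent.SYL.CRT

set_option autoImplicit false

/-!
SLB: as SEL, uniform version for a block (the threshold `N0` does not depend on the sequence).
-/

namespace Pool.Agent.SYL

open NumberField

theorem slb_count (P : ℕ → Prop) [DecidablePred P] (N : ℕ) :
    {n : ℕ | n < N ∧ P n}.ncard = ((Finset.range N).filter P).card := by
  rw [← Set.ncard_coe_finset]
  congr 1
  ext n
  simp

theorem slb_first (c : ℕ → ℕ) (l n i : ℕ) (h1 : 1 ≤ i) (h2 : i ≤ n) (h3 : l ∣ c n - c (n - i)) :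
    ∃ j, j ≤ i ∧ FirstRet c l n j := by
  classical
  have hex : ∃ j, 1 ≤ j ∧ j ≤ n ∧ l ∣ c n - c (n - j) := ⟨i, h1, h2, h3⟩
  refine ⟨Nat.find hex, Nat.find_min' hex ⟨h1, h2, h3⟩, ?_⟩
  obtain ⟨g1, g2, g3⟩ := Nat.find_spec hex
  refine ⟨g1, g2, g3, ?_⟩
  intro j hj1 hj2 hj3
  exact Nat.find_min hex hj2 ⟨hj1, by omega, hj3⟩

/-- Selection of a good index in a block. -/
theorem exists_good_block (K J : ℕ) (hK : 1 ≤ K)
    (hJ : 20 * K ≤ J) (l T : ℕ → ℕ)
    (hl : ∀ a, a ≤ J → 40 * (J + 1) * K ≤ l a) (hT : ∀ a, a ≤ J → 40 * (J + 1) * l a ≤ T a)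
    (n0 : ℕ) :
    ∃ N0 : ℕ, ∀ c : ℕ → ℕ, StrictMono c → ∀ N : ℕ, N0 ≤ N → c N ≤ K * N → ∀ S : Set ℕ,
      20 * {n : ℕ | n < N ∧ n ∈ S}.ncard ≤ N →
    ∃ n, n0 ≤ n ∧ n < N ∧ (∀ i, 1 ≤ i → i ≤ n → c n - c (n - i) ≤ 20 * K * i) ∧
      {i : ℕ | Jump c n i}.ncard ≤ J ∧
      (∀ a, a ≤ J → ∃ i, FirstRet c (l a) n i ∧ i ≤ T a ∧ i + 1 ≤ n ∧
        ¬ l a ∣ c (n - i) - c (n - i - 1)) ∧
      c (n + 1) - c n ≤ 20 * K ∧ n ∉ S := by
  classical
  have hK0 : (0:ℝ) < K := by exact_mod_cast hK
  have hlpos : ∀ a, a ≤ J → 0 < l a := by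
    intro a ha
    have := hl a ha
    have h2 : 0 < 40 * (J + 1) * K := by positivity
    omega
  set ST := ∑ a ∈ Finset.range (J + 1), T a with hST
  set SL := ∑ a ∈ Finset.range (J + 1), l a with hSL
  refine ⟨2 * (n0 + ST + 2 + SL) + 1, ?_⟩
  intro c hc N hN hcN S hSN
  set C0 := n0 + ST + 2 with hC0
  have hcNr : (c N : ℝ) ≤ K * N := by exact_mod_cast hcN
  have hNpos : (0:ℝ) < N := by
    have : 0 < N := by omega
    exact_mod_cast this
  -- bad sets
  set B0 := Finset.range C0 with hB0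
  set P1 : ℕ → Prop := fun n => ∃ i, 1 ≤ i ∧ i ≤ n ∧ 20 * K * i < c n - c (n - i) with hP1
  set P2 : ℕ → Prop := fun n => J < {i : ℕ | Jump c n i}.ncard with hP2
  set P3 : ℕ → ℕ → Prop := fun a n => ∀ i, 1 ≤ i → i ≤ T a → i ≤ n → ¬ l a ∣ c n - c (n - i) with hP3
  set P4 : ℕ → ℕ → Prop := fun a n => ∃ i, FirstRet c (l a) n i ∧ i + 1 ≤ n ∧
      l a ∣ c (n - i) - c (n - i - 1) with hP4
  set P5 : ℕ → Prop := fun n => 20 * K < c (n + 1) - c n with hP5
  set P6 : ℕ → Prop := fun n => n ∈ S with hP6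
  have h1 : (((Finset.range N).filter P1).card : ℝ) ≤ N / 20 := by
    have h := card_maximal c hc (20 * K) N
    have e : {n : ℕ | n < N ∧ ∃ i, 1 ≤ i ∧ i ≤ n ∧ 20 * K * i < c n - c (n - i)}.ncard =
      ((Finset.range N).filter P1).card := slb_count P1 N
    rw [e] at h
    have hr : (((Finset.range N).filter P1).card : ℝ) * (20 * K) ≤ c N := by exact_mod_cast h
    rw [le_div_iff₀ (by norm_num)]
    have : (((Finset.range N).filter P1).card : ℝ) * 20 * K ≤ N * K := by linarith
    exact le_of_mul_le_mul_right this hK0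
  have h2 : (((Finset.range N).filter P2).card : ℝ) ≤ N / 20 := by
    have h := card_many_jumps c hc N J
    have e : {n : ℕ | n < N ∧ J < {i : ℕ | Jump c n i}.ncard}.ncard =
      ((Finset.range N).filter P2).card := slb_count P2 N
    rw [e] at h
    have hr : (((Finset.range N).filter P2).card : ℝ) * (J + 1) ≤ c N := by exact_mod_cast h
    have hJr : (20:ℝ) * K ≤ J := by exact_mod_cast hJ
    rw [le_div_iff₀ (by norm_num)]
    have h0 : (0:ℝ) ≤ ((Finset.range N).filter P2).card := Nat.cast_nonneg _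
    have : (((Finset.range N).filter P2).card : ℝ) * 20 * K ≤ N * K := by nlinarith
    exact le_of_mul_le_mul_right this hK0
  have h5 : (((Finset.range N).filter P5).card : ℝ) ≤ N / 20 := by
    have h := card_large_step c hc (20 * K) N
    have e : {n : ℕ | n < N ∧ 20 * K < c (n + 1) - c n}.ncard =
      ((Finset.range N).filter P5).card := slb_count P5 N
    rw [e] at h
    have hr : (((Finset.range N).filter P5).card : ℝ) * (20 * K) ≤ c N := by exact_mod_cast h
    rw [le_div_iff₀ (by norm_num)]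
    have : (((Finset.range N).filter P5).card : ℝ) * 20 * K ≤ N * K := by linarith
    exact le_of_mul_le_mul_right this hK0
  have h6 : (((Finset.range N).filter P6).card : ℝ) ≤ N / 20 := by
    have e : {n : ℕ | n < N ∧ n ∈ S}.ncard = ((Finset.range N).filter P6).card := slb_count P6 N
    rw [e] at hSN
    have hr : (20 : ℝ) * (((Finset.range N).filter P6).card : ℝ) ≤ N := by exact_mod_cast hSN
    linarith
  have h3 : ∀ a ∈ Finset.range (J + 1),
      (((Finset.range N).filter (P3 a)).card : ℝ) ≤ N / (40 * (J + 1)) + l a := by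
    intro a ha
    have ha' : a ≤ J := Nat.lt_succ_iff.mp (Finset.mem_range.mp ha)
    have h := card_no_return c hc (l a) (T a) N (hlpos a ha')
    have e : {n : ℕ | n < N ∧ ∀ i, 1 ≤ i → i ≤ T a → i ≤ n → ¬ l a ∣ c n - c (n - i)}.ncard =
      ((Finset.range N).filter (P3 a)).card := slb_count (P3 a) N
    rw [e] at h
    have hr : (((Finset.range N).filter (P3 a)).card : ℝ) ≤
        l a * (((N / (T a + 1) : ℕ) : ℝ) + 1) := by exact_mod_cast h
    have hd : ((N / (T a + 1) : ℕ) : ℝ) ≤ N / ((T a : ℝ) + 1) := by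
      have := @Nat.cast_div_le ℝ _ _ _ N (T a + 1)
      push_cast at this
      exact this
    have hTr : (40 * ((J:ℝ) + 1)) * l a ≤ T a := by exact_mod_cast hT a ha'
    have hla : (0:ℝ) < l a := by exact_mod_cast hlpos a ha'
    have hT1 : (0:ℝ) < (T a : ℝ) + 1 := by positivity
    have hq : (l a : ℝ) * (N / ((T a : ℝ) + 1)) ≤ N / (40 * (J + 1)) := by
      rw [mul_div_assoc', div_le_div_iff₀ hT1 (by positivity)]
      have : (40 * ((J:ℝ) + 1)) * l a * N ≤ ((T a : ℝ) + 1) * N :=
        mul_le_mul_of_nonneg_right (by linarith) hNpos.le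
      linarith
    calc (((Finset.range N).filter (P3 a)).card : ℝ) ≤
        l a * (((N / (T a + 1) : ℕ) : ℝ) + 1) := hr
      _ ≤ l a * (N / ((T a : ℝ) + 1) + 1) := by
        apply mul_le_mul_of_nonneg_left _ hla.le
        linarith
      _ ≤ N / (40 * (J + 1)) + l a := by
        rw [mul_add, mul_one]
        linarith
  have h4 : ∀ a ∈ Finset.range (J + 1),
      (((Finset.range N).filter (P4 a)).card : ℝ) ≤ N / (40 * (J + 1)) := by
    intro a ha
    have ha' : a ≤ J := Nat.lt_succ_iff.mp (Finset.mem_range.mp ha)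
    have h := card_bad_partner c hc (l a) N (hlpos a ha')
    have e : {n : ℕ | n < N ∧ ∃ i, FirstRet c (l a) n i ∧ i + 1 ≤ n ∧
      l a ∣ c (n - i) - c (n - i - 1)}.ncard =
      ((Finset.range N).filter (P4 a)).card := slb_count (P4 a) N
    rw [e] at h
    have hr : (((Finset.range N).filter (P4 a)).card : ℝ) * l a ≤ c N := by exact_mod_cast h
    have hlr : (40 * ((J:ℝ) + 1)) * K ≤ l a := by exact_mod_cast hl a ha'
    rw [le_div_iff₀ (by positivity)]
    have h0 : (0:ℝ) ≤ ((Finset.range N).filter (P4 a)).card := Nat.cast_nonneg _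
    have : (((Finset.range N).filter (P4 a)).card : ℝ) * (40 * (J + 1)) * K ≤ N * K := by
      have h7 : (((Finset.range N).filter (P4 a)).card : ℝ) * ((40 * ((J:ℝ) + 1)) * K) ≤
          (((Finset.range N).filter (P4 a)).card : ℝ) * l a := mul_le_mul_of_nonneg_left hlr h0
      linarith
    exact le_of_mul_le_mul_right this hK0
  by_contra hcon
  have hsub : Finset.range N ⊆ B0 ∪ (((Finset.range N).filter P1) ∪ (((Finset.range N).filter P2) ∪
      (((Finset.range N).filter P5) ∪ (((Finset.range N).filter P6) ∪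
      (((Finset.range (J + 1)).biUnion (fun a => (Finset.range N).filter (P3 a))) ∪
      ((Finset.range (J + 1)).biUnion (fun a => (Finset.range N).filter (P4 a)))))))) := by
    intro n hn
    by_contra hnot
    simp only [Finset.mem_union, Finset.mem_filter, Finset.mem_biUnion, not_or, not_and,
      not_exists] at hnot
    obtain ⟨g0, g1, g2, g5, g6, g3, g4⟩ := hnot
    have g0' : C0 ≤ n := by
      rw [hB0, Finset.mem_range] at g0
      omega
    apply hcon
    refine ⟨n, by omega, Finset.mem_range.1 hn, ?_, ?_, ?_, ?_, g6 hn⟩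
    · intro i hi1 hi2
      by_contra hlt
      exact g1 hn ⟨i, hi1, hi2, not_le.mp hlt⟩
    · have := g2 hn
      simp only [hP2, not_lt] at this
      exact this
    · intro a ha
      have hamem : a ∈ Finset.range (J + 1) := Finset.mem_range.mpr (by omega)
      have k3 := g3 a hamem hn
      have k4 := g4 a hamem hn
      simp only [hP3, not_forall, not_not] at k3
      obtain ⟨i, hi1, hi2, hi3, hi4⟩ := k3
      obtain ⟨j, hj1, hj2⟩ := slb_first c (l a) n i hi1 hi3 hi4
      have hTa : T a ≤ ST := Finset.single_le_sum (f := T) (fun _ _ => Nat.zero_le _) hamem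
      have hjn : j + 1 ≤ n := by omega
      refine ⟨j, hj2, by omega, hjn, ?_⟩
      intro hdiv
      exact k4 ⟨j, hj2, hjn, hdiv⟩
    · have := g5 hn
      simp only [hP5, not_lt] at this
      exact this
  have hcard := Finset.card_le_card hsub
  rw [Finset.card_range] at hcard
  have hr : (N : ℝ) ≤ C0 + (N / 20 + (N / 20 + (N / 20 + (N / 20 +
      (((J:ℝ) + 1) * (N / (40 * (J + 1))) + SL + ((J:ℝ) + 1) * (N / (40 * (J + 1)))))))) := by
    have e1 : (N : ℝ) ≤ ((B0 ∪ (((Finset.range N).filter P1) ∪ (((Finset.range N).filter P2) ∪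
      (((Finset.range N).filter P5) ∪ (((Finset.range N).filter P6) ∪
      (((Finset.range (J + 1)).biUnion (fun a => (Finset.range N).filter (P3 a))) ∪
      ((Finset.range (J + 1)).biUnion (fun a => (Finset.range N).filter (P4 a))))))))).card : ℝ) := by
      exact_mod_cast hcard
    refine e1.trans ?_
    have un : ∀ (X Y : Finset ℕ) (x y : ℝ), (X.card : ℝ) ≤ x → (Y.card : ℝ) ≤ y →
        ((X ∪ Y).card : ℝ) ≤ x + y := by
      intro X Y x y hx hy
      have : ((X ∪ Y).card : ℝ) ≤ X.card + Y.card := by exact_mod_cast Finset.card_union_le X Y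
      linarith
    refine un _ _ _ _ (by rw [hB0, Finset.card_range]) ?_
    refine un _ _ _ _ h1 (un _ _ _ _ h2 (un _ _ _ _ h5 (un _ _ _ _ h6 (un _ _ _ _ ?_ ?_))))
    · have b1 : ((((Finset.range (J + 1)).biUnion
          (fun a => (Finset.range N).filter (P3 a))).card : ℕ) : ℝ) ≤
          ∑ a ∈ Finset.range (J + 1), (((Finset.range N).filter (P3 a)).card : ℝ) := by
        exact_mod_cast Finset.card_biUnion_le
      refine b1.trans ((Finset.sum_le_sum h3).trans (le_of_eq ?_))
      rw [Finset.sum_add_distrib, Finset.sum_const, Finset.card_range, nsmul_eq_mul, hSL]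
      push_cast
      ring
    · have b1 : ((((Finset.range (J + 1)).biUnion
          (fun a => (Finset.range N).filter (P4 a))).card : ℕ) : ℝ) ≤
          ∑ a ∈ Finset.range (J + 1), (((Finset.range N).filter (P4 a)).card : ℝ) := by
        exact_mod_cast Finset.card_biUnion_le
      refine b1.trans ((Finset.sum_le_sum h4).trans (le_of_eq ?_))
      rw [Finset.sum_const, Finset.card_range, nsmul_eq_mul]
      push_cast
      ring
  have hJ1 : ((J:ℝ) + 1) * (N / (40 * (J + 1))) = N / 40 := by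
    field_simp
  rw [hJ1] at hr
  have hNr : (2:ℝ) * (C0 + SL) + 1 ≤ N := by
    have : 2 * (C0 + SL) + 1 ≤ N := by omega
    exact_mod_cast this
  have hSL0 : (0:ℝ) ≤ (SL : ℝ) := Nat.cast_nonneg _
  have hC00 : (0:ℝ) ≤ (C0 : ℝ) := Nat.cast_nonneg _
  linarith

end Pool.Agent.SYL
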