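import Pool.Agent.SYL.Defs
import Pool.Agent.SYL.BLK

set_option autoImplicit false

/-!
UDN: uniform density zero of the integers without prime factor in a set of primes with divergent reciprocal sum.
-/

namespace Pool.Agent.SYL

open NumberField

theorem udens0_mono {S T : Set ℕ} (h : S ⊆ T) (hT : UDens0 T) : UDens0 S := by
  intro ε hε
  obtain ⟨X0, hX0⟩ := hT ε hε
  refine ⟨X0, fun X x hX => le_trans ?_ (hX0 X x hX)⟩
  have hfin : {m : ℕ | m ∈ T ∧ x ≤ m ∧ m < x + X}.Finite :=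
    (Set.finite_lt_nat (x + X)).subset (fun m hm => hm.2.2)
  have hsub : {m : ℕ | m ∈ S ∧ x ≤ m ∧ m < x + X} ⊆ {m : ℕ | m ∈ T ∧ x ≤ m ∧ m < x + X} :=
    fun m hm => ⟨h hm.1, hm.2⟩
  exact_mod_cast Set.ncard_le_ncard hsub hfin

theorem udens0_empty : UDens0 (∅ : Set ℕ) := by
  intro ε hε
  refine ⟨0, fun X x _ => ?_⟩
  have : {m : ℕ | m ∈ (∅ : Set ℕ) ∧ x ≤ m ∧ m < x + X} = ∅ := by
    ext m; simp
  rw [this, Set.ncard_empty]
  have : (0 : ℝ) ≤ ε * X := by positivity
  simpa using this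

theorem udens0_union2 {S T : Set ℕ} (hS : UDens0 S) (hT : UDens0 T) : UDens0 (S ∪ T) := by
  intro ε hε
  obtain ⟨X1, hX1⟩ := hS (ε / 2) (by positivity)
  obtain ⟨X2, hX2⟩ := hT (ε / 2) (by positivity)
  refine ⟨max X1 X2, fun X x hX => ?_⟩
  have h1 := hX1 X x (le_trans (le_max_left _ _) hX)
  have h2 := hX2 X x (le_trans (le_max_right _ _) hX)
  have e : {m : ℕ | m ∈ S ∪ T ∧ x ≤ m ∧ m < x + X} =
      {m : ℕ | m ∈ S ∧ x ≤ m ∧ m < x + X} ∪ {m : ℕ | m ∈ T ∧ x ≤ m ∧ m < x + X} := by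
    ext m
    simp only [Set.mem_union, Set.mem_ofPred_eq]
    tauto
  rw [e]
  have h3 : ((({m : ℕ | m ∈ S ∧ x ≤ m ∧ m < x + X} ∪
      {m : ℕ | m ∈ T ∧ x ≤ m ∧ m < x + X}).ncard : ℕ) : ℝ) ≤
      (({m : ℕ | m ∈ S ∧ x ≤ m ∧ m < x + X}.ncard : ℕ) : ℝ) +
      (({m : ℕ | m ∈ T ∧ x ≤ m ∧ m < x + X}.ncard : ℕ) : ℝ) := by
    exact_mod_cast Set.ncard_union_le _ _
  linarith

theorem udens0_union {ι : Type*} (t : Finset ι) (f : ι → Set ℕ) (h : ∀ x ∈ t, UDens0 (f x)) :
    UDens0 {m : ℕ | ∃ x ∈ t, m ∈ f x} := by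
  classical
  induction t using Finset.induction_on with
  | empty =>
    refine udens0_mono ?_ udens0_empty
    rintro m ⟨x, hx, -⟩
    simp at hx
  | insert a t ha ih =>
    have h1 := udens0_union2 (h a (Finset.mem_insert_self a t))
      (ih (fun x hx => h x (Finset.mem_insert_of_mem hx)))
    refine udens0_mono ?_ h1
    rintro m ⟨x, hx, hm⟩
    rcases Finset.mem_insert.1 hx with rfl | hx'
    · exact Or.inl hm
    · exact Or.inr ⟨x, hx', hm⟩

/-- The product of `1 - 1/p` over suitable finite subsets is small. -/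
theorem exists_small_prod (S : Set ℕ) (hS : ∀ p ∈ S, p.Prime)
    (hdiv : ¬ Summable (Set.indicator S (fun p : ℕ => (1 : ℝ) / p))) (ε : ℝ) (hε : 0 < ε) :
    ∃ t : Finset ℕ, (∀ p ∈ t, p ∈ S) ∧ ∏ p ∈ t, (1 - (1 : ℝ) / p) ≤ ε := by
  classical
  have hnn : ∀ p : ℕ, 0 ≤ Set.indicator S (fun p : ℕ => (1 : ℝ) / p) p := by
    intro p
    exact Set.indicator_nonneg (fun _ _ => by positivity) p
  have hun : ∃ t : Finset ℕ, Real.log (1 / ε) ≤ ∑ p ∈ t, Set.indicator S (fun p : ℕ => (1 : ℝ) / p) p := by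
    by_contra hcon
    push Not at hcon
    apply hdiv
    exact summable_of_sum_le hnn (fun t => (hcon t).le)
  obtain ⟨t, ht⟩ := hun
  refine ⟨t.filter (fun p => p ∈ S), fun p hp => (Finset.mem_filter.1 hp).2, ?_⟩
  have h1 : ∑ p ∈ t.filter (fun p => p ∈ S), (1 : ℝ) / p =
      ∑ p ∈ t, Set.indicator S (fun p : ℕ => (1 : ℝ) / p) p := by
    rw [Finset.sum_filter]
    apply Finset.sum_congr rfl
    intro p _
    rw [Set.indicator_apply]
  have h2 : ∏ p ∈ t.filter (fun p => p ∈ S), (1 - (1 : ℝ) / p) ≤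
      ∏ p ∈ t.filter (fun p => p ∈ S), Real.exp (-((1 : ℝ) / p)) := by
    apply Finset.prod_le_prod
    · intro p hp
      have hp2 := (hS p (Finset.mem_filter.1 hp).2).two_le
      have : (1 : ℝ) / p ≤ 1 := by
        rw [div_le_one (by positivity)]
        exact_mod_cast (by omega : 1 ≤ p)
      linarith
    · intro p _
      have := Real.add_one_le_exp (-((1 : ℝ) / p))
      linarith
  refine h2.trans ?_
  rw [← Real.exp_sum, Finset.sum_neg_distrib, h1]
  have h3 : Real.exp (-(∑ p ∈ t, Set.indicator S (fun p : ℕ => (1 : ℝ) / p) p)) ≤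
      Real.exp (-Real.log (1 / ε)) := Real.exp_le_exp.2 (by linarith)
  refine h3.trans (le_of_eq ?_)
  rw [Real.exp_neg, Real.exp_log (by positivity)]
  field_simp

theorem totient_prod_eq (t : Finset ℕ) (ht : ∀ p ∈ t, p.Prime) :
    ((Nat.totient (∏ p ∈ t, p) : ℕ) : ℝ) = ((∏ p ∈ t, p : ℕ) : ℝ) * ∏ p ∈ t, (1 - (1 : ℝ) / p) := by
  classical
  induction t using Finset.induction_on with
  | empty => simp
  | insert a t ha ih =>
    rw [Finset.prod_insert ha, Finset.prod_insert ha, Nat.totient_mul]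
    · have hap := ht a (Finset.mem_insert_self a t)
      rw [Nat.totient_prime hap]
      have ih' := ih (fun p hp => ht p (Finset.mem_insert_of_mem hp))
      have ha0 : (a : ℝ) ≠ 0 := by exact_mod_cast hap.ne_zero
      push_cast at ih' ⊢
      rw [ih', Nat.cast_sub hap.one_lt.le]
      field_simp
      push_cast
      ring
    · apply Nat.Coprime.prod_right
      intro p hp
      have hap := ht a (Finset.mem_insert_self a t)
      have hpp := ht p (Finset.mem_insert_of_mem hp)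
      rw [Nat.coprime_primes hap hpp]
      rintro rfl
      exact ha hp

theorem count_coprime_le (M : ℕ) (hM : 0 < M) (x X : ℕ) :
    ({m : ℕ | Nat.Coprime M m ∧ x ≤ m ∧ m < x + X}.ncard) ≤ (X / M + 1) * Nat.totient M := by
  classical
  have hsub : ∀ k : ℕ, ({m : ℕ | Nat.Coprime M m ∧ x ≤ m ∧ m < x + k * M}.ncard) ≤
      k * Nat.totient M := by
    intro k
    induction k with
    | zero =>
      have : {m : ℕ | Nat.Coprime M m ∧ x ≤ m ∧ m < x + 0 * M} = ∅ := by
        ext m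
        simp only [Set.mem_ofPred_eq, Set.mem_empty_iff_false, iff_false]
        omega
      rw [this]
      simp
    | succ k ih =>
      have e : {m : ℕ | Nat.Coprime M m ∧ x ≤ m ∧ m < x + (k + 1) * M} ⊆
          {m : ℕ | Nat.Coprime M m ∧ x ≤ m ∧ m < x + k * M} ∪
          ((Finset.Ico (x + k * M) (x + k * M + M)).filter (fun m => Nat.Coprime M m) :
            Finset ℕ) := by
        intro m hm
        obtain ⟨h1, h2, h3⟩ := hm
        have e1 : (k + 1) * M = k * M + M := by ring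
        rw [e1] at h3
        by_cases h4 : m < x + k * M
        · exact Or.inl ⟨h1, h2, h4⟩
        · refine Or.inr ?_
          rw [Finset.mem_coe, Finset.mem_filter, Finset.mem_Ico]
          exact ⟨⟨by omega, by omega⟩, h1⟩
      have hfin : ({m : ℕ | Nat.Coprime M m ∧ x ≤ m ∧ m < x + k * M} ∪
          (((Finset.Ico (x + k * M) (x + k * M + M)).filter (fun m => Nat.Coprime M m) :
            Finset ℕ) : Set ℕ)).Finite :=
        ((Set.finite_lt_nat (x + k * M)).subset (fun m hm => hm.2.2)).union (Finset.finite_toSet _)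
      refine (Set.ncard_le_ncard e hfin).trans ((Set.ncard_union_le _ _).trans ?_)
      rw [Set.ncard_coe_finset, Nat.filter_coprime_Ico_eq_totient]
      have : (k + 1) * Nat.totient M = k * Nat.totient M + Nat.totient M := by ring
      omega
  refine le_trans ?_ (hsub (X / M + 1))
  apply Set.ncard_le_ncard
  · intro m hm
    refine ⟨hm.1, hm.2.1, ?_⟩
    have h1 := hm.2.2
    have h2 : X < (X / M + 1) * M := by
      have := Nat.lt_div_mul_add (a := X) hM
      linarith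
    omega
  · exact (Set.finite_lt_nat _).subset (fun m hm => hm.2.2)

/-- Integers without prime factor in a set of primes with divergent reciprocal sum have uniform
density 0. -/
theorem udens_zero_of_not_summable (S : Set ℕ) (hS : ∀ p ∈ S, p.Prime)
    (hdiv : ¬ Summable (Set.indicator S (fun p : ℕ => (1 : ℝ) / p))) :
    UDens0 {m : ℕ | ∀ p ∈ S, ¬ p ∣ m} := by
  classical
  intro ε hε
  obtain ⟨t, ht1, ht2⟩ := exists_small_prod S hS hdiv (ε / 2) (by positivity)
  have htp : ∀ p ∈ t, p.Prime := fun p hp => hS p (ht1 p hp)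
  set M := ∏ p ∈ t, p with hMdef
  have hM : 0 < M := Finset.prod_pos (fun p hp => (htp p hp).pos)
  have htot := totient_prod_eq t htp
  rw [← hMdef] at htot
  refine ⟨M, fun X x hX => ?_⟩
  have h1 : {m : ℕ | m ∈ {m : ℕ | ∀ p ∈ S, ¬ p ∣ m} ∧ x ≤ m ∧ m < x + X} ⊆
      {m : ℕ | Nat.Coprime M m ∧ x ≤ m ∧ m < x + X} := by
    rintro m ⟨h1, h2⟩
    refine ⟨?_, h2⟩
    apply Nat.Coprime.prod_left
    intro p hp
    rw [Nat.Prime.coprime_iff_not_dvd (htp p hp)]
    exact h1 p (ht1 p hp)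
  have hfin : {m : ℕ | Nat.Coprime M m ∧ x ≤ m ∧ m < x + X}.Finite :=
    (Set.finite_lt_nat (x + X)).subset (fun m hm => hm.2.2)
  have h2 := (Set.ncard_le_ncard h1 hfin).trans (count_coprime_le M hM x X)
  have h3 : (({m : ℕ | m ∈ {m : ℕ | ∀ p ∈ S, ¬ p ∣ m} ∧ x ≤ m ∧ m < x + X}.ncard : ℕ) : ℝ) ≤
      (((X / M : ℕ) : ℝ) + 1) * (Nat.totient M : ℝ) := by exact_mod_cast h2
  refine h3.trans ?_
  have hMr : (0 : ℝ) < M := by exact_mod_cast hM
  have h4 : ((X / M : ℕ) : ℝ) ≤ X / M := Nat.cast_div_le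
  have h5 : (1 : ℝ) ≤ X / M := by
    rw [le_div_iff₀ hMr]
    have : (M : ℝ) ≤ X := by exact_mod_cast hX
    linarith
  have h6 : (Nat.totient M : ℝ) ≤ M * (ε / 2) := by
    rw [htot]
    exact mul_le_mul_of_nonneg_left ht2 hMr.le
  calc (((X / M : ℕ) : ℝ) + 1) * (Nat.totient M : ℝ) ≤ (2 * (X / M)) * (M * (ε / 2)) := by
        apply mul_le_mul _ h6 (Nat.cast_nonneg _) (by positivity)
        linarith
    _ = ε * X := by field_simp

end Pool.Agent.SYL
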