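import Pool.Agent.SYL.Defs
import Pool.Agent.SYL.LEVB
import Pool.Agent.SYL.UNI
import Pool.Agent.SYL.UDN

set_option autoImplicit false

/-!
UNB: as kill_uniform in UNI, with uniform density.
-/

namespace Pool.Agent.SYL

open NumberField

/-- One exceptional set of uniform density zero for all patterns. -/
theorem kill_uniform_block (B K M0 : ℕ) : ∃ S : Set ℕ, UDens0 S ∧ ∀ q : ℕ, q ≤ B → ∀ M : ℕ, M ≤ M0 →
    ∀ C : ℕ → ℕ, (∀ j, j ≤ M → C j ≤ K * j) →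
    ¬ Summable (Set.indicator (Kill q C M) (fun p : ℕ => (1 : ℝ) / p)) →
    ∀ m : ℕ, (∀ p ∈ Kill q C M, ¬ p ∣ m) → m ∈ S := by
  classical
  let t : Finset ((ℕ × ℕ) × (Fin (M0 + 1) → Fin (K * M0 + 1))) :=
    ((Finset.range (B + 1) ×ˢ Finset.range (M0 + 1)) ×ˢ Finset.univ).filter
      (fun x => ¬ Summable (Set.indicator (Kill x.1.1 (uniC x.2) x.1.2)
        (fun p : ℕ => (1 : ℝ) / p)))
  let F : ((ℕ × ℕ) × (Fin (M0 + 1) → Fin (K * M0 + 1))) → Set ℕ :=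
    fun x => {m : ℕ | ∀ p ∈ Kill x.1.1 (uniC x.2) x.1.2, ¬ p ∣ m}
  refine ⟨{m : ℕ | ∃ x ∈ t, m ∈ F x}, udens0_union t F ?_, ?_⟩
  · intro x hx
    exact udens_zero_of_not_summable _ (fun p hp => hp.1) (Finset.mem_filter.1 hx).2
  · intro q hq M hM C hC hns m hm
    obtain ⟨f, hf⟩ := exists_uniC K M0 M hM C hC
    have hk : Kill q C M = Kill q (uniC f) M := kill_congr hf
    refine ⟨((q, M), f), ?_, ?_⟩
    · refine Finset.mem_filter.2 ⟨Finset.mem_product.2 ⟨Finset.mem_product.2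
        ⟨Finset.mem_range.2 (Nat.lt_succ_of_le hq), Finset.mem_range.2 (Nat.lt_succ_of_le hM)⟩,
        Finset.mem_univ _⟩, ?_⟩
      rw [hk] at hns
      exact hns
    · show ∀ p ∈ Kill q (uniC f) M, ¬ p ∣ m
      rw [← hk]
      exact hm

end Pool.Agent.SYL
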