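import Pool.Agent.SYL.Defs
import Pool.Agent.SYL.KIL
import Pool.Agent.SYL.SCA
import Pool.Agent.SYL.PGN
import Pool.Agent.SYL.PRB
import Pool.Agent.SYL.BLK
import Pool.Agent.SYL.CHB
import Pool.Agent.SYL.GCB
import Pool.Agent.SYL.UNB
import Pool.Agent.SYL.SLB
import Pool.Agent.SYL.RNB

set_option autoImplicit false

/-!
ABB: final assembly, block version.
-/

namespace Pool.Agent.SYL

open NumberField

/-- Counting the members of `S` on a block. -/
theorem block_count {c b : ℕ → ℕ} (hb : StrictMono b) {u N : ℕ}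
    (hrel : Rel c b u N) (S : Set ℕ) : ∃ x : ℕ,
    {n : ℕ | n < N ∧ n ∈ {n : ℕ | c (u + n) ∈ S}}.ncard ≤
      {m : ℕ | m ∈ S ∧ x ≤ m ∧ m < x + (b N + 1)}.ncard := by
  rcases hrel with hr | hr
  · refine ⟨c u, ?_⟩
    have hfin : {m : ℕ | m ∈ S ∧ c u ≤ m ∧ m < c u + (b N + 1)}.Finite :=
      (Set.finite_lt_nat _).subset (fun m hm => hm.2.2)
    refine Set.ncard_le_ncard_of_injOn (fun n => c (u + n)) ?_ ?_ hfin
    · rintro n ⟨h1, h2⟩
      refine ⟨h2, ?_, ?_⟩
      · show c u ≤ c (u + n)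
        rw [hr n h1.le]
        omega
      · show c (u + n) < c u + (b N + 1)
        rw [hr n h1.le]
        have := hb h1
        omega
    · rintro n ⟨h1, -⟩ m ⟨h2, -⟩ h3
      simp only at h3
      rw [hr n h1.le, hr m h2.le] at h3
      exact hb.injective (by omega)
  · refine ⟨c (u + N), ?_⟩
    have hfin : {m : ℕ | m ∈ S ∧ c (u + N) ≤ m ∧ m < c (u + N) + (b N + 1)}.Finite :=
      (Set.finite_lt_nat _).subset (fun m hm => hm.2.2)
    have hN := hr N le_rfl
    refine Set.ncard_le_ncard_of_injOn (fun n => c (u + n)) ?_ ?_ hfin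
    · rintro n ⟨h1, h2⟩
      have h3 := hr n h1.le
      have h4 := hb h1
      refine ⟨h2, ?_, ?_⟩
      · show c (u + N) ≤ c (u + n)
        omega
      · show c (u + n) < c (u + N) + (b N + 1)
        omega
    · rintro n ⟨h1, -⟩ m ⟨h2, -⟩ h3
      simp only at h3
      have e1 := hr n h1.le
      have e2 := hr m h2.le
      rw [h3] at e1
      exact hb.injective (by omega)

/-- The coprime case, block version. -/
theorem abs_block_coprime {c Q a : ℕ → ℕ} (h : Sys c Q a)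
    (hcop : ∀ n, Nat.Coprime (c n) (Q n)) (K : ℕ) (hK : 1 ≤ K)
    (hblk : ∀ W n0 : ℕ, ∃ u, n0 ≤ u ∧ Blk c K u W) : False := by
  obtain ⟨K', hK'⟩ : ∃ K' : ℕ, K' = 20 * K := ⟨_, rfl⟩
  have hK'1 : 1 ≤ K' := by omega
  obtain ⟨p, m1, hp, hpK, hm1⟩ := exists_prime' h hcop (4 * K')
  obtain ⟨T0, hT0⟩ : ∃ T0 : ℕ, T0 = 2 * (K' + 2) + 16 * K' ^ 2 + 2 + (4 * K' + 2) * (p + 1) :=
    ⟨_, rfl⟩
  obtain ⟨I0, l, T, hI00, hI2, hIs, hl, hsep⟩ := exists_scales K' K' T0 K'
  -- bound for the scales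
  have hIT : ∀ a, I0 a ≤ T a := fun a => le_trans (hl a).2.2.2.2.2.2.1 (hl a).2.2.2.2.2.2.2
  have hIm : ∀ a, T0 ≤ I0 a := by
    intro a
    induction a with
    | zero => exact hI00
    | succ a ih =>
      have := hIT a
      rw [hIs]
      omega
  obtain ⟨TT, hTT⟩ : ∃ TT : ℕ, ∀ a, a ≤ K' → T a ≤ TT := by
    refine ⟨∑ a ∈ Finset.range (K' + 1), T a, fun a ha => ?_⟩
    exact Finset.single_le_sum (f := T) (fun _ _ => Nat.zero_le _)
      (Finset.mem_range.2 (by omega))
  obtain ⟨S, hS, hSk⟩ := kill_uniform_block K' K' (TT + 1)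
  obtain ⟨N0, hN0⟩ := exists_good_block K K' hK (by omega) l T
      (fun a _ => by
        have h1 := (hl a).2.2.2.2.1
        have h2 : 40 * (K' + 1) * K ≤ 40 * (K' + 1) * K' := Nat.mul_le_mul_left _ (by omega)
        omega)
      (fun a _ => le_of_eq (hl a).2.2.2.2.2.1.symm) (TT + 3)
  have hKr : (0 : ℝ) < K := by exact_mod_cast hK
  obtain ⟨X0, hX0⟩ := hS (1 / (40 * K)) (by positivity)
  obtain ⟨N, hNdef⟩ : ∃ N : ℕ, N = N0 + X0 + 1 := ⟨_, rfl⟩
  obtain ⟨u, hu, hB⟩ := hblk N m1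
  obtain ⟨b, hb, -, hbN, hrel⟩ := blk_fn hB
  have hbNN : N ≤ b N := hb.le_apply
  have hcount : 20 * {n : ℕ | n < N ∧ n ∈ {n : ℕ | c (u + n) ∈ S}}.ncard ≤ N := by
    obtain ⟨x, hx⟩ := block_count hb hrel S
    have h1 := hX0 (b N + 1) x (by omega)
    have h2 : (({n : ℕ | n < N ∧ n ∈ {n : ℕ | c (u + n) ∈ S}}.ncard : ℕ) : ℝ) ≤
        1 / (40 * K) * ((b N + 1 : ℕ) : ℝ) := le_trans (by exact_mod_cast hx) h1
    have h3 : ((b N + 1 : ℕ) : ℝ) ≤ 2 * K * N := by
      have : b N + 1 ≤ 2 * K * N := by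
        have h4 : 1 ≤ K * N := Nat.mul_pos hK (by omega)
        have h5 : 2 * K * N = K * N + K * N := by ring
        omega
      exact_mod_cast this
    have h4 : 1 / (40 * (K : ℝ)) * ((b N + 1 : ℕ) : ℝ) ≤ 1 / (40 * K) * (2 * K * N) :=
      mul_le_mul_of_nonneg_left h3 (by positivity)
    have h5 : 1 / (40 * (K : ℝ)) * (2 * K * N) = N / 20 := by
      have hK0 : (K : ℝ) ≠ 0 := hKr.ne'
      field_simp
      ring
    have h6 : (20 : ℝ) * (({n : ℕ | n < N ∧ n ∈ {n : ℕ | c (u + n) ∈ S}}.ncard : ℕ) : ℝ) ≤ N := by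
      linarith
    exact_mod_cast h6
  obtain ⟨n, hn0, hnN, hlin, hjump, hret, hstep, hnS⟩ := hN0 b hb N (by omega) hbN _ hcount
  rw [← hK'] at hlin hstep
  obtain ⟨a, haJ, hnj⟩ := exists_no_jump b n K' I0 T hIs hIT hjump
  obtain ⟨i, hfr, hiT, hin, hnx⟩ := hret a haJ
  obtain ⟨hlp, hl2, hlB, hlI, hl40, hTa, hIl, hlT⟩ := hl a
  have hTaTT := hTT a haJ
  obtain ⟨C, hC⟩ : ∃ C : ℕ → ℕ, C = fun j => b n - b (n - j) := ⟨_, rfl⟩
  have hCj : ∀ j, C j = b n - b (n - j) := fun j => by rw [hC]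
  have hlinC : ∀ j, j ≤ n → C j ≤ K' * j := by
    intro j hj
    rcases Nat.eq_zero_or_pos j with h0 | h0
    · subst h0
      simp [hCj]
    · rw [hCj]
      exact hlin j h0 hj
  have hmonoC : ∀ j, j + 1 ≤ n → C j < C (j + 1) := by
    intro j hj
    rw [hCj, hCj]
    have h1 : b (n - (j + 1)) < b (n - j) := hb (by omega)
    have h2 : b (n - j) ≤ b n := hb.monotone (by omega)
    omega
  have hq1 : 0 < b (n + 1) - b n := by
    have := hb (Nat.lt_succ_self n)
    simp only [Nat.succ_eq_add_one] at this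
    omega
  have hqK : b (n + 1) - b n ≤ K' := hstep
  obtain ⟨hi1, hi2, hdvd, hmin⟩ := hfr
  have hCi0 : 0 < C i := by
    rw [hCj]
    have h1 : b (n - i) < b n := hb (by omega)
    omega
  have hdi : l a ∣ C i := by rw [hCj]; exact hdvd
  have hli : l a ≤ C i := Nat.le_of_dvd hCi0 hdi
  have hCiK : C i ≤ K' * i := hlinC i hi2
  have hlate : I0 a + 2 * K' + 1 < i := by
    by_contra hcon
    have h1 : i ≤ I0 a + 2 * K' + 1 := by omega
    have h2 : K' * i ≤ K' * (I0 a + 2 * K' + 2) := Nat.mul_le_mul_left _ (by omega)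
    omega
  have hpat : Pat (b (n + 1) - b n) C K' (I0 a) i (l a) := by
    refine ⟨hq1, by simp [hCj], hK'1, hI2 a, fun j hj => hmonoC j (by omega),
      fun j hj => hlinC j (by omega), ?_, ?_, hlp, hl2, ?_, ?_, hdi, ?_, ?_, hlate⟩
    · intro j hj1 hj2
      have h1 := hnj j hj1 (by omega)
      have h2 := hI2 a
      by_contra hcon
      apply h1
      refine ⟨by omega, by omega, ?_⟩
      rw [hCj, hCj] at hcon
      have e : n - (j - 1) = n - j + 1 := by omega
      rw [e] at hcon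
      omega
    · rw [hC]
      exact irr_block (T := I0 a) hb (K := K') (B := K') hrel hnN.le
        (by have := hIT a; omega) hp hpK hK'1 hm1 hu hqK hlin (by rw [← hT0]; exact hIm a)
    · intro hdq
      have := Nat.le_of_dvd hq1 hdq
      omega
    · intro j hj1 hj2
      rw [hCj]
      exact hmin j hj1 hj2
    · intro hd2
      have h1 := Nat.le_of_dvd hCi0 hd2
      have h2 : K' * i ≤ K' * T a := Nat.mul_le_mul_left _ hiT
      rw [hTa] at h2
      have h3 : K' * (40 * (K' + 1) * l a) = 40 * (K' + 1) * K' * l a := by ring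
      rw [h3] at h2
      have h4 : 40 * (K' + 1) * K' * l a < l a * l a :=
        Nat.mul_lt_mul_of_pos_right hl40 (by omega)
      have h5 : l a ^ 2 = l a * l a := sq _
      omega
    · intro hd1
      apply hnx
      have h1 : C (i + 1) - C i = b (n - i) - b (n - i - 1) := by
        rw [hCj, hCj]
        have e : n - (i + 1) = n - i - 1 := by omega
        rw [e]
        have h2 : b (n - i - 1) ≤ b (n - i) := hb.monotone (by omega)
        have h3 : b (n - i) ≤ b n := hb.monotone (by omega)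
        omega
      rw [← h1]
      exact Nat.dvd_sub hd1 hdi
  have hsepP : SepOK (b (n + 1) - b n) C (I0 a + 2 * K' + 1) (l a) :=
    hsep a _ hqK C (fun j hj => hmonoC j (by omega)) (fun j hj => hlinC j (by omega))
  have hkill := kill_main hpat hsepP
  apply hnS
  show c (u + n) ∈ S
  refine hSk _ hqK (i + 1) (by omega) C (fun j hj => hlinC j (by omega)) hkill (c (u + n)) ?_
  intro r hr hrd
  exact chain_block h hb hrel (n := n) (M := i + 1) hnN (by omega) hrd C (fun j _ => hCj j) hr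

/-- Abstract main theorem, block version. -/
theorem abs_block {c Q a : ℕ → ℕ} (h : Sys c Q a) (K : ℕ)
    (hblk : ∀ W n0 : ℕ, ∃ u, n0 ≤ u ∧ Blk c K u W) : False := by
  obtain ⟨c', Q', a', h', hcop, hK, hblk'⟩ := exists_coprime_block h K hblk
  exact abs_block_coprime h' hcop K hK hblk'

end Pool.Agent.SYL
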