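import Pool.Agent.SYL.Defs

set_option autoImplicit false

/-!
SQA: d = denominator of r. P n = prod_(j<n) a j, T n = tail sum. d P n T n = d P n (r - sum_(j<n) 1/a j) is an integer (d r is an
integer, P n / a j is an integer) and positive. T (n+1) = T n - 1/a n gives the recursion. a n T n -> 1: 1 <= a n T n <= 1 + a n sum_(j>n) 1/a j and
a (n+1) >= a n^2 / 2 for large n, so a (n + 1 + k) >= 2^k a (n+1) and a n T n <= 1 + 2 a n / a (n+1) -> 1. Then
c (n+1)/c n = a n T (n+1) / T n = (a (n+1) T (n+1)) / (a n T n) * (a n^2 / a (n+1)) -> 1.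
-/

namespace Pool.Agent.SYL

open NumberField

/-- From a rational sum of reciprocals to integers `c n`. -/
theorem exists_system (a : ℕ → ℕ) (ha : StrictMono a) (h0 : 0 < a 0)
    (hlim : Filter.Tendsto (fun n : ℕ => (a (n + 1) : ℝ) / (a n : ℝ) ^ 2) Filter.atTop (nhds 1))
    (r : ℚ) (hsum : HasSum (fun n : ℕ => (1 : ℝ) / a n) (r : ℝ)) :
    ∃ (c : ℕ → ℕ) (d : ℕ), 0 < d ∧ (∀ n, 0 < c n) ∧
      (∀ n, a n * c n = c (n + 1) + d * ∏ j ∈ Finset.range n, a j) ∧
      (∀ n, (c n : ℝ) = d * (∏ j ∈ Finset.range n, (a j : ℝ)) * ∑' j, (1 : ℝ) / a (n + j)) ∧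
      Filter.Tendsto (fun n : ℕ => (c (n + 1) : ℝ) / c n) Filter.atTop (nhds 1) ∧
      (∀ᶠ n in Filter.atTop, (c n : ℝ) * a n ≤ 2 * d * ∏ j ∈ Finset.range n, (a j : ℝ)) := by
  have hapos : ∀ n, 0 < a n := fun n => lt_of_lt_of_le h0 (ha.monotone (Nat.zero_le n))
  have haR : ∀ n, (0 : ℝ) < a n := fun n => by exact_mod_cast hapos n
  have hage : ∀ n, n ≤ a n := fun n => ha.id_le n
  set P : ℕ → ℕ := fun n => ∏ j ∈ Finset.range n, a j with hP
  have hPR : ∀ n, ((P n : ℕ) : ℝ) = ∏ j ∈ Finset.range n, (a j : ℝ) := by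
    intro n; simp only [hP]; push_cast; rfl
  have hPpos : ∀ n, (0 : ℝ) < P n := by
    intro n; rw [hPR]; exact Finset.prod_pos fun j _ => haR j
  have hPs : ∀ n, P (n + 1) = P n * a n := by
    intro n; simp only [hP]; rw [Finset.prod_range_succ]
  set T : ℕ → ℝ := fun n => ∑' j, (1 : ℝ) / a (n + j) with hT
  have hsumm : Summable (fun n : ℕ => (1 : ℝ) / a n) := hsum.summable
  have hsummn : ∀ n, Summable (fun j : ℕ => (1 : ℝ) / a (n + j)) := by
    intro n
    have h := (summable_nat_add_iff (f := fun n : ℕ => (1 : ℝ) / a n) n).mpr hsumm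
    refine h.congr fun j => ?_
    rw [add_comm]
  have hTs : ∀ n, T n = 1 / a n + T (n + 1) := by
    intro n
    simp only [hT]
    rw [(hsummn n).tsum_eq_zero_add]
    congr 1
    refine tsum_congr fun j => ?_
    rw [show n + (j + 1) = n + 1 + j by ring]
  have hT0 : T 0 = r := by
    simp only [hT, Nat.zero_add]
    exact hsum.tsum_eq
  have hTpos : ∀ n, 0 < T n := by
    intro n
    have h1 : 0 ≤ T (n + 1) := tsum_nonneg fun j => by positivity
    have h2 := haR n
    rw [hTs]
    positivity
  set d : ℕ := r.den with hd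
  have hdpos : 0 < d := r.den_pos
  have hdR : (0 : ℝ) < d := by exact_mod_cast hdpos
  -- integers
  have hz : ∀ n, ∃ z : ℕ, (z : ℝ) = d * P n * T n := by
    intro n
    have hzi : ∃ z : ℤ, (z : ℝ) = d * P n * T n := by
      induction n with
      | zero =>
        refine ⟨r.num, ?_⟩
        rw [hT0]
        simp only [hP, Finset.range_zero, Finset.prod_empty, Nat.cast_one, mul_one]
        have h := Rat.mul_den_eq_num r
        have h' : ((r * r.den : ℚ) : ℝ) = ((r.num : ℚ) : ℝ) := by rw [h]
        push_cast at h'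
        rw [← h']
        ring
      | succ n ih =>
        obtain ⟨z, hz⟩ := ih
        refine ⟨a n * z - d * P n, ?_⟩
        have h1 := hTs n
        have h2 : T (n + 1) = T n - 1 / a n := by linarith
        push_cast
        rw [hz, hPs, h2]
        have := (haR n).ne'
        push_cast
        field_simp
    obtain ⟨z, hz⟩ := hzi
    have hzpos : (0 : ℝ) < z := by
      rw [hz]
      have := hPpos n
      have := hTpos n
      positivity
    have hzp : 0 < z := by exact_mod_cast hzpos
    refine ⟨z.toNat, ?_⟩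
    rw [← hz]
    have : ((z.toNat : ℤ) : ℝ) = (z : ℝ) := by rw [Int.toNat_of_nonneg hzp.le]
    exact_mod_cast this
  choose c hc using hz
  have hcposR : ∀ n, (0 : ℝ) < c n := by
    intro n
    rw [hc]
    have := hPpos n
    have := hTpos n
    positivity
  -- a m ≥ 4, growth
  have hev : ∀ᶠ n in Filter.atTop, (1 : ℝ) / 2 ≤ (a (n + 1) : ℝ) / (a n : ℝ) ^ 2 :=
    (hlim.eventually (lt_mem_nhds (by norm_num : (1 / 2 : ℝ) < 1))).mono fun n hn => hn.le
  obtain ⟨N0, hN0⟩ := Filter.eventually_atTop.mp hev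
  set N := max N0 4 with hN
  have hdouble : ∀ n, N ≤ n → 2 * (a n : ℝ) ≤ a (n + 1) := by
    intro n hn
    have h1 := hN0 n (le_trans (le_max_left _ _) hn)
    have h2 := haR n
    rw [le_div_iff₀ (by positivity)] at h1
    have h3 : (4 : ℝ) ≤ a n := by
      have h4 : 4 ≤ a n := le_trans (le_trans (le_max_right _ _) hn) (hage n)
      exact_mod_cast h4
    nlinarith
  have hpow : ∀ n, N ≤ n → ∀ k, 2 ^ k * (a n : ℝ) ≤ a (n + k) := by
    intro n hn k
    induction k with
    | zero => simp
    | succ k ih =>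
      have h1 := hdouble (n + k) (by omega)
      rw [show n + (k + 1) = n + k + 1 by ring, pow_succ]
      linarith
  have hTle : ∀ n, N ≤ n → T n ≤ 2 / a n := by
    intro n hn
    have h2 := haR n
    have hg : HasSum (fun k : ℕ => (1 / (a n : ℝ)) * (1 / 2 : ℝ) ^ k) ((1 / (a n : ℝ)) * 2) := by
      have := hasSum_geometric_two
      exact this.mul_left _
    have h3 : T n ≤ (1 / (a n : ℝ)) * 2 := by
      rw [← hg.tsum_eq]
      refine Summable.tsum_le_tsum (fun k => ?_) (hsummn n) hg.summable
      have h4 := hpow n hn k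
      have h5 : (1 / (a n : ℝ)) * (1 / 2 : ℝ) ^ k = 1 / (2 ^ k * (a n : ℝ)) := by
        rw [one_div_pow]
        have := h2.ne'
        field_simp
      rw [h5]
      exact one_div_le_one_div_of_le (by positivity) h4
    calc T n ≤ (1 / (a n : ℝ)) * 2 := h3
      _ = 2 / a n := by ring
  -- a n / a (n+1) → 0
  have hainf : Filter.Tendsto (fun n : ℕ => (a n : ℝ)) Filter.atTop Filter.atTop :=
    tendsto_natCast_atTop_atTop.comp ha.tendsto_atTop
  have hinv : Filter.Tendsto (fun n : ℕ => (a n : ℝ)⁻¹) Filter.atTop (nhds 0) :=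
    tendsto_inv_atTop_zero.comp hainf
  have hlim' : Filter.Tendsto (fun n : ℕ => ((a (n + 1) : ℝ) / (a n : ℝ) ^ 2)⁻¹)
      Filter.atTop (nhds 1) := by
    have := hlim.inv₀ one_ne_zero
    simpa using this
  have hratio : Filter.Tendsto (fun n : ℕ => (a n : ℝ) / a (n + 1)) Filter.atTop (nhds 0) := by
    have h := hlim'.mul hinv
    rw [one_mul] at h
    refine h.congr fun n => ?_
    have := (haR n).ne'
    have := (haR (n + 1)).ne'
    field_simp
  have haT : Filter.Tendsto (fun n : ℕ => (a n : ℝ) * T n) Filter.atTop (nhds 1) := by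
    have hup : Filter.Tendsto (fun n : ℕ => 1 + 2 * ((a n : ℝ) / a (n + 1)))
        Filter.atTop (nhds 1) := by
      have h := (hratio.const_mul 2).const_add 1
      simpa using h
    refine tendsto_of_tendsto_of_tendsto_of_le_of_le' tendsto_const_nhds hup ?_ ?_
    · refine Filter.Eventually.of_forall fun n => ?_
      have h1 := hTs n
      have h2 := hTpos (n + 1)
      have h3 := haR n
      rw [h1, mul_add, mul_one_div_cancel h3.ne']
      have : 0 < (a n : ℝ) * T (n + 1) := by positivity
      linarith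
    · refine Filter.eventually_atTop.mpr ⟨N, fun n hn => ?_⟩
      have h1 := hTs n
      have h2 := hTle (n + 1) (by omega)
      have h3 := haR n
      have h4 := haR (n + 1)
      rw [h1, mul_add, mul_one_div_cancel h3.ne']
      have h5 : (a n : ℝ) * T (n + 1) ≤ a n * (2 / a (n + 1)) :=
        mul_le_mul_of_nonneg_left h2 h3.le
      have h6 : (a n : ℝ) * (2 / a (n + 1)) = 2 * ((a n : ℝ) / a (n + 1)) := by ring
      linarith
  refine ⟨c, d, hdpos, fun n => by exact_mod_cast hcposR n, ?_, ?_, ?_, ?_⟩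
  · intro n
    have h : (a n : ℝ) * c n = c (n + 1) + d * P n := by
      rw [hc, hc, hPs, hTs n]
      have := (haR n).ne'
      push_cast
      field_simp
      ring
    exact_mod_cast h
  · intro n
    rw [hc n, hPR]
  · have haT1 : Filter.Tendsto (fun n : ℕ => (a (n + 1) : ℝ) * T (n + 1)) Filter.atTop (nhds 1) :=
      haT.comp (Filter.tendsto_add_atTop_nat 1)
    have h := (haT1.mul (haT.inv₀ one_ne_zero)).mul hlim'
    simp only [inv_one, mul_one] at h
    refine h.congr fun n => ?_
    rw [hc, hc, hPs]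
    have := (haR n).ne'
    have := (haR (n + 1)).ne'
    have := (hPpos n).ne'
    have := (hTpos n).ne'
    have := hdR.ne'
    push_cast
    field_simp
  · refine Filter.eventually_atTop.mpr ⟨N, fun n hn => ?_⟩
    have h1 := hTle n hn
    have h3 := haR n
    rw [hc n, ← hPR]
    have h5 : T n * a n ≤ 2 := by
      rw [le_div_iff₀ h3] at h1
      exact h1
    have h6 := hPpos n
    calc (d : ℝ) * P n * T n * a n = (d * P n) * (T n * a n) := by ring
      _ ≤ (d * P n) * 2 := mul_le_mul_of_nonneg_left h5 (by positivity)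
      _ = 2 * d * P n := by ring

end Pool.Agent.SYL
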