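import Pool.Agent.SYL.Defs

set_option autoImplicit false

/-!
SQC: size of c n, signs of the steps, and the recurrence of Sylvester after one constant step (two sided version).
-/

namespace Pool.Agent.SYL

open NumberField

theorem c_small_aux (a c : ℕ → ℕ) (ha : StrictMono a) (h0 : 0 < a 0)
    (hpos : ∀ n, 0 < c n)
    (hlim : Filter.Tendsto (fun n : ℕ => (a (n + 1) : ℝ) / (a n : ℝ) ^ 2) Filter.atTop (nhds 1))
    (hratio : Filter.Tendsto (fun n : ℕ => (c (n + 1) : ℝ) / c n) Filter.atTop (nhds 1)) :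
    ∀ᶠ n in Filter.atTop, 2 * c (n + 1) * a n ≤ c n * a (n + 1) ∧ c (n + 1) < 2 * c n := by
  have h1 := hratio.eventually (gt_mem_nhds (show (1 : ℝ) < 3 / 2 by norm_num))
  have h2 := hlim.eventually (lt_mem_nhds (show (1 / 2 : ℝ) < 1 by norm_num))
  filter_upwards [h1, h2, Filter.eventually_ge_atTop 6] with n hn1 hn2 hn6
  have hc : (0 : ℝ) < c n := by exact_mod_cast hpos n
  have hn : n ≤ a n := ha.le_apply
  have han : (6 : ℝ) ≤ a n := by exact_mod_cast hn6.trans hn
  rw [div_lt_iff₀ hc] at hn1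
  rw [lt_div_iff₀ (by positivity)] at hn2
  refine ⟨?_, ?_⟩
  · have h3 : (2 : ℝ) * c (n + 1) * a n ≤ c n * a (n + 1) := by
      have h4 : (2 : ℝ) * c (n + 1) * a n ≤ 3 * c n * a n := by
        have := mul_le_mul_of_nonneg_right hn1.le (by positivity : (0 : ℝ) ≤ 2 * a n)
        linarith
      have h5 : (3 : ℝ) * a n ≤ a (n + 1) := by nlinarith
      have h6 : (3 : ℝ) * c n * a n ≤ c n * a (n + 1) := by
        have := mul_le_mul_of_nonneg_left h5 hc.le
        linarith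
      linarith
    exact_mod_cast h3
  · have : (c (n + 1) : ℝ) < 2 * c n := by linarith
    exact_mod_cast this

/-- `c n` is small compared with `a n`. -/
theorem c_small (a c : ℕ → ℕ) (ha : StrictMono a) (h0 : 0 < a 0)
    (hpos : ∀ n, 0 < c n)
    (hlim : Filter.Tendsto (fun n : ℕ => (a (n + 1) : ℝ) / (a n : ℝ) ^ 2) Filter.atTop (nhds 1))
    (hratio : Filter.Tendsto (fun n : ℕ => (c (n + 1) : ℝ) / c n) Filter.atTop (nhds 1)) :
    ∀ᶠ n in Filter.atTop, 4 * c n < a n ∧ c (n + 1) < 2 * c n := by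
  obtain ⟨n1, hn1⟩ := Filter.eventually_atTop.1 (c_small_aux a c ha h0 hpos hlim hratio)
  have hapos : ∀ n, 0 < a n := fun n => lt_of_lt_of_le h0 (ha.monotone (Nat.zero_le n))
  have hind : ∀ k, 2 ^ k * c (n1 + k) * a n1 ≤ c n1 * a (n1 + k) := by
    intro k
    induction k with
    | zero => simp
    | succ k ih =>
      have h1 := (hn1 (n1 + k) (by omega)).1
      have e : n1 + (k + 1) = n1 + k + 1 := by omega
      rw [e]
      have h2 : (2 ^ (k + 1) * c (n1 + k + 1) * a n1) * a (n1 + k) ≤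
          (c n1 * a (n1 + k + 1)) * a (n1 + k) := by
        calc (2 ^ (k + 1) * c (n1 + k + 1) * a n1) * a (n1 + k)
            = (2 ^ k * a n1) * (2 * c (n1 + k + 1) * a (n1 + k)) := by ring
          _ ≤ (2 ^ k * a n1) * (c (n1 + k) * a (n1 + k + 1)) := Nat.mul_le_mul_left _ h1
          _ = (2 ^ k * c (n1 + k) * a n1) * a (n1 + k + 1) := by ring
          _ ≤ (c n1 * a (n1 + k)) * a (n1 + k + 1) := Nat.mul_le_mul_right _ ih
          _ = (c n1 * a (n1 + k + 1)) * a (n1 + k) := by ring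
      exact Nat.le_of_mul_le_mul_right h2 (hapos _)
  rw [Filter.eventually_atTop]
  refine ⟨n1 + (4 * c n1 + 1), fun n hn => ⟨?_, (hn1 n (by omega)).2⟩⟩
  obtain ⟨k, rfl⟩ : ∃ k, n = n1 + k := ⟨n - n1, by omega⟩
  have h1 := hind k
  have h2 : 4 * c n1 < 2 ^ k := lt_of_lt_of_le (by omega) (Nat.lt_two_pow_self (n := k)).le
  have h3 := hapos n1
  have h4 := hapos (n1 + k)
  have h5 := hpos (n1 + k)
  have h6 := hpos n1
  -- 4 c n1 * c (n1+k) < 2^k * c (n1+k) * a n1 ≤ c n1 * a (n1+k)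
  have h7 : c n1 * (4 * c (n1 + k)) < c n1 * a (n1 + k) := by
    calc c n1 * (4 * c (n1 + k)) = (4 * c n1) * c (n1 + k) := by ring
      _ < 2 ^ k * c (n1 + k) := Nat.mul_lt_mul_of_pos_right h2 h5
      _ ≤ 2 ^ k * c (n1 + k) * a n1 := Nat.le_mul_of_pos_right _ h3
      _ ≤ c n1 * a (n1 + k) := h1
  exact Nat.lt_of_mul_lt_mul_left h7

/-- The sign of the step of `c` is the sign of `a n ^ 2 - a n + 1 - a (n + 1)`. -/
theorem c_sign (a c : ℕ → ℕ) (d : ℕ) (ha : StrictMono a) (h0 : 0 < a 0)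
    (hpos : ∀ n, 0 < c n)
    (hrec : ∀ n, a n * c n = c (n + 1) + d * ∏ j ∈ Finset.range n, a j)
    (hlim : Filter.Tendsto (fun n : ℕ => (a (n + 1) : ℝ) / (a n : ℝ) ^ 2) Filter.atTop (nhds 1))
    (hratio : Filter.Tendsto (fun n : ℕ => (c (n + 1) : ℝ) / c n) Filter.atTop (nhds 1)) :
    ∀ᶠ n in Filter.atTop, (a (n + 1) ≤ a n ^ 2 - a n + 1 → c n ≤ c (n + 1)) ∧
      (a n ^ 2 - a n + 1 ≤ a (n + 1) → c (n + 1) ≤ c n) := by
  obtain ⟨n1, hn1⟩ := Filter.eventually_atTop.1 (c_small a c ha h0 hpos hlim hratio)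
  rw [Filter.eventually_atTop]
  refine ⟨n1, fun n hn => ?_⟩
  obtain ⟨h1, h2⟩ := hn1 n hn
  obtain ⟨-, h3⟩ := hn1 (n + 1) (by omega)
  have hapos : 0 < a n := lt_of_lt_of_le h0 (ha.monotone (Nat.zero_le n))
  have r1 := hrec n
  have r2 := hrec (n + 1)
  rw [Finset.prod_range_succ] at r2
  have z1 : (a n : ℤ) * c n = c (n + 1) + d * ∏ j ∈ Finset.range n, (a j : ℤ) := by
    exact_mod_cast r1
  have z2 : (a (n + 1) : ℤ) * c (n + 1) = c (n + 2) +
      d * ((∏ j ∈ Finset.range n, (a j : ℤ)) * a n) := by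
    exact_mod_cast r2
  have key : ((a n : ℤ) ^ 2 - a n + 1 - a (n + 1)) * c (n + 1) =
      (a n : ℤ) ^ 2 * (c (n + 1) - c n) - (c (n + 2) - c (n + 1)) := by
    linear_combination (a n : ℤ) * z1 - z2
  have b1 : (c (n + 1) : ℤ) < (a n : ℤ) ^ 2 := by
    have : (c (n + 1) : ℤ) < a n := by
      have h4 : c (n + 1) < a n := by omega
      exact_mod_cast h4
    have h5 : (1 : ℤ) ≤ a n := by exact_mod_cast hapos
    nlinarith
  have b2 : (c (n + 2) : ℤ) < (a n : ℤ) ^ 2 := by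
    have : (c (n + 2) : ℤ) < a n := by
      have e : n + 1 + 1 = n + 2 := rfl
      rw [e] at h3
      have h4 : c (n + 2) < a n := by omega
      exact_mod_cast h4
    have h5 : (1 : ℤ) ≤ a n := by exact_mod_cast hapos
    nlinarith
  have p1 : (0 : ℤ) < c (n + 1) := by exact_mod_cast hpos (n + 1)
  have p2 : (0 : ℤ) < c (n + 2) := by exact_mod_cast hpos (n + 2)
  have hsub : ((a n ^ 2 - a n + 1 : ℕ) : ℤ) = (a n : ℤ) ^ 2 - a n + 1 := by
    rw [Nat.cast_add, Nat.cast_sub]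
    · push_cast; ring
    · nlinarith
  constructor
  · intro hle
    have hz : (a (n + 1) : ℤ) ≤ (a n : ℤ) ^ 2 - a n + 1 := by
      rw [← hsub]
      exact_mod_cast hle
    by_contra hcon
    have hcz : (c (n + 1) : ℤ) - c n ≤ -1 := by
      have : (c (n + 1) : ℤ) < c n := by exact_mod_cast not_le.1 hcon
      omega
    have k1 : (0 : ℤ) ≤ ((a n : ℤ) ^ 2 - a n + 1 - a (n + 1)) * c (n + 1) :=
      mul_nonneg (by linarith) p1.le
    rw [key] at k1
    have k2 : (a n : ℤ) ^ 2 * (c (n + 1) - c n) ≤ (a n : ℤ) ^ 2 * (-1) :=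
      mul_le_mul_of_nonneg_left hcz (by positivity)
    linarith
  · intro hle
    have hz : (a n : ℤ) ^ 2 - a n + 1 ≤ (a (n + 1) : ℤ) := by
      rw [← hsub]
      exact_mod_cast hle
    by_contra hcon
    have hcz : 1 ≤ (c (n + 1) : ℤ) - c n := by
      have : (c n : ℤ) < c (n + 1) := by exact_mod_cast not_le.1 hcon
      omega
    have k1 : ((a n : ℤ) ^ 2 - a n + 1 - a (n + 1)) * c (n + 1) ≤ 0 :=
      mul_nonpos_of_nonpos_of_nonneg (by linarith) p1.le
    rw [key] at k1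
    have k2 : (a n : ℤ) ^ 2 * 1 ≤ (a n : ℤ) ^ 2 * (c (n + 1) - c n) :=
      mul_le_mul_of_nonneg_left hcz (by positivity)
    linarith

/-- If `c (m+1) = c m` once (late enough) the recurrence of Sylvester holds from then on. -/
theorem sylvester_of_const2 (a c : ℕ → ℕ) (d : ℕ) (ha : StrictMono a) (h0 : 0 < a 0)
    (hpos : ∀ n, 0 < c n)
    (hrec : ∀ n, a n * c n = c (n + 1) + d * ∏ j ∈ Finset.range n, a j) (n0 : ℕ)
    (hlt : ∀ n, n0 ≤ n → c (n + 1) < 2 * c n)
    (m : ℕ) (hm : n0 ≤ m) (heq : c (m + 1) = c m) :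
    ∀ n, m ≤ n → a (n + 1) = a n ^ 2 - a n + 1 := by
  have hconst : ∀ n, m ≤ n → c n = c m ∧ c (n + 1) = c m := by
    intro n hn
    induction n, hn using Nat.le_induction with
    | base => exact ⟨rfl, heq⟩
    | succ n hn ih =>
      obtain ⟨h1, h2⟩ := ih
      refine ⟨h2, ?_⟩
      have r1 := hrec n
      have r2 := hrec (n + 1)
      rw [Finset.prod_range_succ] at r2
      rw [h1, h2] at r1
      rw [h2] at r2
      have d1 : c m ∣ d * ∏ j ∈ Finset.range n, a j := by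
        have : c m ∣ c m + d * ∏ j ∈ Finset.range n, a j := by
          rw [← r1]
          exact Dvd.intro_left _ rfl
        exact (Nat.dvd_add_right (dvd_refl _)).1 this
      have d2 : c m ∣ c (n + 1 + 1) := by
        have e1 : c m ∣ c (n + 1 + 1) + d * ((∏ j ∈ Finset.range n, a j) * a n) := by
          rw [← r2]
          exact Dvd.intro_left _ rfl
        have e2 : c m ∣ d * ((∏ j ∈ Finset.range n, a j) * a n) := by
          rw [← mul_assoc]
          exact Dvd.dvd.mul_right d1 _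
        exact (Nat.dvd_add_left e2).1 e1
      obtain ⟨k, hk⟩ := d2
      have l1 := hlt (n + 1) (by omega)
      have l2 := hpos (n + 1 + 1)
      rw [hk, h2] at l1
      rw [hk] at l2
      have hcm := hpos m
      have k1 : k < 2 := by
        by_contra hcon
        have : c m * 2 ≤ c m * k := Nat.mul_le_mul_left _ (by omega)
        omega
      have k2 : 0 < k := by
        rcases Nat.eq_zero_or_pos k with h | h
        · subst h
          simp at l2
        · exact h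
      have k3 : k = 1 := by omega
      rw [hk, k3, mul_one]
  intro n hn
  obtain ⟨h1, h2⟩ := hconst n hn
  obtain ⟨-, h3⟩ := hconst (n + 1) (by omega)
  have r1 := hrec n
  have r2 := hrec (n + 1)
  rw [Finset.prod_range_succ] at r2
  rw [h1, h2] at r1
  rw [h2, h3] at r2
  have hapos : 0 < a n := lt_of_lt_of_le h0 (ha.monotone (Nat.zero_le n))
  have hcm := hpos m
  have z1 : (a n : ℤ) * c m = c m + d * ∏ j ∈ Finset.range n, (a j : ℤ) := by
    exact_mod_cast r1
  have z2 : (a (n + 1) : ℤ) * c m = c m +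
      d * ((∏ j ∈ Finset.range n, (a j : ℤ)) * a n) := by
    exact_mod_cast r2
  have hz : (a (n + 1) : ℤ) * c m = ((a n : ℤ) ^ 2 - a n + 1) * c m := by
    linear_combination z2 - (a n : ℤ) * z1
  have hcz : (c m : ℤ) ≠ 0 := by exact_mod_cast hcm.ne'
  have hz2 := mul_right_cancel₀ hcz hz
  have hsub : ((a n ^ 2 - a n + 1 : ℕ) : ℤ) = (a n : ℤ) ^ 2 - a n + 1 := by
    rw [Nat.cast_add, Nat.cast_sub]
    · push_cast; ring
    · nlinarith
  rw [← hsub] at hz2
  exact_mod_cast hz2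

end Pool.Agent.SYL
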