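import Pool.Agent.SYL.Defs
import Pool.Agent.SYL.ABB
import Pool.Agent.SYL.SQA
import Pool.Agent.SYL.SQC

set_option autoImplicit false

/-!
REB: final theorem, block version.
-/

namespace Pool.Agent.SYL

open NumberField

/-- The ratio `a 0 * ... * a (n-1) / a n`. -/
noncomputable def Rat0 (a : ℕ → ℕ) (n : ℕ) : ℝ := (∏ j ∈ Finset.range n, (a j : ℝ)) / a n

theorem c_close (a c : ℕ → ℕ) (d : ℕ) (ha : StrictMono a) (h0 : 0 < a 0)
    (hrec : ∀ n, a n * c n = c (n + 1) + d * ∏ j ∈ Finset.range n, a j) (n : ℕ)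
    (hs : c (n + 1) ≤ a n) :
    d * Rat0 a n ≤ c n ∧ (c n : ℝ) ≤ d * Rat0 a n + 1 := by
  have hapos : (0 : ℝ) < a n := by
    exact_mod_cast lt_of_lt_of_le h0 (ha.monotone (Nat.zero_le n))
  have r1 : (a n : ℝ) * c n = c (n + 1) + d * ∏ j ∈ Finset.range n, (a j : ℝ) := by
    exact_mod_cast hrec n
  have e : (c n : ℝ) = d * Rat0 a n + c (n + 1) / a n := by
    unfold Rat0
    field_simp
    linarith
  have h1 : (0 : ℝ) ≤ c (n + 1) / a n := by positivity
  have h2 : (c (n + 1) : ℝ) / a n ≤ 1 := by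
    rw [div_le_one hapos]
    exact_mod_cast hs
  constructor <;> linarith

/-- Final theorem, block version. -/
theorem final_block (a : ℕ → ℕ) (ha : StrictMono a) (h0 : 0 < a 0)
    (hlim : Filter.Tendsto (fun n : ℕ => (a (n + 1) : ℝ) / (a n : ℝ) ^ 2) Filter.atTop (nhds 1))
    (r : ℚ) (hsum : HasSum (fun n : ℕ => (1 : ℝ) / a n) (r : ℝ)) (K : ℝ)
    (hK : ∀ W : ℕ, ∃ᶠ n in Filter.atTop,
      |Rat0 a (n + W) - Rat0 a n| ≤ K * W ∧
      ((∀ j, n ≤ j → j < n + W → a (j + 1) ≤ a j ^ 2 - a j + 1) ∨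
       (∀ j, n ≤ j → j < n + W → a j ^ 2 - a j + 1 ≤ a (j + 1)))) :
    ∀ᶠ n in Filter.atTop, a (n + 1) = a n ^ 2 - a n + 1 := by
  obtain ⟨c, d, hd, hpos, hrec, hct, hratio, hca⟩ := exists_system a ha h0 hlim r hsum
  have hsmall := c_small a c ha h0 hpos hlim hratio
  have hsign := c_sign a c d ha h0 hpos hrec hlim hratio
  obtain ⟨n0, hn0⟩ := Filter.eventually_atTop.1 (hsmall.and hsign)
  have hapos : ∀ n, 0 < a n := fun n => lt_of_lt_of_le h0 (ha.monotone (Nat.zero_le n))
  by_cases hex : ∃ m, n0 ≤ m ∧ c (m + 1) = c m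
  · obtain ⟨m, hm, heq⟩ := hex
    rw [Filter.eventually_atTop]
    exact ⟨m, sylvester_of_const2 a c d ha h0 hpos hrec n0
      (fun n hn => (hn0 n hn).1.2) m hm heq⟩
  · exfalso
    push Not at hex
    obtain ⟨s, hs⟩ : ∃ s, s = n0 + 1 := ⟨_, rfl⟩
    have hsys : Sys (fun n => c (n + s)) (fun n => d * ∏ j ∈ Finset.range (n + s), a j)
        (fun n => a (n + s)) := by
      refine ⟨fun n => ?_, fun n => ?_, fun n => hpos _, fun n => ?_, fun n => ?_⟩
      · have e : n + 1 + s = n + s + 1 := by omega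
        simp only [e]
        exact hrec (n + s)
      · have e : n + 1 + s = n + s + 1 := by omega
        simp only [e]
        rw [Finset.prod_range_succ]
        ring
      · exact Nat.mul_pos hd (Finset.prod_pos fun j _ => hapos j)
      · have h1 : a 0 < a (n + s) := ha (by omega)
        have h2 := h0
        omega
    obtain ⟨K', hK'⟩ := exists_nat_ge ((d : ℝ) * |K| + 1)
    refine abs_block hsys K' ?_
    intro W n1
    obtain ⟨n, ⟨hR, hsg⟩, hnge⟩ := ((hK W).and_eventually
      (Filter.eventually_ge_atTop (n1 + s))).exists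
    refine ⟨n - s, by omega, ?_⟩
    have e0 : n - s + s = n := by omega
    have ej : ∀ j, n - s + j + s = n + j := fun j => by omega
    have ej1 : ∀ j, n - s + j + 1 + s = n + j + 1 := fun j => by omega
    -- closeness
    have hcl : ∀ k, n0 ≤ k → d * Rat0 a k ≤ c k ∧ (c k : ℝ) ≤ d * Rat0 a k + 1 := by
      intro k hk
      obtain ⟨⟨g1, g2⟩, -⟩ := hn0 k hk
      exact c_close a c d ha h0 hrec k (by omega)
    have hbound : |(c (n + W) : ℝ) - c n| ≤ K' * W := by
      rcases Nat.eq_zero_or_pos W with hW | hW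
      · subst hW
        simp
      · obtain ⟨g1, g2⟩ := hcl n (by omega)
        obtain ⟨g3, g4⟩ := hcl (n + W) (by omega)
        have hWr : (1 : ℝ) ≤ W := by exact_mod_cast hW
        have hR' := abs_le.1 hR
        have hd0 : (0 : ℝ) ≤ d := Nat.cast_nonneg d
        have hKK : K * W ≤ |K| * W :=
          mul_le_mul_of_nonneg_right (le_abs_self K) (by positivity)
        have u1 : (d : ℝ) * (Rat0 a (n + W) - Rat0 a n) ≤ d * (|K| * W) :=
          mul_le_mul_of_nonneg_left (by linarith [hR'.2]) hd0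
        have u2 : (d : ℝ) * (Rat0 a n - Rat0 a (n + W)) ≤ d * (|K| * W) :=
          mul_le_mul_of_nonneg_left (by linarith [hR'.1]) hd0
        have u3 : (d : ℝ) * (|K| * W) + 1 ≤ K' * W := by
          have := mul_le_mul_of_nonneg_right hK' (by positivity : (0 : ℝ) ≤ W)
          nlinarith
        rw [abs_le]
        constructor <;> nlinarith
    have hb' := abs_le.1 hbound
    rcases hsg with hsg | hsg
    · refine Or.inl ⟨fun j hj => ?_, ?_⟩
      · show c (n - s + j + s) < c (n - s + j + 1 + s)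
        rw [ej, ej1]
        have h1 := (hn0 (n + j) (by omega)).2.1 (hsg (n + j) (by omega) (by omega))
        have h2 := hex (n + j) (by omega)
        omega
      · show c (n - s + W + s) ≤ c (n - s + s) + K' * W
        rw [ej, e0]
        have : (c (n + W) : ℝ) ≤ c n + K' * W := by linarith [hb'.2]
        exact_mod_cast this
    · refine Or.inr ⟨fun j hj => ?_, ?_⟩
      · show c (n - s + j + 1 + s) < c (n - s + j + s)
        rw [ej, ej1]
        have h1 := (hn0 (n + j) (by omega)).2.2 (hsg (n + j) (by omega) (by omega))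
        have h2 := hex (n + j) (by omega)
        omega
      · show c (n - s + s) ≤ c (n - s + W + s) + K' * W
        rw [ej, e0]
        have : (c n : ℝ) ≤ c (n + W) + K' * W := by linarith [hb'.1]
        exact_mod_cast this

end Pool.Agent.SYL
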