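import Mathlib

set_option autoImplicit false

namespace Pool.Agent.SYL

open NumberField

/-- Backward chain of length `M`: `x 0 = q` and
`x (j+1) * (x (j+1) + C j) = C (j+1) * x j` for `j < M`. -/
def IsChain {R : Type*} [CommRing R] (q : ℕ) (C : ℕ → ℕ) (M : ℕ) (x : ℕ → R) : Prop :=
  x 0 = (q : R) ∧
    ∀ j, j < M → x (j + 1) * (x (j + 1) + (C j : R)) = (C (j + 1) : R) * x j

/-- The elements of level `M`: the last terms of chains of length `M`. -/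
def Lev (R : Type*) [CommRing R] (q : ℕ) (C : ℕ → ℕ) (M : ℕ) : Set R :=
  {z | ∃ x : ℕ → R, IsChain q C M x ∧ x M = z}

/-- All elements of level `j < M` have a child in `R`. -/
def Full (R : Type*) [CommRing R] (q : ℕ) (C : ℕ → ℕ) (M : ℕ) : Prop :=
  ∀ j, j < M → ∀ x ∈ Lev R q C j, ∃ y : R, y * (y + (C j : R)) = (C (j + 1) : R) * x

/-- The killing primes: no chain of length `M` exists modulo `p`. -/
def Kill (q : ℕ) (C : ℕ → ℕ) (M : ℕ) : Set ℕ :=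
  {p | p.Prime ∧ ¬ ∃ x : ℕ → ZMod p, IsChain q C M x}

/-- The positive real chain. -/
noncomputable def pos (q : ℕ) (C : ℕ → ℕ) : ℕ → ℝ
  | 0 => (q : ℝ)
  | (j + 1) =>
    (-(C j : ℝ) + Real.sqrt ((C j : ℝ) ^ 2 + 4 * (C (j + 1) : ℝ) * pos q C j)) / 2

/-- Different integral elements of level `I` are different modulo every prime above `l`. -/
def SepOK (q : ℕ) (C : ℕ → ℕ) (I l : ℕ) : Prop :=
  ∀ (L : Type) [Field L] [NumberField L] (P : Ideal (𝓞 L)), P.IsPrime → ((l : ℕ) : 𝓞 L) ∈ P →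
    ∀ x y : 𝓞 L, x ∈ Lev (𝓞 L) q C I → y ∈ Lev (𝓞 L) q C I → x ≠ y → x - y ∉ P

/-- `σ` lies in the inertia group of `P`. -/
def Inert {L : Type} [Field L] [NumberField L] (P : Ideal (𝓞 L)) (σ : L ≃ₐ[ℚ] L) : Prop :=
  ∀ a : 𝓞 L, ∃ b ∈ P, σ (a : L) = (a : L) + (b : L)

/-- `x` is fixed by the inertia group of `P`. -/
def InFix {L : Type} [Field L] [NumberField L] (P : Ideal (𝓞 L)) (x : L) : Prop :=
  ∀ σ : L ≃ₐ[ℚ] L, Inert P σ → σ x = x

/-- Numerical hypotheses on a pattern `q, C` with a prime `l` hitting at index `i`. -/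
structure Pat (q : ℕ) (C : ℕ → ℕ) (K I0 i l : ℕ) : Prop where
  hq : 0 < q
  hC0 : C 0 = 0
  hK : 1 ≤ K
  hI0 : 2 ≤ I0
  mono : ∀ j, j ≤ i → C j < C (j + 1)
  lin : ∀ j, j ≤ i + 1 → C j ≤ K * j
  jump : ∀ j, I0 ≤ j → j ≤ i → C j ≤ 4 * C (j - 1)
  irr : Irrational (pos q C I0)
  prime : l.Prime
  two : 2 < l
  notq : ¬ l ∣ q
  first : ∀ j, 1 ≤ j → j < i → ¬ l ∣ C j
  hit : l ∣ C i
  hit2 : ¬ l ^ 2 ∣ C i
  next : ¬ l ∣ C (i + 1)
  late : I0 + 2 * K + 1 < i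

/-- Galois data: a Galois number field containing the tree up to level `i + 1`, an embedding in
`ℂ`, complex conjugation `c` and the positive real chain `v`. -/
structure GalD (q : ℕ) (C : ℕ → ℕ) (i : ℕ) (L : Type) [Field L] [NumberField L]
    (φ : L →+* ℂ) (c : L ≃ₐ[ℚ] L) (v : ℕ → L) : Prop where
  full : Full L q C (i + 1)
  conj : ∀ x : L, φ (c x) = (starRingEnd ℂ) (φ x)
  vlev : ∀ j, j ≤ i + 1 → v j ∈ Lev L q C j
  vpos : ∀ j, j ≤ i + 1 → φ (v j) = ((pos q C j : ℝ) : ℂ)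

/-- `𝔮` is not split in `E`: at most one prime of `E` lies above it. -/
def NonSplit (F E : Type) [Field F] [NumberField F] [Field E] [NumberField E] [Algebra F E]
    (𝔮 : Ideal (𝓞 F)) : Prop :=
  ∀ Q1 Q2 : Ideal (𝓞 E), Q1.IsPrime → Q2.IsPrime →
    Q1.comap (algebraMap (𝓞 F) (𝓞 E)) = 𝔮 → Q2.comap (algebraMap (𝓞 F) (𝓞 E)) = 𝔮 → Q1 = Q2

/-- The nonzero ideals all of whose prime divisors lie in `W`. -/
def Supp {F : Type} [Field F] [NumberField F] (W : Set (Ideal (𝓞 F))) : Set (Ideal (𝓞 F)) :=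
  {I | I ≠ ⊥ ∧ ∀ Q : Ideal (𝓞 F), Q.IsPrime → I ≤ Q → Q ∈ W}

/-- Zeta sum over the ideals supported in `W`. -/
noncomputable def zs {F : Type} [Field F] [NumberField F] (W : Set (Ideal (𝓞 F))) (s : ℝ) : ℝ :=
  ∑' I : Supp W, ((Ideal.absNorm I.1 : ℕ) : ℝ) ^ (-s)

/-- `S` has density zero in the positive integers. -/
def Dens0 (S : Set ℕ) : Prop :=
  ∀ ε : ℝ, 0 < ε → ∃ X0 : ℕ, ∀ X : ℕ, X0 ≤ X →
    (({m : ℕ | m ∈ S ∧ 1 ≤ m ∧ m ≤ X}.ncard : ℕ) : ℝ) ≤ ε * X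

/-- A coprime system: the data attached to a rational sum of reciprocals. -/
structure Sys (c Q a : ℕ → ℕ) : Prop where
  reca : ∀ n, a n * c n = c (n + 1) + Q n
  recQ : ∀ n, Q (n + 1) = a n * Q n
  cpos : ∀ n, 0 < c n
  Qpos : ∀ n, 0 < Q n
  apos : ∀ n, 1 < a n

/-- `i` is the first return time of `n` modulo `l` (going backwards). -/
def FirstRet (c : ℕ → ℕ) (l n i : ℕ) : Prop :=
  1 ≤ i ∧ i ≤ n ∧ l ∣ c n - c (n - i) ∧ ∀ j, 1 ≤ j → j < i → ¬ l ∣ c n - c (n - j)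

/-- `n` has a large relative jump at index `i`. -/
def Jump (c : ℕ → ℕ) (n i : ℕ) : Prop :=
  2 ≤ i ∧ i ≤ n ∧ 4 * (c n - c (n - i + 1)) < c n - c (n - i)

end Pool.Agent.SYL
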